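import Pool.Agent.Lib.MP_f20cd2_co.PL.Basic

/-!
Definitions and degree bookkeeping for the proof that graphs of polylogarithmic toughness are
Hamiltonian.
-/

set_option autoImplicit false
set_option linter.unusedSectionVars false

namespace Pool.Agent.Lib.MP_f20cd2_co.HM

open Finset
open Pool.Agent.Lib.MP_f20cd2_co.H83 (Conn Cells)
open Pool.Agent.Lib.MP_f20cd2_co.PL
open scoped Classical

variable {V : Type} [Fintype V] [DecidableEq V]

/-- The number of neighbours. -/
noncomputable def dg (H : SimpleGraph V) (v : V) : ℕ := (univ.filter fun w => H.Adj v w).card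

/-- The number of neighbours inside `U`. -/
noncomputable def dgi (H : SimpleGraph V) (U : Finset V) (v : V) : ℕ :=
  (U.filter fun w => H.Adj v w).card

/-- One on `S`, two on the rest of `Y`, zero elsewhere. -/
def dS (Y S : Finset V) (v : V) : ℕ := if v ∈ S then 1 else if v ∈ Y then 2 else 0

/-- `J` is a path in `G` from `u` to `v` with vertex set `W`. -/
structure PathG (G J : SimpleGraph V) (u v : V) (W : Finset V) : Prop where
  le : J ≤ G
  left : u ∈ W
  right : v ∈ W
  deg : ∀ x, dg J x + (if x = u then 1 else 0) + (if x = v then 1 else 0) = if x ∈ W then 2 else 0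
  reach : ∀ x ∈ W, J.Reachable u x

/-- A switcher on `Y` with ports `S` and the two states `P` and `Q`. -/
structure Sw (G : SimpleGraph V) (Y S : Finset V) (P Q : SimpleGraph V) : Prop where
  leP : P ≤ G
  leQ : Q ≤ G
  sub : S ⊆ Y
  card : S.card = 4
  dP : ∀ v, dg P v = dS Y S v
  dQ : ∀ v, dg Q v = dS Y S v
  rP : ∀ v ∈ Y, ∃ a ∈ S, P.Reachable v a
  rQ : ∀ v ∈ Y, ∃ a ∈ S, Q.Reachable v a
  key : ∀ H : SimpleGraph V, (∀ a ∈ S, ∃ b ∈ S, b ≠ a ∧ H.Reachable a b) →
    (∀ a ∈ S, ∀ b ∈ S, (H ⊔ P).Reachable a b) ∨ ∀ a ∈ S, ∀ b ∈ S, (H ⊔ Q).Reachable a b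

/-- No two ports are adjacent in a state. -/
def NA (S : Finset V) (P Q : SimpleGraph V) : Prop := ∀ a ∈ S, ∀ b ∈ S, ¬ (P ⊔ Q).Adj a b

/-- `x` is a port of a switcher inside `X`. -/
def Plug (G : SimpleGraph V) (x : V) (X : Finset V) : Prop :=
  ∃ Y S P Q, Sw G Y S P Q ∧ NA S P Q ∧ x ∈ S ∧ Y ⊆ X

/-- Any two vertices of `H` are joined inside `H` by a short path avoiding a small set. -/
def Lk (G : SimpleGraph V) (H : Finset V) (s r : ℕ) : Prop :=
  ∀ u ∈ H, ∀ v ∈ H, ∀ Z : Finset V, Z.card ≤ s → u ∉ Z → v ∉ Z →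
    ∃ p : G.Walk u v, p.IsPath ∧ p.length ≤ r ∧ ∀ x ∈ p.support, x ∈ H ∧ x ∉ Z

variable {G H K J : SimpleGraph V}

lemma dg_eq_zero {v : V} : dg H v = 0 ↔ ∀ w, ¬ H.Adj v w := by
  simp [dg, card_eq_zero, filter_eq_empty_iff]

lemma dg_pos {v w : V} (h : H.Adj v w) : 0 < dg H v :=
  card_pos.2 ⟨w, mem_filter.2 ⟨mem_univ _, h⟩⟩

lemma exists_adj {v : V} (h : 0 < dg H v) : ∃ w, H.Adj v w := by
  obtain ⟨w, hw⟩ := card_pos.1 h
  exact ⟨w, (mem_filter.1 hw).2⟩

lemma dg_bot (v : V) : dg (⊥ : SimpleGraph V) v = 0 := dg_eq_zero.2 fun _ h => h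

lemma dg_mono (h : H ≤ K) (v : V) : dg H v ≤ dg K v :=
  card_le_card fun _ hw => mem_filter.2 ⟨mem_univ _, h (mem_filter.1 hw).2⟩

lemma disj_iff : Disjoint H K ↔ ∀ u v, H.Adj u v → ¬ K.Adj u v := by
  rw [disjoint_iff]
  constructor
  · intro h u v h1 h2
    have h3 : (H ⊓ K).Adj u v := ⟨h1, h2⟩
    rw [h] at h3
    exact h3
  · intro h
    ext u v
    exact ⟨fun h3 => h u v h3.1 h3.2, fun h3 => h3.elim⟩

lemma dg_sup (h : Disjoint H K) (v : V) : dg (H ⊔ K) v = dg H v + dg K v := by
  unfold dg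
  rw [← card_union_of_disjoint]
  · congr 1
    ext w
    simp [SimpleGraph.sup_adj]
  · rw [disjoint_left]
    intro w h1 h2
    exact disj_iff.1 h v w (mem_filter.1 h1).2 (mem_filter.1 h2).2

lemma dg_eq_one {v w : V} (h : ∀ x, H.Adj v x ↔ x = w) : dg H v = 1 :=
  card_eq_one.2 ⟨w, by
    ext x
    simp [h x]⟩

lemma dg_eq_two {v w w' : V} (hw : w ≠ w') (h : ∀ x, H.Adj v x ↔ x = w ∨ x = w') :
    dg H v = 2 := by
  rw [← card_pair hw]
  unfold dg
  congr 1
  ext x
  simp [h x]

lemma dg_edge {u v : V} (h : u ≠ v) (x : V) :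
    dg (SimpleGraph.edge u v) x = (if x = u then 1 else 0) + if x = v then 1 else 0 := by
  by_cases h1 : x = u
  · subst h1
    rw [if_pos rfl, if_neg h]
    refine dg_eq_one (w := v) fun y => ?_
    rw [SimpleGraph.edge_adj]
    constructor
    · rintro ⟨⟨-, h2⟩ | ⟨h2, -⟩, -⟩
      · exact h2
      · exact absurd h2 h
    · rintro rfl
      exact ⟨Or.inl ⟨rfl, rfl⟩, h⟩
  · by_cases h2 : x = v
    · subst h2
      rw [if_neg h1, if_pos rfl]
      refine dg_eq_one (w := u) fun y => ?_
      rw [SimpleGraph.edge_adj]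
      constructor
      · rintro ⟨⟨h2, -⟩ | ⟨-, h2⟩, -⟩
        · exact absurd h2 h1
        · exact h2
      · rintro rfl
        exact ⟨Or.inr ⟨rfl, rfl⟩, h1⟩
    · rw [if_neg h1, if_neg h2]
      refine dg_eq_zero.2 fun y => ?_
      rw [SimpleGraph.edge_adj]
      rintro ⟨⟨h3, -⟩ | ⟨h3, -⟩, -⟩
      · exact h1 h3
      · exact h2 h3

lemma edge_le {u v : V} (h : G.Adj u v) : SimpleGraph.edge u v ≤ G := by
  intro x y hxy
  rw [SimpleGraph.edge_adj] at hxy
  rcases hxy.1 with ⟨rfl, rfl⟩ | ⟨rfl, rfl⟩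
  · exact h
  · exact h.symm

lemma edge_adj_self {u v : V} (h : u ≠ v) : (SimpleGraph.edge u v).Adj u v := by
  rw [SimpleGraph.edge_adj]
  exact ⟨Or.inl ⟨rfl, rfl⟩, h⟩

lemma finsup_adj {ι : Type} (T : Finset ι) (F : ι → SimpleGraph V) (u v : V) :
    (T.sup F).Adj u v ↔ ∃ t ∈ T, (F t).Adj u v := by
  induction T using Finset.induction_on with
  | empty => simp
  | insert a s _ ih => simp [sup_insert, SimpleGraph.sup_adj, ih]

lemma dg_finsup {ι : Type} (T : Finset ι) (F : ι → SimpleGraph V)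
    (h : ∀ s ∈ T, ∀ t ∈ T, s ≠ t → Disjoint (F s) (F t)) (v : V) :
    dg (T.sup F) v = ∑ t ∈ T, dg (F t) v := by
  induction T using Finset.induction_on with
  | empty => simp [dg_bot]
  | insert a s ha ih =>
    rw [sup_insert, sum_insert ha, dg_sup, ih fun x hx y hy =>
      h x (mem_insert_of_mem hx) y (mem_insert_of_mem hy)]
    refine disj_iff.2 fun x y h1 h2 => ?_
    obtain ⟨t, ht, h3⟩ := (finsup_adj s F x y).1 h2
    exact disj_iff.1 (h a (mem_insert_self _ _) t (mem_insert_of_mem ht)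
      fun e => ha (e ▸ ht)) x y h1 h3

/-- The handshake lemma on a set closed under adjacency. -/
lemma even_sum_dg (B : Finset V) (hB : ∀ u ∈ B, ∀ w, H.Adj u w → w ∈ B) :
    Even (∑ v ∈ B, dg H v) := by
  let H' : SimpleGraph V :=
    { Adj := fun u w => H.Adj u w ∧ u ∈ B ∧ w ∈ B
      symm := ⟨fun _ _ h => ⟨h.1.symm, h.2.2, h.2.1⟩⟩
      loopless := ⟨fun _ h => H.irrefl h.1⟩ }
  have h1 := H'.sum_degrees_eq_twice_card_edges
  have h2 : ∑ v, H'.degree v = ∑ v ∈ B, dg H v := by
    rw [← sum_subset (subset_univ B)]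
    · refine sum_congr rfl fun v hv => ?_
      rw [← SimpleGraph.card_neighborFinset_eq_degree]
      unfold dg
      congr 1
      ext w
      rw [SimpleGraph.mem_neighborFinset, mem_filter]
      exact ⟨fun h => ⟨mem_univ _, h.1⟩, fun h => ⟨h.2, hv, hB v hv w h.2⟩⟩
    · intro v _ hv
      rw [← SimpleGraph.card_neighborFinset_eq_degree, card_eq_zero]
      refine eq_empty_of_forall_notMem fun w hw => hv ?_
      rw [SimpleGraph.mem_neighborFinset] at hw
      exact hw.2.1
  rw [← h2, h1]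
  exact even_two_mul _

/-- A vertex of odd degree reaches another vertex of odd degree. -/
lemma parity {v : V} (hv : Odd (dg H v)) : ∃ w, w ≠ v ∧ H.Reachable v w ∧ Odd (dg H w) := by
  by_contra hno
  push Not at hno
  have h1 := even_sum_dg (H := H) (univ.filter fun w => H.Reachable v w) fun u hu w huw =>
    mem_filter.2 ⟨mem_univ _, (mem_filter.1 hu).2.trans huw.reachable⟩
  have hm : v ∈ univ.filter fun w => H.Reachable v w :=
    mem_filter.2 ⟨mem_univ _, SimpleGraph.Reachable.refl v⟩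
  rw [← add_sum_erase _ _ hm] at h1
  have h2 : Even (∑ x ∈ (univ.filter fun w => H.Reachable v w).erase v, dg H x) :=
    even_sum _ fun x hx => Nat.not_odd_iff_even.1
      (hno x (ne_of_mem_erase hx) (mem_filter.1 (mem_of_mem_erase hx)).2)
  exact Nat.not_even_iff_odd.2 hv ((Nat.even_add.1 h1).2 h2)

/-- A property preserved along edges is preserved along walks. -/
lemma reach_ind {p : V → Prop} (h : ∀ u v, H.Adj u v → p u → p v) {u v : V}
    (huv : H.Reachable u v) (hu : p u) : p v := by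
  obtain ⟨w⟩ := huv
  induction w with
  | nil => exact hu
  | cons ha _ ih => exact ih (h _ _ ha hu)

/-- Reachability passes to a graph in which the ends of every edge are connected. -/
lemma reach_trans (h : ∀ u v, H.Adj u v → K.Reachable u v) {u v : V} (huv : H.Reachable u v) :
    K.Reachable u v :=
  reach_ind (p := fun x => K.Reachable u x) (fun a b hab ha => ha.trans (h a b hab)) huv
    (SimpleGraph.Reachable.refl u)

lemma dS_pos {Y S : Finset V} (h : S ⊆ Y) {v : V} (hv : 0 < dS Y S v) : v ∈ Y := by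
  by_contra h1
  unfold dS at hv
  rw [if_neg fun h2 => h1 (h h2), if_neg h1] at hv
  omega

lemma odd_dS {Y S : Finset V} {v : V} : Odd (dS Y S v) ↔ v ∈ S := by
  unfold dS
  split_ifs with h1 h2 <;> simp [h1]

lemma PathG.mem {u v : V} {W : Finset V} (h : PathG G J u v W) {x y : V} (hxy : J.Adj x y) :
    x ∈ W := by
  by_contra hx
  have h1 := h.deg x
  have h2 := dg_pos hxy
  rw [if_neg hx] at h1
  omega

lemma PathG.symm {u v : V} {W : Finset V} (h : PathG G J u v W) : PathG G J v u W :=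
  ⟨h.le, h.right, h.left, fun x => by have := h.deg x; omega,
    fun x hx => (h.reach v h.right).symm.trans (h.reach x hx)⟩

lemma PathG.nil (u : V) : PathG G ⊥ u u {u} := by
  refine ⟨bot_le, mem_singleton_self u, mem_singleton_self u, fun x => ?_, fun x hx => ?_⟩
  · by_cases h : x = u <;> simp [h, dg_bot]
  · rw [mem_singleton.1 hx]

lemma PathG.edge {u v : V} (h : G.Adj u v) : PathG G (SimpleGraph.edge u v) u v {u, v} := by
  refine ⟨edge_le h, by simp, by simp, fun x => ?_, fun x hx => ?_⟩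
  · rw [dg_edge h.ne]
    by_cases h1 : x = u
    · subst h1
      simp [h.ne]
    · by_cases h2 : x = v
      · subst h2
        simp [h1]
      · simp [h1, h2]
  · rcases mem_insert.1 hx with rfl | hx
    · rfl
    · rw [mem_singleton.1 hx]
      exact (edge_adj_self h.ne).reachable

lemma PathG.trans {J' : SimpleGraph V} {u v w : V} {W W' : Finset V} (h : PathG G J u v W)
    (h' : PathG G J' v w W') (hW : ∀ x ∈ W, x ∈ W' → x = v) : PathG G (J ⊔ J') u w (W ∪ W') := by
  have hd : Disjoint J J' := disj_iff.2 fun x y h1 h2 =>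
    h1.ne ((hW x (h.mem h1) (h'.mem h2)).trans (hW y (h.mem h1.symm) (h'.mem h2.symm)).symm)
  refine ⟨sup_le h.le h'.le, mem_union_left _ h.left, mem_union_right _ h'.right,
    fun x => ?_, fun x hx => ?_⟩
  · rw [dg_sup hd]
    have h1 := h.deg x
    have h2 := h'.deg x
    by_cases h3 : x = v
    · subst h3
      rw [if_pos h.right, if_pos rfl] at h1
      rw [if_pos h'.left, if_pos rfl] at h2
      rw [if_pos (mem_union_left _ h.right)]
      omega
    · rw [if_neg h3] at h1 h2
      by_cases h4 : x ∈ W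
      · rw [if_pos h4] at h1
        rw [if_neg fun h5 => h3 (hW x h4 h5)] at h2
        rw [if_pos (mem_union_left _ h4)]
        omega
      · rw [if_neg h4] at h1
        by_cases h5 : x ∈ W'
        · rw [if_pos h5] at h2
          rw [if_pos (mem_union_right _ h5)]
          omega
        · rw [if_neg h5] at h2
          rw [if_neg fun h6 => (mem_union.1 h6).elim h4 h5]
          omega
  · rcases mem_union.1 hx with hx | hx
    · exact (h.reach x hx).mono le_sup_left
    · exact ((h.reach v h.right).mono le_sup_left).trans ((h'.reach x hx).mono le_sup_right)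

lemma PathG.of_walk {u v : V} (p : G.Walk u v) (hp : p.IsPath) :
    ∃ J, PathG G J u v p.support.toFinset := by
  induction p with
  | nil => exact ⟨⊥, by simpa using PathG.nil _⟩
  | @cons a b c ha q ih =>
    rw [SimpleGraph.Walk.cons_isPath_iff] at hp
    obtain ⟨J, hJ⟩ := ih hp.1
    refine ⟨SimpleGraph.edge a b ⊔ J, ?_⟩
    have h1 := (PathG.edge ha).trans hJ fun x hx hx' => by
      rcases mem_insert.1 hx with rfl | hx
      · exact absurd (List.mem_toFinset.1 hx') hp.2
      · exact mem_singleton.1 hx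
    convert h1 using 1
    ext x
    have h2 : b ∈ q.support := q.start_mem_support
    simp only [SimpleGraph.Walk.support_cons, List.toFinset_cons, mem_insert, List.mem_toFinset,
      mem_union, mem_singleton]
    constructor
    · rintro (h | h)
      · exact Or.inl (Or.inl h)
      · exact Or.inr h
    · rintro ((h | h) | h)
      · exact Or.inl h
      · exact Or.inr (h ▸ h2)
      · exact Or.inr h

lemma Sw.mem {Y S : Finset V} {P Q : SimpleGraph V} (h : Sw G Y S P Q) {u v : V}
    (huv : (P ⊔ Q).Adj u v) : u ∈ Y := by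
  rcases huv with h1 | h1
  · exact dS_pos h.sub (h.dP u ▸ dg_pos h1)
  · exact dS_pos h.sub (h.dQ u ▸ dg_pos h1)

/-- The union of the two states connects the whole switcher. -/
lemma Sw.conn {Y S : Finset V} {P Q : SimpleGraph V} (h : Sw G Y S P Q) {u v : V} (hu : u ∈ Y)
    (hv : v ∈ Y) : (P ⊔ Q).Reachable u v := by
  have h1 : ∀ a ∈ S, ∀ b ∈ S, (P ⊔ Q).Reachable a b := by
    rcases h.key P fun a ha => (by
      obtain ⟨b, hb, h2, h3⟩ := parity (H := P) (v := a) (h.dP a ▸ odd_dS.2 ha)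
      exact ⟨b, odd_dS.1 (h.dP b ▸ h3), hb, h2⟩) with h2 | h2
    · exact fun a ha b hb => (h2 a ha b hb).mono (sup_le le_sup_left le_sup_left)
    · exact h2
  obtain ⟨a, ha, h2⟩ := h.rP u hu
  obtain ⟨b, hb, h3⟩ := h.rP v hv
  exact ((h2.mono le_sup_left).trans (h1 a ha b hb)).trans (h3.mono le_sup_left).symm

lemma Plug.mono {x : V} {X X' : Finset V} (h : Plug G x X) (hX : X ⊆ X') : Plug G x X' :=
  let ⟨Y, S, P, Q, h1, h2, h3, h4⟩ := h
  ⟨Y, S, P, Q, h1, h2, h3, h4.trans hX⟩

end Pool.Agent.Lib.MP_f20cd2_co.HM
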