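import Pool.Agent.Lib.MP_f20cd2_co.HM.Tut

/-!
Disjoint paths pairing an even set of terminals through a tough class.
-/

set_option autoImplicit false
set_option linter.unusedSectionVars false

namespace Pool.Agent.Lib.MP_f20cd2_co.HM

open Finset
open Pool.Agent.Lib.MP_f20cd2_co.H83 (Conn Cells)
open Pool.Agent.Lib.MP_f20cd2_co.PL
open scoped Classical

variable {V : Type} [Fintype V] [DecidableEq V] {G : SimpleGraph V}

namespace TJoinAux

/-- Two copies of `G` joined by rungs. -/
def dbl (G : SimpleGraph V) : SimpleGraph (V × Bool) where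
  Adj x y := (x.2 = y.2 ∧ G.Adj x.1 y.1) ∨ (x.1 = y.1 ∧ x.2 ≠ y.2)
  symm := ⟨fun _ _ h => h.elim (fun h => Or.inl ⟨h.1.symm, h.2.symm⟩)
    fun h => Or.inr ⟨h.1.symm, h.2.symm⟩⟩
  loopless := ⟨fun _ h => h.elim (fun h => G.irrefl h.2) fun h => h.2 rfl⟩

/-- The set to be matched. -/
def big (R T : Finset V) : Finset (V × Bool) := (T ∪ R) ×ˢ {false} ∪ R ×ˢ {true}

lemma mem_false {R T : Finset V} {v : V} : (v, false) ∈ big R T ↔ v ∈ T ∨ v ∈ R := by
  simp [big]

lemma mem_true {R T : Finset V} {v : V} : (v, true) ∈ big R T ↔ v ∈ R := by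
  simp [big]

lemma card_layers (X Y : Finset V) :
    (X ×ˢ ({false} : Finset Bool) ∪ Y ×ˢ {true}).card = X.card + Y.card := by
  rw [card_union_of_disjoint, card_product, card_product, card_singleton, card_singleton, mul_one,
    mul_one]
  rw [disjoint_left]
  rintro ⟨v, b⟩ h1 h2
  have h3 := mem_singleton.1 (mem_product.1 h1).2
  have h4 := mem_singleton.1 (mem_product.1 h2).2
  simp only at h3 h4
  rw [h3] at h4
  exact Bool.false_ne_true h4

lemma cond {R T : Finset V} (hR : RT G R 2) (hc : 2 ≤ R.card) (B : Finset (V × Bool)) (c : ℕ)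
    (hB : Cells (dbl G) B c) (h2 : 2 ≤ c) : c ≤ (big R T \ B).card := by
  obtain ⟨lab, hl1, hl2⟩ := hB
  let L : Bool → Finset V := fun b => univ.filter fun v => (v, b) ∈ B
  have hL : ∀ b v, v ∈ L b ↔ (v, b) ∈ B := fun b v => by simp [L]
  let I : Bool → Finset ℕ := fun b => (L b).image fun v => lab (v, b)
  have h1 : ∀ b, 2 ≤ (I b).card → 2 * (I b).card ≤ (R \ L b).card := fun b hb => by
    have h3 := hR (L b) (I b).card (BasicAux.cells (L b) (fun v => lab (v, b))
      (fun v hv w hw hvw => hl2 _ ((hL b v).1 hv) _ ((hL b w).1 hw) (Or.inl ⟨rfl, hvw⟩)) _ le_rfl) hb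
    exact_mod_cast h3
  have h3 : c ≤ (I false ∪ I true).card := by
    rw [← card_range c]
    refine card_le_card fun j hj => ?_
    obtain ⟨⟨v, b⟩, hv, e⟩ := hl1 j (mem_range.1 hj)
    cases b
    · exact mem_union_left _ (mem_image.2 ⟨v, (hL _ v).2 hv, e⟩)
    · exact mem_union_right _ (mem_image.2 ⟨v, (hL _ v).2 hv, e⟩)
  have h4 : (R \ L false).card + (R \ L true).card ≤ (big R T \ B).card := by
    rw [← card_layers]
    refine card_le_card ?_
    rintro ⟨v, b⟩ hx
    rcases mem_union.1 hx with h | h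
    · obtain ⟨h5, h6⟩ := mem_product.1 h
      obtain rfl : b = false := mem_singleton.1 h6
      exact mem_sdiff.2 ⟨mem_false.2 (Or.inr (mem_sdiff.1 h5).1),
        fun h7 => (mem_sdiff.1 h5).2 ((hL _ v).2 h7)⟩
    · obtain ⟨h5, h6⟩ := mem_product.1 h
      obtain rfl : b = true := mem_singleton.1 h6
      exact mem_sdiff.2 ⟨mem_true.2 (mem_sdiff.1 h5).1,
        fun h7 => (mem_sdiff.1 h5).2 ((hL _ v).2 h7)⟩
  have h5 := card_union_add_card_inter (I false) (I true)
  have h6 := h1 false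
  have h7 := h1 true
  by_cases h8 : 2 ≤ (I false).card ∨ 2 ≤ (I true).card
  · omega
  have h9 : R ⊆ R \ L false ∪ R \ L true := fun v hv => by
    by_contra hno
    rw [mem_union, mem_sdiff, mem_sdiff] at hno
    have a0 : v ∈ L false := by_contra fun h => hno (Or.inl ⟨hv, h⟩)
    have a1 : v ∈ L true := by_contra fun h => hno (Or.inr ⟨hv, h⟩)
    have e := hl2 _ ((hL _ v).1 a0) _ ((hL _ v).1 a1) (Or.inr ⟨rfl, Bool.false_ne_true⟩)
    have : 0 < (I false ∩ I true).card := card_pos.2 ⟨lab (v, false), mem_inter.2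
      ⟨mem_image.2 ⟨v, a0, rfl⟩, mem_image.2 ⟨v, a1, e.symm⟩⟩⟩
    omega
  have h10 := (card_le_card h9).trans (card_union_le _ _)
  omega

/-- The projection of a matching. -/
def prj (A : Finset (V × Bool)) (m : V × Bool → V × Bool)
    (hm : ∀ x ∈ A, m x ∈ A ∧ m (m x) = x) : SimpleGraph V where
  Adj u v := u ≠ v ∧ ∃ b, (u, b) ∈ A ∧ m (u, b) = (v, b)
  symm := ⟨fun u v h => by
    obtain ⟨h1, b, h2, h3⟩ := h
    have h4 := hm _ h2
    rw [h3] at h4
    exact ⟨h1.symm, b, h4.1, h4.2⟩⟩
  loopless := ⟨fun _ h => h.1 rfl⟩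

/-- The restriction of a graph to the vertices with a property. -/
def res (H : SimpleGraph V) (P : V → Prop) : SimpleGraph V where
  Adj u v := H.Adj u v ∧ P u ∧ P v
  symm := ⟨fun _ _ h => ⟨h.1.symm, h.2.2, h.2.1⟩⟩
  loopless := ⟨fun _ h => H.irrefl h.1⟩

end TJoinAux

/-- Gallai doubling.  On `V × Bool` take `A = (T ∪ R) × {false} ∪ R × {true}` and the graph with
`(u,b) ~ (v,b)` for `G.Adj u v` and `(v,false) ~ (v,true)`.  For `Cells Γ B c` with labelling `lab`
let `B0`, `B1` be the two layers and `c0`, `c1` their numbers of labels (`cells_of_lab`), so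
`c ≤ c0 + c1`, `2 * ci ≤ |R \ Bi|` if `2 ≤ ci`, and `|R \ B0| + |R \ B1| ≤ |A \ B|`.  If both
`ci ≤ 1` and `c = 2`, no vertex of `R` lies in both layers, so the sum is at least `|R| ≥ 2`.
`tutte_fin` gives `m`.  `J0.Adj u v` iff `u ≠ v` and `m (u,b) = (v,b)` for some `b` with
`(u,b) ∈ A`.  `R'` is the set of vertices of `R` that reach `T` in `J0`, and `J` is `J0` restricted to
`T ∪ R'`.  A vertex `v` of `R` with `m (v,false) = (v,true)` is isolated in `J0`; if both copies of
`v` are matched to the copies of one `w` then `{v, w} ⊆ R` is closed in `J0` (`reach_ind`); otherwise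
`dg_eq_two` applies. -/
theorem tjoin {R T : Finset V} (hR : RT G R 2) (hc : 2 ≤ R.card) (hd : Disjoint T R)
    (hT : Even T.card) :
    ∃ J ≤ G, ∃ R' ⊆ R, (∀ v, dg J v = dS R' T v) ∧ ∀ v ∈ R', ∃ t ∈ T, J.Reachable v t := by
  have hev : Even (TJoinAux.big R T).card := by
    rw [TJoinAux.big, TJoinAux.card_layers, card_union_of_disjoint hd, add_assoc]
    exact hT.add ⟨_, rfl⟩
  obtain ⟨m, hm⟩ := tutte_fin (TJoinAux.dbl G) (TJoinAux.big R T) hev
    fun B _ c hB h2 => TJoinAux.cond hR hc B c hB h2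
  set A := TJoinAux.big R T with hA
  set J0 := TJoinAux.prj A m fun x hx => ⟨(hm x hx).1, (hm x hx).2.1⟩ with hJ0
  have hadj : ∀ u v, J0.Adj u v ↔ u ≠ v ∧ ∃ b, (u, b) ∈ A ∧ m (u, b) = (v, b) := fun _ _ => Iff.rfl
  have hle : J0 ≤ G := fun u v h => by
    obtain ⟨h1, b, h2, h3⟩ := (hadj u v).1 h
    have h4 := (hm _ h2).2.2
    rw [h3] at h4
    exact h4.elim (fun h5 => h5.2) fun h5 => absurd h5.1 h1
  have hcase : ∀ v b, (v, b) ∈ A → (∃ w, v ≠ w ∧ m (v, b) = (w, b)) ∨ m (v, b) = (v, !b) := by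
    intro v b hv
    have h4 := (hm _ hv).2.2
    rcases e : m (v, b) with ⟨w, b'⟩
    rw [e] at h4
    rcases h4 with ⟨h5, h6⟩ | ⟨h5, h6⟩
    · obtain rfl : b = b' := h5
      exact Or.inl ⟨w, h6.ne, rfl⟩
    · obtain rfl : v = w := h5
      right
      have h7 : b ≠ b' := h6
      cases b <;> cases b' <;> simp_all
  have hTR : ∀ v ∈ T, v ∉ R := fun v hv => disjoint_left.1 hd hv
  let P : V → Prop := fun u => ∃ t ∈ T, J0.Reachable u t
  have hP : ∀ u v, J0.Adj u v → P u → P v := fun u v h ⟨t, ht, h1⟩ =>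
    ⟨t, ht, h.symm.reachable.trans h1⟩
  have hres : ∀ u, P u → ∀ v, (TJoinAux.res J0 P).Adj u v ↔ J0.Adj u v := fun u hu v =>
    ⟨fun h => h.1, fun h => ⟨h, hu, hP u v h hu⟩⟩
  refine ⟨TJoinAux.res J0 P, fun u v h => hle h.1, R.filter P, filter_subset _ _, fun v => ?_,
    fun v hv => ?_⟩
  · unfold dS
    by_cases hvT : v ∈ T
    · rw [if_pos hvT]
      have h0 : (v, false) ∈ A := TJoinAux.mem_false.2 (Or.inl hvT)
      rcases hcase v false h0 with ⟨w, h1, h2⟩ | h1
      · refine dg_eq_one (w := w) fun x => ?_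
        rw [hres v ⟨v, hvT, SimpleGraph.Reachable.refl v⟩, hadj]
        constructor
        · rintro ⟨-, b, h3, h4⟩
          cases b
          · rw [h2] at h4
            exact (Prod.ext_iff.1 h4).1.symm
          · exact absurd (TJoinAux.mem_true.1 h3) (hTR v hvT)
        · rintro rfl
          exact ⟨h1, false, h0, h2⟩
      · have h2 := (hm _ h0).1
        rw [h1] at h2
        exact absurd (TJoinAux.mem_true.1 h2) (hTR v hvT)
    rw [if_neg hvT]
    by_cases hvR : v ∈ R.filter P
    · rw [if_pos hvR]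
      obtain ⟨hv, t, ht, hvt⟩ := mem_filter.1 hvR
      have h0 : (v, false) ∈ A := TJoinAux.mem_false.2 (Or.inr hv)
      have h1 : (v, true) ∈ A := TJoinAux.mem_true.2 hv
      have hrung : m (v, false) ≠ (v, true) := fun e => by
        have e' := (hm _ h0).2.1
        rw [e] at e'
        have h2 : t = v := reach_ind (p := fun x => x = v) (fun a x hax ha => by
          subst ha
          obtain ⟨h3, b, -, h4⟩ := (hadj a x).1 hax
          cases b
          · rw [e] at h4
            exact (Prod.ext_iff.1 h4).1.symm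
          · rw [e'] at h4
            exact (Prod.ext_iff.1 h4).1.symm) hvt rfl
        exact hvT (h2 ▸ ht)
      obtain ⟨w0, a0, b0⟩ := (hcase v false h0).resolve_right hrung
      obtain ⟨w1, a1, b1⟩ := (hcase v true h1).resolve_right fun e => by
        have e' := (hm _ h1).2.1
        rw [e] at e'
        exact hrung e'
      have hnb : ∀ x, J0.Adj v x ↔ x = w0 ∨ x = w1 := fun x => by
        rw [hadj]
        constructor
        · rintro ⟨-, b, -, h4⟩
          cases b
          · rw [b0] at h4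
            exact Or.inl (Prod.ext_iff.1 h4).1.symm
          · rw [b1] at h4
            exact Or.inr (Prod.ext_iff.1 h4).1.symm
        · rintro (rfl | rfl)
          · exact ⟨a0, false, h0, b0⟩
          · exact ⟨a1, true, h1, b1⟩
      refine dg_eq_two (w := w0) (w' := w1) (fun e => ?_) fun x => ?_
      · subst e
        have c0 := (hm _ h0).2.1
        have c1 := (hm _ h1).2.1
        have c2 := (hm _ h1).1
        rw [b0] at c0
        rw [b1] at c1 c2
        have h2 : t = v ∨ t = w0 := reach_ind (p := fun x => x = v ∨ x = w0) (fun a x hax ha => by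
          rcases ha with rfl | rfl
          · exact Or.inr (((hnb x).1 hax).elim id id)
          · obtain ⟨-, b, -, h4⟩ := (hadj a x).1 hax
            cases b
            · rw [c0] at h4
              exact Or.inl (Prod.ext_iff.1 h4).1.symm
            · rw [c1] at h4
              exact Or.inl (Prod.ext_iff.1 h4).1.symm) hvt (Or.inl rfl)
        rcases h2 with rfl | rfl
        · exact hvT ht
        · exact hTR _ ht (TJoinAux.mem_true.1 c2)
      · rw [hres v ⟨t, ht, hvt⟩, hnb]
    · rw [if_neg hvR]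
      refine dg_eq_zero.2 fun w hw => hvR (mem_filter.2 ⟨?_, hw.2.1⟩)
      obtain ⟨-, b, h3, -⟩ := (hadj v w).1 hw.1
      cases b
      · exact (TJoinAux.mem_false.1 h3).resolve_left hvT
      · exact TJoinAux.mem_true.1 h3
  · obtain ⟨-, t, ht, hvt⟩ := mem_filter.1 hv
    refine ⟨t, ht, (reach_ind (p := fun x => (TJoinAux.res J0 P).Reachable v x ∧ P x)
      (fun a x hax ha => ⟨ha.1.trans ((hres a ha.2 x).2 hax).reachable, hP a x hax ha.2⟩) hvt
      ⟨SimpleGraph.Reachable.refl v, t, ht, hvt⟩).1⟩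

end Pool.Agent.Lib.MP_f20cd2_co.HM
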