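import Pool.Agent.Lib.MP_f20cd2_co.HM.Defs

/-!
Choosing the states of the switchers.
-/

set_option autoImplicit false
set_option linter.unusedSectionVars false

namespace Pool.Agent.Lib.MP_f20cd2_co.HM

open Finset
open Pool.Agent.Lib.MP_f20cd2_co.H83 (Conn Cells)
open Pool.Agent.Lib.MP_f20cd2_co.PL
open scoped Classical

variable {V : Type} [Fintype V] [DecidableEq V] {G : SimpleGraph V}

/-- Induct on `T`, generalising `F`.  For `insert t T` let `K' = T.sup (P ⊔ Q)`.  In
`F ⊔ T.sup P` the vertices of odd degree are the ports of `t` (`dg_sup`, `dg_finsup`, `Sw.mem` for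
disjointness), so by `parity` each port reaches another port in `F ⊔ K'`.  `key` gives a state `St`
such that `F ⊔ K' ⊔ St` joins all ports, hence all of `Y t` (`rP`, `rQ`), hence everything
(`reach_trans`).  Apply the induction hypothesis to `F ⊔ St`. -/
theorem switch (T : Finset V) (Y S : V → Finset V) (P Q : V → SimpleGraph V)
    (hS : ∀ t ∈ T, Sw G (Y t) (S t) (P t) (Q t))
    (hd : ∀ t ∈ T, ∀ t' ∈ T, t ≠ t' → Disjoint (Y t) (Y t')) (F : SimpleGraph V) (hF : F ≤ G)
    (hFK : Disjoint F (T.sup fun t => P t ⊔ Q t))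
    (hdeg : ∀ v, dg F v + ∑ t ∈ T, dS (Y t) (S t) v = 2)
    (hc : ∀ u v, (F ⊔ T.sup fun t => P t ⊔ Q t).Reachable u v) :
    ∃ F' ≤ G, (∀ v, dg F' v = 2) ∧ ∀ u v, F'.Reachable u v := by
  induction T using Finset.induction_on generalizing F with
  | empty => exact ⟨F, hF, fun v => by simpa using hdeg v, fun u v => by simpa using hc u v⟩
  | insert t T ht ih =>
    have hSt := hS t (mem_insert_self _ _)
    have hS' : ∀ s ∈ T, Sw G (Y s) (S s) (P s) (Q s) := fun s hs => hS s (mem_insert_of_mem hs)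
    have hd' : ∀ s ∈ T, ∀ s' ∈ T, s ≠ s' → Disjoint (Y s) (Y s') := fun s hs s' hs' =>
      hd s (mem_insert_of_mem hs) s' (mem_insert_of_mem hs')
    rw [sup_insert] at hFK hc
    simp only [sum_insert ht] at hdeg
    obtain ⟨K, hK⟩ : ∃ K, K = T.sup fun t => P t ⊔ Q t := ⟨_, rfl⟩
    rw [← hK] at hFK hc ih
    have hFt : Disjoint F (P t ⊔ Q t) := hFK.mono_right le_sup_left
    have hFK' : Disjoint F K := hFK.mono_right le_sup_right
    have htK : Disjoint (P t ⊔ Q t) K := disj_iff.2 fun u v h1 h2 => by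
      rw [hK] at h2
      obtain ⟨s, hs, h3⟩ := (finsup_adj T _ u v).1 h2
      exact disjoint_left.1 (hd t (mem_insert_self _ _) s (mem_insert_of_mem hs)
        fun e => ht (e ▸ hs)) (hSt.mem h1) ((hS' s hs).mem h3)
    have hPK : T.sup P ≤ K := hK ▸ Finset.sup_mono_fun fun s _ => le_sup_left
    have hodd : ∀ v, Odd (dg (F ⊔ T.sup P) v) ↔ v ∈ S t := fun v => by
      have h1 : dg (F ⊔ T.sup P) v = dg F v + ∑ s ∈ T, dS (Y s) (S s) v := by
        rw [dg_sup (hFK'.mono_right hPK), dg_finsup T P fun s hs s' hs' e =>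
          disj_iff.2 fun x y h1 h2 => disjoint_left.1 (hd' s hs s' hs' e)
            ((hS' s hs).mem (Or.inl h1)) ((hS' s' hs').mem (Or.inl h2)),
          sum_congr rfl fun s hs => (hS' s hs).dP v]
      have h2 := hdeg v
      rw [← odd_dS (Y := Y t), Nat.odd_iff, Nat.odd_iff]
      omega
    have hkey := hSt.key (F ⊔ K) fun a ha => by
      obtain ⟨b, hb, h2, h3⟩ := parity ((hodd a).2 ha)
      exact ⟨b, (hodd b).1 h3, hb, h2.mono (sup_le_sup_left hPK F)⟩
    obtain ⟨R, hR1, hR2, hR3, hR4, hR5⟩ : ∃ R : SimpleGraph V, R ≤ G ∧ R ≤ P t ⊔ Q t ∧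
        (∀ v, dg R v = dS (Y t) (S t) v) ∧ (∀ v ∈ Y t, ∃ a ∈ S t, R.Reachable v a) ∧
        ∀ a ∈ S t, ∀ b ∈ S t, (F ⊔ K ⊔ R).Reachable a b := by
      rcases hkey with h | h
      · exact ⟨P t, hSt.leP, le_sup_left, hSt.dP, hSt.rP, h⟩
      · exact ⟨Q t, hSt.leQ, le_sup_right, hSt.dQ, hSt.rQ, h⟩
    refine ih hS' hd' (F ⊔ R) (sup_le hF hR1) (hFK'.sup_left (htK.mono_left hR2))
      (fun v => ?_) fun u v => ?_
    · have h2 := hdeg v
      rw [dg_sup (hFt.mono_right hR2), hR3]
      omega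
    · rw [sup_right_comm]
      refine reach_trans (fun x y hxy => ?_) (hc u v)
      rcases hxy with h | h | h
      · exact SimpleGraph.Adj.reachable (Or.inl (Or.inl h))
      · obtain ⟨a, ha, h1⟩ := hR4 x (hSt.mem h)
        obtain ⟨b, hb, h2⟩ := hR4 y (hSt.mem h.symm)
        exact ((h1.mono le_sup_right).trans (hR5 a ha b hb)).trans (h2.mono le_sup_right).symm
      · exact SimpleGraph.Adj.reachable (Or.inl (Or.inr h))

/-- `IsCycles.exists_cycle_toSubgraph_verts_eq_connectedComponentSupp` and `IsHamiltonian.mono`. -/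
theorem ham_of_two [Nonempty V] {F : SimpleGraph V} (hF : F ≤ G) (hdeg : ∀ v, dg F v = 2)
    (hc : ∀ u v, F.Reachable u v) : G.IsHamiltonian := by
  refine SimpleGraph.IsHamiltonian.mono hF fun _ => ?_
  obtain ⟨v⟩ := ‹Nonempty V›
  have h1 : F.IsCycles := fun x _ => by
    rw [← hdeg x, dg, ← Set.ncard_coe_finset]
    congr 1
    ext w
    simp
  obtain ⟨w, hw⟩ := exists_adj (H := F) (v := v) (by rw [hdeg]; norm_num)
  obtain ⟨p, hp, h2⟩ := h1.exists_cycle_toSubgraph_verts_eq_connectedComponentSupp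
    (c := F.connectedComponentMk v) (v := v) rfl ⟨w, hw⟩
  refine ⟨v, p,
    SimpleGraph.Walk.isHamiltonianCycle_iff_isCycle_and_support_count_tail_eq_one.2
      ⟨hp, fun a => List.count_eq_one_of_mem hp.support_nodup ?_⟩⟩
  have h3 : a ∈ p.support := by
    rw [← SimpleGraph.Walk.mem_verts_toSubgraph, h2]
    exact SimpleGraph.ConnectedComponent.sound (hc a v)
  rw [← p.cons_tail_support, List.mem_cons] at h3
  rcases h3 with rfl | h3
  · exact p.end_mem_tail_support hp.not_nil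
  · exact h3

/-- Complete graphs (for instance through `cycleGraph` and an equivalence with `Fin n`). -/
theorem ham_top (h3 : 3 ≤ Fintype.card V) (hc : ∀ u v, u ≠ v → G.Adj u v) : G.IsHamiltonian := by
  obtain ⟨n, hn⟩ : ∃ n, Fintype.card V = n + 3 := ⟨Fintype.card V - 3, by omega⟩
  let e : V ≃ Fin (n + 3) := Fintype.equivFinOfCardEq hn
  let f : SimpleGraph.cycleGraph (n + 3) →g G :=
    ⟨e.symm, fun h => hc _ _ fun h' => h.ne (e.symm.injective h')⟩
  have h1 : (SimpleGraph.cycleGraph.cycle n).IsHamiltonianCycle :=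
    SimpleGraph.Walk.isHamiltonianCycle_iff_isCycle_and_length_eq.2
      ⟨SimpleGraph.cycleGraph.isCycle_cycle, by
        rw [SimpleGraph.cycleGraph.length_cycle, Fintype.card_fin]⟩
  exact fun _ => ⟨_, _, h1.map (f := f) e.symm.bijective⟩

end Pool.Agent.Lib.MP_f20cd2_co.HM
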