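import Pool.Agent.Lib.MP_f20cd2_co.HM.Tut
import Pool.Agent.Lib.MP_f20cd2_co.PL.Hall

/-!
Absorbing the left-over vertices.
-/

set_option autoImplicit false
set_option linter.unusedSectionVars false

namespace Pool.Agent.Lib.MP_f20cd2_co.HM

open Finset
open Pool.Agent.Lib.MP_f20cd2_co.H83 (Conn Cells)
open Pool.Agent.Lib.MP_f20cd2_co.PL
open scoped Classical

variable {V : Type} [Fintype V] [DecidableEq V] {G : SimpleGraph V}

namespace CloseAux

/-- Two private neighbours in `T1` for each vertex of `Z`. -/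
lemma cherries [Nonempty V] {T1 Z : Finset V}
    (hexp : ∀ D ⊆ Z, 2 * D.card ≤ (nbr G D ∩ T1).card) :
    ∃ f : V × Bool → V, (∀ z ∈ Z, ∀ b, f (z, b) ∈ T1 ∧ G.Adj z (f (z, b))) ∧
      ∀ z ∈ Z, ∀ b, ∀ z' ∈ Z, ∀ b', f (z, b) = f (z', b') → z = z' ∧ b = b' := by
  obtain ⟨f, hf1, hf2⟩ := hall_cap (Z ×ˢ (univ : Finset Bool)) T1 (fun _ => 1)
    (fun y u => G.Adj y.1 u) (by
      intro X hX
      have h1 : X ⊆ (X.image Prod.fst) ×ˢ (univ : Finset Bool) := fun y hy =>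
        mem_product.2 ⟨mem_image_of_mem _ hy, mem_univ _⟩
      have h2 := card_le_card h1
      rw [card_product, card_univ, Fintype.card_bool, mul_comm] at h2
      have h3 := hexp (X.image Prod.fst) (by
        intro x hx
        obtain ⟨y, hy, rfl⟩ := mem_image.1 hx
        exact (mem_product.1 (hX hy)).1)
      rw [← card_eq_sum_ones]
      refine (h2.trans h3).trans (card_le_card fun v hv => ?_)
      obtain ⟨h4, h5⟩ := mem_inter.1 hv
      obtain ⟨u, hu, h6⟩ := mem_nbr.1 h4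
      obtain ⟨y, hy, rfl⟩ := mem_image.1 hu
      exact mem_filter.2 ⟨h5, y, hy, h6⟩)
  refine ⟨f, fun z hz b => hf1 (z, b) (mem_product.2 ⟨hz, mem_univ _⟩),
    fun z hz b z' hz' b' h => ?_⟩
  have h1 := card_le_one.1 (hf2 (f (z', b'))) (z, b)
    (by simp only [mem_filter]; exact ⟨mem_product.2 ⟨hz, mem_univ _⟩, h⟩) (z', b')
    (by simp only [mem_filter, and_true]; exact mem_product.2 ⟨hz', mem_univ _⟩)
  exact ⟨congrArg Prod.fst h1, congrArg Prod.snd h1⟩

/-- The union of the cherries. -/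
def ch (G : SimpleGraph V) (Z : Finset V) (f : V × Bool → V) : SimpleGraph V where
  Adj u v := G.Adj u v ∧ ((u ∈ Z ∧ ∃ b, v = f (u, b)) ∨ (v ∈ Z ∧ ∃ b, u = f (v, b)))
  symm := ⟨fun _ _ h => ⟨h.1.symm, h.2.symm⟩⟩
  loopless := ⟨fun _ h => G.irrefl h.1⟩

end CloseAux

/-- Hall's theorem on `Z × Bool` gives an injection `f` into `T1` with `G.Adj z (f (z, b))`.  `pm`
matches `T` minus the image (it contains `W` and has even size).  `C` is the union of the edges
`z, f (z, b)` and the matching. -/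
theorem close {T T1 W Z : Finset V} (hT1 : T1 ⊆ T) (hW : W ⊆ T) (hd : Disjoint T1 W)
    (hZ : Disjoint Z T) (hR : RT G W 2) (hev : Even T.card)
    (hexp : ∀ D ⊆ Z, 2 * D.card ≤ (nbr G D ∩ T1).card) :
    ∃ C ≤ G, (∀ v, dg C v = dS Z T v) ∧ ∀ z ∈ Z, ∃ t ∈ T, C.Adj z t := by
  rcases isEmpty_or_nonempty V with hV | hV
  · exact ⟨⊥, bot_le, fun v => (IsEmpty.false v).elim, fun v _ => (IsEmpty.false v).elim⟩
  obtain ⟨f, hf, hi⟩ := CloseAux.cherries (G := G) hexp
  have hZT : ∀ z ∈ Z, z ∉ T := fun z hz => disjoint_left.1 hZ hz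
  set I : Finset V := (Z ×ˢ (univ : Finset Bool)).image f with hI
  have hmI : ∀ v, v ∈ I ↔ ∃ z ∈ Z, ∃ b, v = f (z, b) := by
    intro v
    rw [hI, mem_image]
    constructor
    · rintro ⟨⟨z, b⟩, h1, rfl⟩
      exact ⟨z, (mem_product.1 h1).1, b, rfl⟩
    · rintro ⟨z, hz, b, rfl⟩
      exact ⟨(z, b), mem_product.2 ⟨hz, mem_univ _⟩, rfl⟩
  have hIT1 : I ⊆ T1 := fun v hv => by
    obtain ⟨z, hz, b, rfl⟩ := (hmI v).1 hv
    exact (hf z hz b).1
  have hIc : I.card = Z.card * 2 := by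
    rw [hI, card_image_of_injOn, card_product, card_univ, Fintype.card_bool]
    rintro ⟨z, b⟩ h1 ⟨z', b'⟩ h2 h3
    obtain ⟨h4, h5⟩ := hi z (mem_product.1 (mem_coe.1 h1)).1 b z'
      (mem_product.1 (mem_coe.1 h2)).1 b' h3
    rw [h4, h5]
  have hA : Even (T \ I).card := by
    have h1 := card_sdiff_add_card_eq_card (hIT1.trans hT1)
    rw [← h1, Nat.even_add, hIc] at hev
    exact hev.2 (by simp)
  obtain ⟨J, hJ, hJd⟩ := pm (A := T \ I) hR
    (fun w hw => mem_sdiff.2 ⟨hW hw, fun h => disjoint_left.1 hd (hIT1 h) hw⟩) hA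
  have hJZ : ∀ z ∈ Z, ∀ w, ¬ J.Adj z w := fun z hz =>
    dg_eq_zero.1 (by rw [hJd, if_neg fun h => hZT z hz (mem_sdiff.1 h).1])
  have hdis : Disjoint (CloseAux.ch G Z f) J := disj_iff.2 fun u v h1 h2 => by
    rcases h1.2 with h3 | h3
    · exact hJZ u h3.1 v h2
    · exact hJZ v h3.1 u h2.symm
  refine ⟨CloseAux.ch G Z f ⊔ J, sup_le (fun u v h => h.1) hJ, fun v => ?_, fun z hz => ?_⟩
  · rw [dg_sup hdis, hJd]
    unfold dS
    by_cases hvT : v ∈ T
    · rw [if_pos hvT]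
      have hvZ : v ∉ Z := fun h => hZT v h hvT
      by_cases hvI : v ∈ I
      · rw [if_neg fun h => (mem_sdiff.1 h).2 hvI]
        obtain ⟨z, hz, b, rfl⟩ := (hmI v).1 hvI
        refine dg_eq_one (w := z) fun x => ⟨fun h => ?_, ?_⟩
        · rcases h.2 with h1 | ⟨h1, b', h2⟩
          · exact absurd h1.1 hvZ
          · exact (hi z hz b x h1 b' h2).1.symm
        · rintro rfl
          exact ⟨(hf x hz b).2.symm, Or.inr ⟨hz, b, rfl⟩⟩
      · rw [if_pos (mem_sdiff.2 ⟨hvT, hvI⟩), dg_eq_zero.2]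
        intro w h
        rcases h.2 with h1 | ⟨h1, b', h2⟩
        · exact hvZ h1.1
        · exact hvI ((hmI v).2 ⟨w, h1, b', h2⟩)
    · rw [if_neg hvT, if_neg fun h => hvT (mem_sdiff.1 h).1]
      have hne : ∀ w ∈ Z, ∀ b, v ≠ f (w, b) := fun w hw b h =>
        hvT (h ▸ hT1 (hf w hw b).1)
      by_cases hvZ : v ∈ Z
      · rw [if_pos hvZ]
        refine dg_eq_two (w := f (v, false)) (w' := f (v, true))
          (fun h => Bool.noConfusion (hi v hvZ false v hvZ true h).2) fun x => ⟨fun h => ?_, ?_⟩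
        · rcases h.2 with ⟨-, b, h2⟩ | ⟨h1, b, h2⟩
          · cases b
            · exact Or.inl h2
            · exact Or.inr h2
          · exact absurd h2 (hne x h1 b)
        · rintro (rfl | rfl)
          · exact ⟨(hf v hvZ false).2, Or.inl ⟨hvZ, false, rfl⟩⟩
          · exact ⟨(hf v hvZ true).2, Or.inl ⟨hvZ, true, rfl⟩⟩
      · rw [if_neg hvZ, dg_eq_zero.2]
        intro w h
        rcases h.2 with h1 | ⟨h1, b, h2⟩
        · exact hvZ h1.1
        · exact hne w h1 b h2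
  · exact ⟨f (z, false), hT1 (hf z hz false).1,
      Or.inl ⟨(hf z hz false).2, Or.inl ⟨hz, false, rfl⟩⟩⟩

end Pool.Agent.Lib.MP_f20cd2_co.HM
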