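import Pool.Agent.Lib.MP_f20cd2_co.HM.Merge
import Pool.Agent.Lib.MP_f20cd2_co.HM.Switch
import Pool.Agent.Lib.MP_f20cd2_co.HM.Close

/-!
Assembly of the Hamilton cycle from the switchers, the reservoirs and the absorbing set.
-/

set_option autoImplicit false
set_option linter.unusedSectionVars false

namespace Pool.Agent.Lib.MP_f20cd2_co.HM

open Finset
open Pool.Agent.Lib.MP_f20cd2_co.H83 (Conn Cells)
open Pool.Agent.Lib.MP_f20cd2_co.PL
open scoped Classical

variable {V : Type} [Fintype V] [DecidableEq V] {G : SimpleGraph V}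

theorem assemble (l : ℕ) (hn : Fintype.card V ≤ 2 ^ l) (Rs : ℕ → Finset V) (T T1 W L : Finset V)
    (hR : ∀ i ≤ l, RT G (Rs i) 2 ∧ 2 ≤ (Rs i).card)
    (hRd : ∀ i ≤ l, ∀ j ≤ l, i ≠ j → Disjoint (Rs i) (Rs j))
    (hTR : Disjoint T ((range (l + 1)).biUnion Rs)) (hLR : Disjoint L ((range (l + 1)).biUnion Rs))
    (hTL : Disjoint T L) (hT1 : T1 ⊆ T) (hW : W ⊆ T) (hd : Disjoint T1 W) (hWR : RT G W 2)
    (hev : Even T.card) (hT3 : 3 ≤ T.card)
    (hexp : ∀ D ⊆ (range (l + 1)).biUnion Rs, 2 * D.card ≤ (nbr G D ∩ T1).card)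
    (X : V → Finset V) (hX : ∀ t ∈ T, X t ⊆ insert t L ∧ Plug G t (X t))
    (hXd : ∀ t ∈ T, ∀ t' ∈ T, t ≠ t' → Disjoint (X t) (X t')) : G.IsHamiltonian := by
  have hex : ∀ t ∈ T, ∃ Y S P Q, Sw G Y S P Q ∧ NA S P Q ∧ t ∈ S ∧ Y ⊆ X t :=
    fun t ht => (hX t ht).2
  choose! Y S P Q hS hNA htS hYX using hex
  have hYd : ∀ t ∈ T, ∀ t' ∈ T, t ≠ t' → Disjoint (Y t) (Y t') := fun t ht t' ht' hne =>
    disjoint_of_subset_left (hYX t ht) (disjoint_of_subset_right (hYX t' ht') (hXd t ht t' ht' hne))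
  have hYL : ∀ t ∈ T, ∀ v ∈ Y t, v = t ∨ v ∈ L := fun t ht v hv =>
    mem_insert.1 ((hX t ht).1 (hYX t ht hv))
  obtain ⟨R, hRe⟩ : ∃ R, R = (range (l + 1)).biUnion Rs := ⟨_, rfl⟩
  rw [← hRe] at hTR hLR hexp
  obtain ⟨A, hA⟩ : ∃ A, A = univ \ R := ⟨_, rfl⟩
  have hmA : ∀ v, v ∈ A ↔ v ∉ R := fun v => by simp [hA]
  have hTA : T ⊆ A := fun v hv => (hmA v).2 (disjoint_left.1 hTR hv)
  have hYA : ∀ t ∈ T, ∀ v ∈ Y t, v ∈ A := fun t ht v hv => by
    rcases hYL t ht v hv with rfl | h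
    · exact hTA ht
    · exact (hmA v).2 (disjoint_left.1 hLR h)
  obtain ⟨K, hK⟩ : ∃ K, K = T.sup fun t => P t ⊔ Q t := ⟨_, rfl⟩
  have hKadj : ∀ u v, K.Adj u v ↔ ∃ t ∈ T, (P t ⊔ Q t).Adj u v := fun u v => by
    rw [hK]
    exact finsup_adj _ _ u v
  obtain ⟨cov, hcov⟩ : ∃ cov : V → ℕ, cov = fun v => ∑ t ∈ T, dS (Y t) (S t) v := ⟨_, rfl⟩
  have hz : ∀ t ∈ T, ∀ v, v ∉ Y t → dS (Y t) (S t) v = 0 := fun t ht v hv => by
    by_contra h
    exact hv (dS_pos (hS t ht).sub (Nat.pos_of_ne_zero h))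
  have c1 : ∀ t ∈ T, ∀ v ∈ Y t, cov v = dS (Y t) (S t) v := fun t ht v hv => by
    rw [hcov]
    exact sum_eq_single_of_mem t ht fun s hs hne =>
      hz s hs v fun h => disjoint_left.1 (hYd s hs t ht hne) h hv
  have c2 : ∀ v, (∀ t ∈ T, v ∉ Y t) → cov v = 0 := fun v hv => by
    rw [hcov]
    exact sum_eq_zero fun t ht => hz t ht v (hv t ht)
  have c3 : ∀ t ∈ T, ∀ v ∈ S t, cov v = 1 := fun t ht v hv => by
    rw [c1 t ht v ((hS t ht).sub hv), dS, if_pos hv]
  have c4 : ∀ t ∈ T, ∀ v ∈ Y t, v ∉ S t → cov v = 2 := fun t ht v hv hv' => by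
    rw [c1 t ht v hv, dS, if_neg hv', if_pos hv]
  have c5 : ∀ v, cov v ≤ 2 := fun v => by
    by_cases h : ∃ t ∈ T, v ∈ Y t
    · obtain ⟨t, ht, hv⟩ := h
      by_cases h2 : v ∈ S t
      · rw [c3 t ht v h2]
        omega
      · rw [c4 t ht v hv h2]
    · rw [c2 v fun t ht hv => h ⟨t, ht, hv⟩]
      omega
  obtain ⟨cap, hcap⟩ : ∃ cap : V → ℕ, cap = fun v => if v ∈ T then 0 else 2 - cov v := ⟨_, rfl⟩
  have p1 : ∀ v ∈ T, cap v = 0 := fun v hv => by simp only [hcap, if_pos hv]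
  have p2 : ∀ v, v ∉ T → cap v = 2 - cov v := fun v hv => by simp only [hcap, if_neg hv]
  have p3 : ∀ v, 0 < cap v → v ∉ T ∧ cov v < 2 := fun v hv => by
    by_cases h : v ∈ T
    · rw [p1 v h] at hv
      omega
    · rw [p2 v h] at hv
      exact ⟨h, by omega⟩
  have hKA : ∀ u v, K.Adj u v → u ∈ A := fun u v h =>
    let ⟨t, ht, h1⟩ := (hKadj u v).1 h
    hYA t ht u ((hS t ht).mem h1)
  obtain ⟨J, hJ, A', hAA, hA'R, hJK, hJd, hJc⟩ := merge (G := G) l Rs A K cap
    (fun i hi => ⟨(hR i hi).1, (hR i hi).2, disjoint_left.2 fun v hv h => (hmA v).1 hv (by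
      rw [hRe]
      exact mem_biUnion.2 ⟨i, mem_range.2 (by omega), h⟩)⟩) hRd
    ((card_le_univ A).trans hn) (hT3.trans (card_le_card hTA)) hKA
    (fun v => by
      by_cases h : v ∈ T
      · rw [p1 v h]
        omega
      · rw [p2 v h]
        omega)
    (fun v w hv h => by
      obtain ⟨t, ht, h1⟩ := (hKadj v w).1 h
      have h2 := (p3 v (by omega)).1
      rw [p2 v h2] at hv
      by_cases h3 : v ∈ S t
      · have := c3 t ht v h3
        omega
      · have := c4 t ht v ((hS t ht).mem h1) h3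
        omega)
    (fun v w hv hw h => by
      obtain ⟨t, ht, h1⟩ := (hKadj v w).1 h
      have h2 : ∀ x ∈ Y t, 0 < cap x → x ∈ S t := fun x hx hx' => by
        by_contra h3
        have h4 := c4 t ht x hx h3
        have h5 := (p3 x hx').2
        omega
      exact hNA t ht v (h2 v ((hS t ht).mem h1) hv) w (h2 w ((hS t ht).mem h1.symm) hw) h1)
    (fun v hv => by
      by_cases h : ∃ t ∈ T, v ∈ Y t
      · obtain ⟨t, ht, hvt⟩ := h
        have h1 : (S t).erase t ⊆ A.filter fun w => K.Reachable v w := fun w hw => by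
          have h2 := (hS t ht).sub (mem_of_mem_erase hw)
          refine mem_filter.2 ⟨hYA t ht w h2, ((hS t ht).conn hvt h2).mono ?_⟩
          rw [hK]
          exact le_sup (f := fun t => P t ⊔ Q t) ht
        refine le_trans ?_ (sum_le_sum_of_subset h1)
        have h3 : ∑ w ∈ (S t).erase t, cap w = ∑ w ∈ (S t).erase t, 1 :=
          sum_congr rfl fun w hw => by
            have h4 := mem_of_mem_erase hw
            have h5 : w ∈ L := (hYL t ht w ((hS t ht).sub h4)).resolve_left (ne_of_mem_erase hw)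
            rw [p2 w fun h6 => disjoint_left.1 hTL h6 h5, c3 t ht w h4]
        rw [h3, sum_const, card_erase_of_mem (htS t ht), (hS t ht).card]
        norm_num
      · have h1 : v ∉ T := fun h2 => h ⟨v, h2, (hS v h2).sub (htS v h2)⟩
        have h2 : cap v = 2 := by rw [p2 v h1, c2 v fun t ht hv => h ⟨t, ht, hv⟩]
        rw [← h2]
        exact single_le_sum (f := cap) (fun _ _ => Nat.zero_le _)
          (mem_filter.2 ⟨hv, SimpleGraph.Reachable.refl v⟩))
    (by
      have h1 : ∀ v, dg (T.sup P) v = cov v := fun v => by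
        rw [dg_finsup, hcov]
        · exact sum_congr rfl fun t ht => (hS t ht).dP v
        · exact fun s hs t ht hne => disj_iff.2 fun x y h2 h3 =>
            disjoint_left.1 (hYd s hs t ht hne) ((hS s hs).mem (Or.inl h2))
              ((hS t ht).mem (Or.inl h3))
      have h2 := even_sum_dg (H := T.sup P) A fun u _ w h => by
        obtain ⟨t, ht, h3⟩ := (finsup_adj _ _ u w).1 h
        exact hYA t ht w ((hS t ht).mem (Or.inl h3.symm))
      simp only [h1] at h2
      have h3 : ∑ v ∈ A, (cap v + cov v + if v ∈ T then 1 else 0) = ∑ v ∈ A, 2 :=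
        sum_congr rfl fun v _ => by
          by_cases h : v ∈ T
          · rw [p1 v h, c3 v h v (htS v h), if_pos h]
          · have := c5 v
            rw [p2 v h, if_neg h]
            omega
      rw [sum_add_distrib, sum_add_distrib, sum_const, smul_eq_mul, ← card_filter,
        filter_mem_eq_inter, inter_eq_right.2 hTA] at h3
      obtain ⟨a, ha⟩ := h2
      obtain ⟨b, hb⟩ := hev
      exact ⟨A.card - a - b, by omega⟩)
  rw [← hRe] at hA'R
  have hZ : ∀ v, v ∈ univ \ A' ↔ v ∉ A' := fun v => by simp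
  obtain ⟨C, hC, hCd, hCz⟩ := close (G := G) (Z := univ \ A') hT1 hW hd
    (disjoint_left.2 fun v hv h => (hZ v).1 hv (hAA (hTA h))) hWR hev
    fun D hD => hexp D fun v hv => by
      by_contra h
      exact (hZ v).1 (hD hv) (hAA ((hmA v).2 h))
  have hCm : ∀ u v, C.Adj u v → u ∈ A' → u ∈ T := fun u v h hu => by
    by_contra h1
    have h2 := dg_pos h
    rw [hCd, dS, if_neg h1, if_neg fun h3 => (hZ u).1 h3 hu] at h2
    omega
  have hJC : Disjoint J C := disj_iff.2 fun u v h1 h2 => by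
    have h3 := dg_pos h1
    rw [hJd] at h3
    by_cases h4 : u ∈ A
    · rw [if_pos h4] at h3
      exact (p3 u h3).1 (hCm u v h2 (hAA h4))
    · rw [if_neg h4] at h3
      by_cases h5 : u ∈ A'
      · exact h4 (hTA (hCm u v h2 h5))
      · rw [if_neg h5] at h3
        omega
  have hCK : Disjoint C K := disj_iff.2 fun u v h1 h2 => by
    obtain ⟨t, ht, h3⟩ := (hKadj u v).1 h2
    have h4 : ∀ x ∈ Y t, x ∈ T → x = t := fun x hx hx' =>
      (hYL t ht x hx).resolve_right (disjoint_left.1 hTL hx')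
    exact h1.ne ((h4 u ((hS t ht).mem h3) (hCm u v h1 (hAA (hKA u v h2)))).trans
      (h4 v ((hS t ht).mem h3.symm) (hCm v u h1.symm (hAA (hKA v u h2.symm)))).symm)
  obtain ⟨F, hF, hF2, hFc⟩ := switch (G := G) T Y S P Q hS hYd (J ⊔ C) (sup_le hJ hC)
    (by
      rw [← hK]
      exact disjoint_sup_left.2 ⟨hJK, hCK⟩)
    (fun v => by
      have e : ∑ t ∈ T, dS (Y t) (S t) v = cov v := by rw [hcov]
      rw [e, dg_sup hJC, hJd, hCd, dS]
      by_cases h1 : v ∈ T
      · rw [if_pos (hTA h1), if_pos h1, p1 v h1, c3 v h1 v (htS v h1)]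
      · rw [if_neg h1]
        by_cases h2 : v ∈ A
        · have := c5 v
          rw [if_pos h2, p2 v h1, if_neg fun h3 => (hZ v).1 h3 (hAA h2)]
          omega
        · rw [if_neg h2, c2 v fun t ht hv => h2 (hYA t ht v hv)]
          by_cases h3 : v ∈ A'
          · rw [if_pos h3, if_neg fun h4 => (hZ v).1 h4 h3]
          · rw [if_neg h3, if_pos ((hZ v).2 h3)])
    (fun u v => by
      rw [← hK]
      have h1 : ∀ x, ∃ y ∈ A', (J ⊔ C ⊔ K).Reachable x y := fun x => by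
        by_cases h : x ∈ A'
        · exact ⟨x, h, SimpleGraph.Reachable.refl x⟩
        · obtain ⟨t, ht, h2⟩ := hCz x ((hZ x).2 h)
          exact ⟨t, hAA (hTA ht), h2.reachable.mono (le_sup_right.trans le_sup_left)⟩
      obtain ⟨x, hx, h2⟩ := h1 u
      obtain ⟨y, hy, h3⟩ := h1 v
      exact (h2.trans ((hJc x hx y hy).mono
        (sup_le le_sup_right (le_sup_left.trans le_sup_left)))).trans h3.symm)
  obtain ⟨t, -⟩ := card_pos.1 (show 0 < T.card by omega)
  have : Nonempty V := ⟨t⟩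
  exact ham_of_two hF hF2 hFc

end Pool.Agent.Lib.MP_f20cd2_co.HM
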