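import Pool.Agent.Lib.MP_f20cd2_co.HM.Defs

/-!
A switcher from a short even cycle and rungs.
-/

set_option autoImplicit false
set_option linter.unusedSectionVars false

namespace Pool.Agent.Lib.MP_f20cd2_co.HM

open Finset
open Pool.Agent.Lib.MP_f20cd2_co.H83 (Conn Cells)
open Pool.Agent.Lib.MP_f20cd2_co.PL
open scoped Classical

variable {V : Type} [Fintype V] [DecidableEq V] {G : SimpleGraph V}

namespace CoreAux

lemma two {J1 J2 : SimpleGraph V} {u1 v1 u2 v2 : V} {W1 W2 Y S : Finset V}
    (h1 : PathG G J1 u1 v1 W1) (h2 : PathG G J2 u2 v2 W2) (hW : ∀ x ∈ W1, x ∉ W2)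
    (n1 : u1 ≠ v1) (n2 : u2 ≠ v2) (hY : ∀ x, x ∈ Y ↔ x ∈ W1 ∨ x ∈ W2)
    (hS : ∀ x, x ∈ S ↔ x = u1 ∨ x = v1 ∨ x = u2 ∨ x = v2) :
    J1 ⊔ J2 ≤ G ∧ (∀ v, dg (J1 ⊔ J2) v = dS Y S v) ∧
      (∀ v ∈ Y, ∃ a ∈ S, (J1 ⊔ J2).Reachable v a) ∧ (J1 ⊔ J2).Reachable u1 v1 ∧
      (J1 ⊔ J2).Reachable u2 v2 := by
  have hd : Disjoint J1 J2 := disj_iff.2 fun x y a1 a2 => hW x (h1.mem a1) (h2.mem a2)
  refine ⟨sup_le h1.le h2.le, fun x => ?_, fun x hx => ?_,
    (h1.reach _ h1.right).mono le_sup_left, (h2.reach _ h2.right).mono le_sup_right⟩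
  · rw [dg_sup hd]
    have e1 := h1.deg x
    have e2 := h2.deg x
    unfold dS
    by_cases m1 : x ∈ W1
    · have m2 := hW x m1
      have a1 : x ≠ u2 := fun e => m2 (e ▸ h2.left)
      have a2 : x ≠ v2 := fun e => m2 (e ▸ h2.right)
      rw [if_pos m1] at e1
      rw [if_neg m2] at e2
      rw [if_pos ((hY x).2 (Or.inl m1))]
      by_cases b1 : x = u1
      · rw [if_pos b1, if_neg fun e => n1 (b1.symm.trans e)] at e1
        rw [if_pos ((hS x).2 (Or.inl b1))]
        omega
      · by_cases b2 : x = v1
        · rw [if_neg b1, if_pos b2] at e1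
          rw [if_pos ((hS x).2 (Or.inr (Or.inl b2)))]
          omega
        · rw [if_neg b1, if_neg b2] at e1
          rw [if_neg fun e => by rcases (hS x).1 e with e | e | e | e <;> contradiction]
          omega
    · have a1 : x ≠ u1 := fun e => m1 (e ▸ h1.left)
      have a2 : x ≠ v1 := fun e => m1 (e ▸ h1.right)
      rw [if_neg m1] at e1
      by_cases m2 : x ∈ W2
      · rw [if_pos m2] at e2
        rw [if_pos ((hY x).2 (Or.inr m2))]
        by_cases b1 : x = u2
        · rw [if_pos b1, if_neg fun e => n2 (b1.symm.trans e)] at e2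
          rw [if_pos ((hS x).2 (Or.inr (Or.inr (Or.inl b1))))]
          omega
        · by_cases b2 : x = v2
          · rw [if_neg b1, if_pos b2] at e2
            rw [if_pos ((hS x).2 (Or.inr (Or.inr (Or.inr b2))))]
            omega
          · rw [if_neg b1, if_neg b2] at e2
            rw [if_neg fun e => by rcases (hS x).1 e with e | e | e | e <;> contradiction]
            omega
      · have a3 : x ≠ u2 := fun e => m2 (e ▸ h2.left)
        have a4 : x ≠ v2 := fun e => m2 (e ▸ h2.right)
        rw [if_neg m2] at e2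
        rw [if_neg fun e => by rcases (hS x).1 e with e | e | e | e <;> contradiction,
          if_neg fun e => ((hY x).1 e).elim m1 m2]
        omega
  · rcases (hY x).1 hx with m | m
    · exact ⟨u1, (hS _).2 (Or.inl rfl), ((h1.reach x m).mono le_sup_left).symm⟩
    · exact ⟨u2, (hS _).2 (Or.inr (Or.inr (Or.inl rfl))),
        ((h2.reach x m).mono le_sup_right).symm⟩

lemma all4 {K : SimpleGraph V} {a e c d : V} (h1 : K.Reachable a e) (h2 : K.Reachable a c)
    (h3 : K.Reachable a d) :
    ∀ x ∈ ({a, e, c, d} : Finset V), ∀ y ∈ ({a, e, c, d} : Finset V), K.Reachable x y := by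
  have h : ∀ x ∈ ({a, e, c, d} : Finset V), K.Reachable a x := fun x hx => by
    simp only [mem_insert, mem_singleton] at hx
    rcases hx with rfl | rfl | rfl | rfl
    · rfl
    · exact h1
    · exact h2
    · exact h3
  exact fun x hx y hy => (h x hx).symm.trans (h y hy)

lemma finish {JP JQ : SimpleGraph V} {a c d e g : V} {W : Finset V}
    (hP : PathG G JP a e (insert a W)) (hQ : PathG G JQ e g W) (ha : a ∉ W) (hc : c ∉ W)
    (hd : d ∉ W) (hca : G.Adj c a) (hcd : G.Adj c d) (had : a ≠ d) (hgd : G.Adj g d) :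
    ∃ S P Q, Sw G (insert a (insert c (insert d W))) S P Q := by
  have he := hQ.left
  have hg := hQ.right
  have n1 : a ≠ e := fun h => ha (h ▸ he)
  have n2 : e ≠ d := fun h => hd (h ▸ he)
  have n3 : e ≠ c := fun h => hc (h ▸ he)
  have n4 := hca.ne
  have n5 := hcd.ne
  have hQ' := hQ.trans (PathG.edge hgd) fun x hx hx' => by
    rcases mem_insert.1 hx' with h | h
    · exact h
    · exact absurd (mem_singleton.1 h ▸ hx) hd
  obtain ⟨p1, p2, p3, p4, p5⟩ := two (Y := insert a (insert c (insert d W))) (S := {a, e, c, d})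
    hP (PathG.edge hcd) (fun x hx hx' => by
      simp only [mem_insert, mem_singleton] at hx hx'
      rcases hx' with rfl | rfl
      · exact hx.elim n4 hc
      · exact hx.elim had.symm hd) n1 n5
    (fun x => by simp only [mem_insert, mem_singleton]; tauto)
    (fun x => by simp only [mem_insert, mem_singleton])
  obtain ⟨q1, q2, q3, q4, q5⟩ := two (Y := insert a (insert c (insert d W))) (S := {a, e, c, d})
    hQ' (PathG.edge hca) (fun x hx hx' => by
      simp only [mem_insert, mem_singleton, mem_union] at hx hx'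
      rcases hx' with rfl | rfl
      · rcases hx with h | h | h
        · exact hc h
        · exact hc (h ▸ hg)
        · exact n5 h
      · rcases hx with h | h | h
        · exact ha h
        · exact ha (h ▸ hg)
        · exact had h) n2 n4
    (fun x => by
      simp only [mem_insert, mem_singleton, mem_union]
      constructor
      · tauto
      · rintro ((h | h | h) | h | h)
        · tauto
        · exact Or.inr (Or.inr (Or.inr (h ▸ hg)))
        · tauto
        · tauto
        · tauto)
    (fun x => by simp only [mem_insert, mem_singleton]; tauto)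
  refine ⟨{a, e, c, d}, _, _, p1, q1, fun x hx => ?_, ?_, p2, q2, p3, q3, fun K hK => ?_⟩
  · simp only [mem_insert, mem_singleton] at hx ⊢
    rcases hx with rfl | rfl | rfl | rfl
    · tauto
    · tauto
    · tauto
    · tauto
  · rw [card_insert_of_notMem (by simp [n1, n4.symm, had]),
      card_insert_of_notMem (by simp [n2, n3]), card_pair n5]
  · obtain ⟨b, hb, hba, hr⟩ := hK a (by simp)
    simp only [mem_insert, mem_singleton] at hb
    rcases hb with rfl | rfl | rfl | rfl
    · exact absurd rfl hba
    · have r1 := hr.mono (le_sup_left (b := JQ ⊔ SimpleGraph.edge g d ⊔ SimpleGraph.edge c a))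
      exact Or.inr (all4 r1 (q5.mono le_sup_right).symm (r1.trans (q4.mono le_sup_right)))
    · have r1 := hr.mono (le_sup_left (b := JP ⊔ SimpleGraph.edge b d))
      exact Or.inl (all4 (p4.mono le_sup_right) r1 (r1.trans (p5.mono le_sup_right)))
    · have r1 := hr.mono (le_sup_left (b := JP ⊔ SimpleGraph.edge c b))
      exact Or.inl (all4 (p4.mono le_sup_right) (r1.trans (p5.mono le_sup_right).symm) r1)

lemma ladder {H : Finset V} {s r : ℕ} (hL : Lk G H s r) (hs : (r + 2) ^ 2 ≤ s) {a c d : V}
    (haH : a ∈ H) (hcH : c ∈ H) (hca : G.Adj c a) (hcd : G.Adj c d) (had : a ≠ d) (m : ℕ) :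
    ∀ {JP JQ : SimpleGraph V} {e g : V} {W : Finset V} (q : G.Walk g d),
      PathG G JP a e (insert a W) → PathG G JQ e g W → a ∉ W → c ∉ W → W ⊆ H → q.IsPath →
      q.length = 2 * m + 1 → (∀ x ∈ q.support, x ∈ H ∧ x ≠ a ∧ x ≠ c ∧ (x ∈ W → x = g)) →
      W.card + m * (r + 3) + 4 ≤ (r + 2) ^ 2 →
      ∃ Y S P Q, Sw G Y S P Q ∧ Y ⊆ H ∧ Y.card ≤ (r + 2) ^ 2 := by
  induction m with
  | zero =>
    intro JP JQ e g W q hP hQ ha hc hW hq hl hx hn
    have hgd : G.Adj g d := SimpleGraph.Walk.adj_of_length_eq_one hl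
    have h1 := hx d q.end_mem_support
    obtain ⟨S, P, Q, h⟩ := finish hP hQ ha hc (fun h => hgd.ne (h1.2.2.2 h).symm) hca hcd had hgd
    refine ⟨_, S, P, Q, h, insert_subset haH (insert_subset hcH (insert_subset h1.1 hW)), ?_⟩
    have c1 := card_insert_le a (insert c (insert d W))
    have c2 := card_insert_le c (insert d W)
    have c3 := card_insert_le d W
    omega
  | succ m ih =>
    intro JP JQ e g W q hP hQ ha hc hW hq hl hx hn
    cases q with
    | nil => simp at hl
    | @cons _ x _ hgx q1 =>
    cases q1 with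
    | nil => simp at hl
    | @cons _ y _ hxy q2 =>
    simp only [SimpleGraph.Walk.cons_isPath_iff, SimpleGraph.Walk.support_cons, List.mem_cons,
      not_or] at hq hx
    simp only [SimpleGraph.Walk.length_cons] at hl
    obtain ⟨⟨hq2, hxq⟩, hgx', hgq⟩ := hq
    have hy := q2.start_mem_support
    have he := hQ.left
    have hxx := hx x (Or.inr (Or.inl rfl))
    have hyy := hx y (Or.inr (Or.inr hy))
    have hxW : x ∉ W := fun h => hgx' (hxx.2.2.2 h).symm
    have hq2W : ∀ z ∈ q2.support, z ∉ W := fun z hz h =>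
      hgq ((hx z (Or.inr (Or.inr hz))).2.2.2 h ▸ hz)
    have hc2 : q2.support.toFinset.card ≤ 2 * m + 2 := by
      have := List.toFinset_card_le q2.support
      rw [SimpleGraph.Walk.length_support] at this
      omega
    have hZ : (((insert a (insert c (insert x W)) ∪ q2.support.toFinset).erase e).erase y).card
        ≤ s := by
      have c0 := card_erase_le (s := (insert a (insert c (insert x W)) ∪
        q2.support.toFinset).erase e) (a := y)
      have c1 := card_erase_le (s := insert a (insert c (insert x W)) ∪ q2.support.toFinset)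
        (a := e)
      have c2 := card_union_le (insert a (insert c (insert x W))) q2.support.toFinset
      have c3 := card_insert_le a (insert c (insert x W))
      have c4 := card_insert_le c (insert x W)
      have c5 := card_insert_le x W
      have c6 : (m + 1) * 3 ≤ (m + 1) * (r + 3) := Nat.mul_le_mul_left _ (by omega)
      omega
    obtain ⟨ρ, r1, r2, r3⟩ := hL e (hW he) y hyy.1 _ hZ
      (fun h => (mem_erase.1 (mem_of_mem_erase h)).1 rfl) (notMem_erase _ _)
    obtain ⟨R, hR⟩ := PathG.of_walk ρ r1
    have hcR : ρ.support.toFinset.card ≤ r + 1 := by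
      have := List.toFinset_card_le ρ.support
      rw [SimpleGraph.Walk.length_support] at this
      omega
    have key : ∀ z ∈ ρ.support.toFinset,
        (z = a ∨ z = c ∨ z = x ∨ z ∈ W ∨ z ∈ q2.support) → z = e ∨ z = y := by
      intro z hz h
      by_contra hn
      rw [not_or] at hn
      refine (r3 z (List.mem_toFinset.1 hz)).2 (mem_erase.2 ⟨hn.2, mem_erase.2 ⟨hn.1, ?_⟩⟩)
      simp only [mem_union, mem_insert, List.mem_toFinset]
      tauto
    have hyW := hq2W y hy
    have haR : a ∉ ρ.support.toFinset := fun h => (key a h (Or.inl rfl)).elim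
      (fun h => ha (h ▸ he)) fun h => hyy.2.1 h.symm
    have hcR' : c ∉ ρ.support.toFinset := fun h => (key c h (Or.inr (Or.inl rfl))).elim
      (fun h => hc (h ▸ he)) fun h => hyy.2.2.1 h.symm
    have hxR : x ∉ ρ.support.toFinset := fun h => (key x h (Or.inr (Or.inr (Or.inl rfl)))).elim
      (fun h => hxW (h ▸ he)) hxy.ne
    have hWR : ∀ z ∈ W, z ∈ ρ.support.toFinset → z = e := fun z hz h =>
      (key z h (Or.inr (Or.inr (Or.inr (Or.inl hz))))).resolve_right fun h => hyW (h ▸ hz)
    have hP1 := hP.trans hR fun z hz h => by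
      rcases mem_insert.1 hz with rfl | hz
      · exact absurd h haR
      · exact hWR z hz h
    have hP2 := hP1.trans (PathG.edge hxy.symm) fun z hz h => by
      rcases mem_insert.1 h with h | h
      · exact h
      · rw [mem_singleton.1 h] at hz
        simp only [mem_union, mem_insert] at hz
        rcases hz with (hz | hz) | hz
        · exact absurd hz hxx.2.1
        · exact absurd hz hxW
        · exact absurd hz hxR
    have hQ1 := (PathG.edge hgx.symm).trans hQ.symm fun z hz h => by
      rcases mem_insert.1 hz with rfl | hz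
      · exact absurd h hxW
      · exact mem_singleton.1 hz
    have hQ2 := hQ1.trans hR fun z hz h => by
      simp only [mem_union, mem_insert, mem_singleton] at hz
      rcases hz with (rfl | rfl) | hz
      · exact absurd h hxR
      · exact hWR _ hQ.right h
      · exact hWR z hz h
    have e1 : insert a W ∪ ρ.support.toFinset ∪ {y, x} =
        insert a (insert x (W ∪ ρ.support.toFinset)) := by
      have := hR.right
      ext z
      simp only [mem_union, mem_insert, mem_singleton]
      constructor
      · rintro (h | h | h)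
        · tauto
        · exact Or.inr (Or.inr (Or.inr (h ▸ this)))
        · tauto
      · tauto
    have e2 : {x, g} ∪ W ∪ ρ.support.toFinset = insert x (W ∪ ρ.support.toFinset) := by
      have := hQ.right
      ext z
      simp only [mem_union, mem_insert, mem_singleton]
      constructor
      · rintro (((h | h) | h) | h)
        · tauto
        · exact Or.inr (Or.inl (h ▸ this))
        · tauto
        · tauto
      · tauto
    rw [e1] at hP2
    rw [e2] at hQ2
    refine ih q2 hP2 hQ2 ?_ ?_ ?_ hq2 (by omega) (fun z hz => ?_) ?_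
    · simp only [mem_insert, mem_union, not_or]
      exact ⟨hxx.2.1.symm, ha, haR⟩
    · simp only [mem_insert, mem_union, not_or]
      exact ⟨hxx.2.2.1.symm, hc, hcR'⟩
    · exact insert_subset hxx.1 (union_subset hW fun z hz => (r3 z (List.mem_toFinset.1 hz)).1)
    · have h1 := hx z (Or.inr (Or.inr hz))
      refine ⟨h1.1, h1.2.1, h1.2.2.1, fun h => ?_⟩
      simp only [mem_insert, mem_union] at h
      rcases h with h | h | h
      · exact absurd (h ▸ hz) hxq
      · exact absurd h (hq2W z hz)
      · exact (key z h (Or.inr (Or.inr (Or.inr (Or.inr hz))))).resolve_left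
          fun h => hq2W z hz (h ▸ he)
    · have c1 := card_insert_le x (W ∪ ρ.support.toFinset)
      have c2 := card_union_le W ρ.support.toFinset
      have c3 : (m + 1) * (r + 3) = m * (r + 3) + (r + 3) := by ring
      omega

lemma par (κ : V → Bool) (hκ : ∀ u v, G.Adj u v → κ u ≠ κ v) {u v : V} (p : G.Walk u v) :
    κ u = κ v ↔ Even p.length := by
  induction p with
  | nil => simp
  | @cons a b c h q ih =>
    rw [SimpleGraph.Walk.length_cons, Nat.even_add_one, ← ih]
    have := hκ a b h
    revert this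
    cases κ a <;> cases κ b <;> cases κ c <;> simp

end CoreAux

/-- Take `c ∈ H` with two neighbours `a ≠ d` in `H` and a path from `a` to `d` avoiding `c`
(`hL`).  As `κ a = κ d` its length is even and positive: it is `a, g, ...` and the rest `q` from
`g` to `d` has odd length `2 m + 1`.  Induct on `m` with the invariant: `PathG G JP a e (insert a W)`,
`PathG G JQ e g W`, `a ∉ W`, `c ∉ insert a W`, `W ⊆ H`, the tail of `q` avoids `W`, `a`, `c`
(start `e = g`, `W = {g}`, `PathG.edge`, `PathG.nil`).  Step `q = g, x, y, ...`: take a rung from `e`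
to `y` avoiding all other vertices of `W`, `q`, `a`, `c` (`hL`, `PathG.of_walk`); the new `JP` is
`JP`, rung, edge `y x`; the new `JQ` is edge `x g`, `JQ` reversed, rung; new `e = x`, `g = y`
(`PathG.trans`, `PathG.symm`).  End `q = g, d`: `P = JP ⊔ edge c d`,
`Q = (JQ ⊔ edge g d) ⊔ edge c a`, ports `a, e, c, d`.  `P` joins `a, e` and `c, d`; `Q` joins `a, c`
and `e, d`.  For `key`: if `H` joins `a` or `e` to `c` or `d` use `P`; otherwise `H` joins `a, e`
and then `Q` works. -/
theorem core (κ : V → Bool) (hκ : ∀ u v, G.Adj u v → κ u ≠ κ v) (H : Finset V) (s r : ℕ)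
    (hne : H.Nonempty) (hL : Lk G H s r) (hd : ∀ v ∈ H, 2 ≤ dgi G H v) (hs : (r + 2) ^ 2 ≤ s) :
    ∃ Y S P Q, Sw G Y S P Q ∧ Y ⊆ H ∧ Y.card ≤ (r + 2) ^ 2 := by
  obtain ⟨c, hc⟩ := hne
  obtain ⟨a, ha, d, hd', had⟩ := one_lt_card.1 (hd c hc)
  obtain ⟨haH, hca⟩ := mem_filter.1 ha
  obtain ⟨hdH, hcd⟩ := mem_filter.1 hd'
  obtain ⟨p, p1, p2, p3⟩ := hL a haH d hdH {c}
    (by rw [card_singleton]; exact le_trans (Nat.one_le_pow _ _ (by omega)) hs)
    (fun h => hca.ne (mem_singleton.1 h).symm) fun h => hcd.ne (mem_singleton.1 h).symm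
  have hk : κ a = κ d := by
    have h1 := hκ c a hca
    have h2 := hκ c d hcd
    revert h1 h2
    cases κ a <;> cases κ c <;> cases κ d <;> simp
  have hev := (CoreAux.par κ hκ p).1 hk
  cases p with
  | nil => exact absurd rfl had
  | @cons _ g _ hag q =>
  rw [SimpleGraph.Walk.cons_isPath_iff] at p1
  rw [SimpleGraph.Walk.length_cons] at p2 hev
  obtain ⟨m, hm⟩ : Odd q.length := Nat.not_even_iff_odd.1 (Nat.even_add_one.1 hev)
  have hq : ∀ x ∈ q.support, x ∈ H ∧ x ≠ c := fun x hx =>
    ⟨(p3 x (by simp [hx])).1, fun h => (p3 x (by simp [hx])).2 (mem_singleton.2 h)⟩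
  have hg := hq g q.start_mem_support
  refine CoreAux.ladder hL hs haH hc hca hcd had m q (PathG.edge hag) (PathG.nil g)
    (fun h => hag.ne (mem_singleton.1 h)) (fun h => hg.2 (mem_singleton.1 h).symm)
    (singleton_subset_iff.2 hg.1) p1.1 hm (fun x hx => ⟨(hq x hx).1, fun h => p1.2 (h ▸ hx),
      (hq x hx).2, mem_singleton.1⟩) ?_
  rw [card_singleton]
  have h1 : 2 * m + 2 ≤ r := by omega
  nlinarith

end Pool.Agent.Lib.MP_f20cd2_co.HM
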