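import Pool.Agent.Lib.MP_f20cd2_co.HM.Defs

/-!
A bipartite half and an expanding subset.
-/

set_option autoImplicit false
set_option linter.unusedSectionVars false

namespace Pool.Agent.Lib.MP_f20cd2_co.HM

open Finset
open Pool.Agent.Lib.MP_f20cd2_co.H83 (Conn Cells)
open Pool.Agent.Lib.MP_f20cd2_co.PL
open scoped Classical

variable {V : Type} [Fintype V] [DecidableEq V] {G : SimpleGraph V}

/-- The edges whose ends have different colours. -/
def cut (G : SimpleGraph V) (κ : V → Bool) : SimpleGraph V where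
  Adj u v := G.Adj u v ∧ κ u ≠ κ v
  symm := ⟨fun _ _ h => ⟨h.1.symm, h.2.symm⟩⟩
  loopless := ⟨fun _ h => h.2 rfl⟩

namespace ExpAAux

lemma dgi_eq (G : SimpleGraph V) (U : Finset V) (v : V) :
    dgi G U v = ∑ w ∈ U, if G.Adj v w then 1 else 0 := card_filter _ _

lemma sum_insert_dgi (G : SimpleGraph V) {U : Finset V} {v : V} (hv : v ∉ U) :
    ∑ w ∈ insert v U, dgi G (insert v U) w = ∑ w ∈ U, dgi G U w + 2 * dgi G U v := by
  simp only [dgi_eq, sum_insert hv, sum_add_distrib, G.irrefl, if_false, G.adj_comm _ v]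
  omega

lemma dgi_erase (G : SimpleGraph V) (U : Finset V) (v : V) : dgi G (U.erase v) v = dgi G U v := by
  unfold dgi
  congr 1
  ext w
  simp only [mem_filter, mem_erase]
  exact ⟨fun h => ⟨h.1.2, h.2⟩, fun h => ⟨⟨h.2.ne', h.1⟩, h.2⟩⟩

lemma sum_erase_dgi (G : SimpleGraph V) {U : Finset V} {v : V} (hv : v ∈ U) :
    ∑ w ∈ U, dgi G U w = ∑ w ∈ U.erase v, dgi G (U.erase v) w + 2 * dgi G U v := by
  rw [← dgi_erase G U v, ← sum_insert_dgi G (notMem_erase v U), insert_erase hv]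

lemma sum_dgi_eq (G : SimpleGraph V) (U : Finset V) :
    ∑ w ∈ U, dgi G U w = ((U ×ˢ U).filter fun p => G.Adj p.1 p.2).card := by
  simp only [dgi_eq, card_filter, sum_product]

lemma sum_split (G : SimpleGraph V) {H X : Finset V} :
    ∑ w ∈ H, dgi G H w ≤ ∑ w ∈ X ∪ (nbr G X ∩ H), dgi G (X ∪ (nbr G X ∩ H)) w +
      ∑ w ∈ H \ X, dgi G (H \ X) w := by
  simp only [sum_dgi_eq]
  refine le_trans (card_le_card fun p hp => ?_) (card_union_le _ _)
  simp only [mem_filter, mem_product, mem_union, mem_inter, mem_sdiff, mem_nbr] at hp ⊢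
  obtain ⟨⟨h1, h2⟩, h3⟩ := hp
  by_cases hx : p.1 ∈ X
  · exact Or.inl ⟨⟨Or.inl hx, Or.inr ⟨⟨_, hx, h3⟩, h2⟩⟩, h3⟩
  · by_cases hy : p.2 ∈ X
    · exact Or.inl ⟨⟨Or.inr ⟨⟨_, hy, h3.symm⟩, h1⟩, Or.inl hy⟩, h3⟩
    · exact Or.inr ⟨⟨⟨h1, hx⟩, h2, hy⟩, h3⟩

lemma cut_update (G : SimpleGraph V) (κ : V → Bool) {U : Finset V} {v : V} (hv : v ∉ U)
    (b : Bool) : ∑ w ∈ U, dgi (cut G (Function.update κ v b)) U w = ∑ w ∈ U, dgi (cut G κ) U w := by
  refine sum_congr rfl fun w hw => congrArg card (filter_congr fun x hx => ?_)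
  have h1 : w ≠ v := fun e => hv (e ▸ hw)
  have h2 : x ≠ v := fun e => hv (e ▸ hx)
  simp only [cut, Function.update_of_ne h1, Function.update_of_ne h2]

lemma cut_both (G : SimpleGraph V) (κ : V → Bool) {U : Finset V} {v : V} (hv : v ∉ U) :
    dgi (cut G (Function.update κ v true)) U v + dgi (cut G (Function.update κ v false)) U v =
      dgi G U v := by
  simp only [dgi_eq, ← sum_add_distrib]
  refine sum_congr rfl fun x hx => ?_
  have h2 : x ≠ v := fun e => hv (e ▸ hx)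
  simp only [cut, Function.update_self, Function.update_of_ne h2]
  by_cases h : G.Adj v x <;> cases κ x <;> simp [h]

lemma log_mono {a b : ℕ} (h : a ≤ b) : Real.log a ≤ Real.log b := by
  rcases Nat.eq_zero_or_pos a with rfl | ha
  · simpa using Real.log_natCast_nonneg b
  · exact Real.log_le_log (by exact_mod_cast ha) (by exact_mod_cast h)

lemma log_le {a l : ℕ} (h : a < 2 ^ l) : Real.log a ≤ l := by
  refine (log_mono h.le).trans ?_
  rw [Nat.cast_pow, Real.log_pow]
  have := Real.log_le_sub_one_of_pos (x := ((2 : ℕ) : ℝ)) (by norm_num)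
  have h0 : (0 : ℝ) ≤ l := Nat.cast_nonneg l
  norm_num at this ⊢
  nlinarith

lemma log_drop {a b : ℕ} (ha : 0 < a) (h : 4 * a ≤ 3 * b) : Real.log a ≤ Real.log b - 1 / 4 := by
  have ha' : (0 : ℝ) < a := by exact_mod_cast ha
  have hb : (0 : ℝ) < b := by exact_mod_cast (by omega : 0 < b)
  have h' : (4 : ℝ) * a ≤ 3 * b := by exact_mod_cast h
  have h1 := Real.log_le_sub_one_of_pos (div_pos ha' hb)
  rw [Real.log_div ha'.ne' hb.ne'] at h1
  have h2 : (a : ℝ) / b ≤ 3 / 4 := by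
    rw [div_le_iff₀ hb]
    linarith
  linarith

end ExpAAux

open ExpAAux

/-- Induct on `U`: adding `v` adds `2 * dgi G U v` to the sum; give `v` the colour opposite to the
majority of its neighbours in `U`. -/
theorem bip (G : SimpleGraph V) (U : Finset V) :
    ∃ κ : V → Bool, ∑ v ∈ U, dgi G U v ≤ 2 * ∑ v ∈ U, dgi (cut G κ) U v := by
  induction U using Finset.induction_on with
  | empty => exact ⟨fun _ => true, by simp⟩
  | insert v U hv ih =>
    obtain ⟨κ, hκ⟩ := ih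
    have h1 := cut_both G κ hv
    rcases le_total (dgi (cut G (Function.update κ v true)) U v)
      (dgi (cut G (Function.update κ v false)) U v) with h | h
    · refine ⟨Function.update κ v false, ?_⟩
      rw [sum_insert_dgi _ hv, sum_insert_dgi _ hv, cut_update _ _ hv]
      omega
    · refine ⟨Function.update κ v true, ?_⟩
      rw [sum_insert_dgi _ hv, sum_insert_dgi _ hv, cut_update _ _ hv]
      omega

/-- Put `E H = ∑ v ∈ H, dgi G H v` and `ψ m = l + Real.log m`, so `l ≤ ψ m ≤ 2 l` for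
`1 ≤ m < 2 ^ l`.  Take a non-empty `H ⊆ U` that maximises `f = E H / (|H| * ψ |H|)`; then
`d / (2 l) ≤ f` and `E H' ≤ f * |H'| * ψ |H'|` for every `H' ⊆ U`.  Degree: `E H = E (H.erase v) +
2 * dgi G H v`.  Expansion: with `N = X ∪ (nbr G X ∩ H)`, `E H ≤ E N + E (H \ X)` and
`ψ |N| ≤ ψ |H| - 1/4` (`Real.log_le_sub_one_of_pos` at `3/4`). -/
theorem extremal (l : ℕ) (hl : 1 ≤ l) (hn : Fintype.card V < 2 ^ l) (U : Finset V)
    (hU : U.Nonempty) (d : ℕ) (hd0 : 0 < d) (hd : d * U.card ≤ ∑ v ∈ U, dgi G U v) :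
    ∃ H ⊆ U, H.Nonempty ∧ (∀ v ∈ H, d ≤ 4 * dgi G H v) ∧
      ∀ X ⊆ H, 4 * (X ∪ (nbr G X ∩ H)).card ≤ 3 * H.card →
        X.card ≤ 8 * l * ((nbr G X ∩ H) \ X).card := by
  have hl' : (1 : ℝ) ≤ l := by exact_mod_cast hl
  let E : Finset V → ℝ := fun H => ((∑ v ∈ H, dgi G H v : ℕ) : ℝ)
  let ψ : Finset V → ℝ := fun H => l + Real.log H.card
  have hψ1 : ∀ H, (l : ℝ) ≤ ψ H := fun H => le_add_of_nonneg_right (Real.log_natCast_nonneg _)
  have hψ2 : ∀ H, ψ H ≤ 2 * l := fun H => by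
    have := log_le ((card_le_univ H).trans_lt hn)
    simp only [ψ]
    linarith
  have hψ3 : ∀ H H', H ⊆ H' → ψ H ≤ ψ H' := fun H H' h =>
    add_le_add_right (log_mono (card_le_card h)) _
  have hpos : ∀ H : Finset V, H.Nonempty → 0 < H.card * ψ H := fun H h =>
    mul_pos (by exact_mod_cast h.card_pos) (by linarith [hψ1 H])
  obtain ⟨H, hH, hmax⟩ := exists_max_image (U.powerset.filter Finset.Nonempty)
    (fun H => E H / (H.card * ψ H)) ⟨U, mem_filter.2 ⟨mem_powerset_self U, hU⟩⟩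
  obtain ⟨hHU, hne⟩ := mem_filter.1 hH
  rw [mem_powerset] at hHU
  obtain ⟨f, hf⟩ : ∃ f, f = E H / (H.card * ψ H) := ⟨_, rfl⟩
  have hE : E H = f * (H.card * ψ H) := by rw [hf, div_mul_cancel₀ _ (hpos H hne).ne']
  have hle : ∀ H' ⊆ U, E H' ≤ f * (H'.card * ψ H') := fun H' h => by
    rcases H'.eq_empty_or_nonempty with rfl | h'
    · simp [E]
    · rw [hf, ← div_le_iff₀ (hpos H' h')]
      exact hmax H' (mem_filter.2 ⟨mem_powerset.2 h, h'⟩)
  have hUc : (0 : ℝ) < U.card := by exact_mod_cast hU.card_pos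
  have hd1 : (d : ℝ) ≤ f * ψ U := by
    have h1 : (d : ℝ) * U.card ≤ E U := by
      simp only [E]
      exact_mod_cast hd
    exact le_of_mul_le_mul_right (by linarith [hle U Subset.rfl]) hUc
  have hd' : (0 : ℝ) < d := by exact_mod_cast hd0
  have hf0 : 0 < f := (pos_iff_pos_of_mul_pos (hd'.trans_le hd1)).2 (by linarith [hψ1 U])
  refine ⟨H, hHU, hne, fun v hv => ?_, fun X hX h34 => ?_⟩
  · have h1 : E H = E (H.erase v) + 2 * dgi G H v := by
      simp only [E, sum_erase_dgi G hv]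
      push_cast
      rfl
    have h2 := hle (H.erase v) ((erase_subset v H).trans hHU)
    have h3 : ((H.erase v).card : ℝ) + 1 = H.card := by exact_mod_cast card_erase_add_one hv
    have h4 : f * ((H.erase v).card * ψ (H.erase v)) ≤ f * ((H.erase v).card * ψ H) :=
      mul_le_mul_of_nonneg_left (mul_le_mul_of_nonneg_left (hψ3 _ _ (erase_subset v H))
        (Nat.cast_nonneg _)) hf0.le
    have h5 := mul_le_mul_of_nonneg_left (hψ1 H) hf0.le
    have h6 := mul_le_mul_of_nonneg_left (hψ2 U) hf0.le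
    rw [← h3] at hE
    have : (d : ℝ) ≤ 4 * dgi G H v := by nlinarith
    exact_mod_cast this
  · rcases X.eq_empty_or_nonempty with rfl | hXn
    · simp
    have hN : X ∪ (nbr G X ∩ H) ⊆ H := union_subset hX inter_subset_right
    have h1 : E H ≤ E (X ∪ (nbr G X ∩ H)) + E (H \ X) := by
      simp only [E]
      exact_mod_cast sum_split G
    have h2 := hle _ (hN.trans hHU)
    have h3 := hle (H \ X) (sdiff_subset.trans hHU)
    have h4 : ψ (X ∪ (nbr G X ∩ H)) ≤ ψ H - 1 / 4 := by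
      have := log_drop (hXn.mono subset_union_left).card_pos h34
      simp only [ψ]
      linarith
    have h5 : ((H \ X).card : ℝ) + X.card = H.card := by
      exact_mod_cast card_sdiff_add_card_eq_card hX
    have h6 : ((X ∪ (nbr G X ∩ H)).card : ℝ) = ((nbr G X ∩ H) \ X).card + X.card := by
      rw [union_comm]
      exact_mod_cast (card_sdiff_add_card _ _).symm
    have h7 := mul_le_mul_of_nonneg_left h4 (Nat.cast_nonneg (α := ℝ) (X ∪ (nbr G X ∩ H)).card)
    have h8 := mul_le_mul_of_nonneg_left (hψ3 _ _ (sdiff_subset (s := H) (t := X)))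
      (Nat.cast_nonneg (α := ℝ) (H \ X).card)
    have h9 : H.card * ψ H ≤ (X ∪ (nbr G X ∩ H)).card * (ψ H - 1 / 4) + (H \ X).card * ψ H :=
      le_of_mul_le_mul_left (by
        linarith [mul_le_mul_of_nonneg_left h7 hf0.le, mul_le_mul_of_nonneg_left h8 hf0.le]) hf0
    have h10 := mul_le_mul_of_nonneg_left (hψ2 H)
      (Nat.cast_nonneg (α := ℝ) ((nbr G X ∩ H) \ X).card)
    rw [h6, ← h5] at h9
    have h11 := Nat.cast_nonneg (α := ℝ) ((nbr G X ∩ H) \ X).card
    have : (X.card : ℝ) ≤ 8 * l * ((nbr G X ∩ H) \ X).card := by nlinarith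
    exact_mod_cast this

end Pool.Agent.Lib.MP_f20cd2_co.HM
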