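import Pool.Agent.Lib.MP_f20cd2_co.HM.Defs

/-!
Short paths in an expanding set.
-/

set_option autoImplicit false
set_option linter.unusedSectionVars false

namespace Pool.Agent.Lib.MP_f20cd2_co.HM

open Finset
open Pool.Agent.Lib.MP_f20cd2_co.H83 (Conn Cells)
open Pool.Agent.Lib.MP_f20cd2_co.PL
open scoped Classical

variable {V : Type} [Fintype V] [DecidableEq V] {G : SimpleGraph V}

namespace ExpBAux

/-- The ball of radius `i` around `u` inside `H` avoiding `Z`. -/
noncomputable def ball (G : SimpleGraph V) (H Z : Finset V) (u : V) : ℕ → Finset V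
  | 0 => {u}
  | i + 1 => (ball G H Z u i ∪ (nbr G (ball G H Z u i) ∩ H)) \ Z

variable {H Z : Finset V} {u : V}

lemma ball_walk (hu : u ∈ H) (hZ : u ∉ Z) (i : ℕ) : ∀ x ∈ ball G H Z u i,
    ∃ p : G.Walk u x, p.length ≤ i ∧ ∀ y ∈ p.support, y ∈ H ∧ y ∉ Z := by
  induction i with
  | zero =>
    intro x hx
    obtain rfl : x = u := mem_singleton.1 hx
    refine ⟨SimpleGraph.Walk.nil, le_rfl, fun y hy => ?_⟩
    obtain rfl : y = x := by simpa using hy
    exact ⟨hu, hZ⟩
  | succ i ih =>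
    intro x hx
    obtain ⟨hx1, hx2⟩ := mem_sdiff.1 hx
    rcases mem_union.1 hx1 with h | h
    · obtain ⟨p, h1, h2⟩ := ih x h
      exact ⟨p, h1.trans (Nat.le_succ i), h2⟩
    · obtain ⟨h3, h4⟩ := mem_inter.1 h
      obtain ⟨w, hw, hwx⟩ := mem_nbr.1 h3
      obtain ⟨p, h1, h2⟩ := ih w hw
      refine ⟨p.concat hwx, by rw [SimpleGraph.Walk.length_concat]; omega, fun y hy => ?_⟩
      rw [SimpleGraph.Walk.support_concat, List.mem_append, List.mem_singleton] at hy
      rcases hy with hy | rfl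
      · exact h2 y hy
      · exact ⟨h4, hx2⟩

lemma ball_mem (hu : u ∈ H) (hZ : u ∉ Z) (i : ℕ) {x : V} (hx : x ∈ ball G H Z u i) :
    x ∈ H ∧ x ∉ Z :=
  let ⟨p, _, h⟩ := ball_walk hu hZ i x hx
  h x p.end_mem_support

lemma ball_sub (hu : u ∈ H) (hZ : u ∉ Z) (i : ℕ) : ball G H Z u i ⊆ H :=
  fun _ hx => (ball_mem hu hZ i hx).1

lemma ball_succ (hu : u ∈ H) (hZ : u ∉ Z) (i : ℕ) :
    ball G H Z u i ⊆ ball G H Z u (i + 1) :=
  fun _ hx => mem_sdiff.2 ⟨mem_union_left _ hx, (ball_mem hu hZ i hx).2⟩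

lemma ball_mono (hu : u ∈ H) (hZ : u ∉ Z) : Monotone (ball G H Z u) :=
  monotone_nat_of_le_succ (ball_succ hu hZ)

lemma card_succ (i : ℕ) : (ball G H Z u i ∪ (nbr G (ball G H Z u i) ∩ H)).card ≤
    (ball G H Z u (i + 1)).card + Z.card :=
  card_le_card_sdiff_add_card

lemma card_one : dgi G H u ≤ (ball G H Z u 1).card + Z.card := by
  refine le_trans (card_le_card fun w hw => ?_) (card_succ 0)
  obtain ⟨h1, h2⟩ := mem_filter.1 hw
  exact mem_union_right _ (mem_inter.2 ⟨mem_nbr.2 ⟨u, mem_singleton_self u, h2⟩, h1⟩)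

lemma two_mul_pow_le (m : ℕ) (hm : 1 ≤ m) : 2 * m ^ m ≤ (m + 1) ^ m := by
  obtain ⟨k, rfl⟩ : ∃ k, m = k + 1 := ⟨m - 1, by omega⟩
  have h : ∀ a n : ℕ, a ^ (n + 1) + (n + 1) * a ^ n ≤ (a + 1) ^ (n + 1) := by
    intro a n
    induction n with
    | zero => simp
    | succ n ih =>
      calc a ^ (n + 1 + 1) + (n + 1 + 1) * a ^ (n + 1)
          ≤ (a ^ (n + 1) + (n + 1) * a ^ n) * (a + 1) := by
            have : (a ^ (n + 1) + (n + 1) * a ^ n) * (a + 1) =
              a ^ (n + 1 + 1) + (n + 1 + 1) * a ^ (n + 1) + (n + 1) * a ^ n := by ring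
            omega
        _ ≤ (a + 1) ^ (n + 1) * (a + 1) := Nat.mul_le_mul_right _ ih
        _ = (a + 1) ^ (n + 1 + 1) := by ring
  have h1 := h (k + 1) k
  have h2 : (k + 1) * (k + 1) ^ k = (k + 1) ^ (k + 1) := by ring
  omega

lemma ball_big (l s : ℕ) (hl : 1 ≤ l) (hn : Fintype.card V < 2 ^ l)
    (hdeg : ∀ v ∈ H, 17 * l * s ≤ dgi G H v)
    (hexp : ∀ X ⊆ H, 4 * (X ∪ (nbr G X ∩ H)).card ≤ 3 * H.card →
      X.card ≤ 8 * l * ((nbr G X ∩ H) \ X).card)
    (hu : u ∈ H) (hZ : u ∉ Z) (hs : Z.card ≤ s) :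
    H.card < 2 * (ball G H Z u (16 * l * l + 1)).card := by
  have hls : s ≤ l * s := Nat.le_mul_of_pos_left s hl
  have hd := hdeg u hu
  have hH : dgi G H u ≤ H.card := card_le_card (filter_subset _ _)
  have h1 : 16 * (l * s) ≤ (ball G H Z u 1).card := by
    have := card_one (G := G) (H := H) (Z := Z) (u := u)
    have h2 : 17 * l * s = 17 * (l * s) := by ring
    omega
  have h4 : 4 * s ≤ H.card := by
    have h2 : 17 * l * s = 17 * (l * s) := by ring
    omega
  have key : ∀ j, H.card < 2 * (ball G H Z u (j + 1)).card ∨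
      (16 * l + 1) ^ j ≤ (16 * l) ^ j * (ball G H Z u (j + 1)).card := by
    intro j
    induction j with
    | zero =>
      right
      rw [pow_zero, pow_zero, one_mul]
      exact card_pos.2 ⟨u, ball_succ hu hZ 0 (mem_singleton_self u)⟩
    | succ j ih =>
      have hm := card_le_card (ball_succ (G := G) hu hZ (j + 1))
      rcases ih with ih | ih
      · left
        omega
      · have hc := card_succ (G := G) (H := H) (Z := Z) (u := u) (j + 1)
        set X := ball G H Z u (j + 1) with hX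
        by_cases h3 : 4 * (X ∪ (nbr G X ∩ H)).card ≤ 3 * H.card
        · right
          have h5 := hexp X (ball_sub hu hZ _) h3
          have h6 : (X ∪ (nbr G X ∩ H)).card = X.card + ((nbr G X ∩ H) \ X).card := by
            rw [← union_sdiff_self_eq_union, card_union_of_disjoint disjoint_sdiff]
          have h7 : (ball G H Z u 1).card ≤ X.card :=
            card_le_card (ball_mono hu hZ (by omega : 1 ≤ j + 1))
          have h8 : (16 * l + 1) * X.card ≤ 16 * l * (ball G H Z u (j + 1 + 1)).card := by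
            have h9 : 16 * l * (X.card + ((nbr G X ∩ H) \ X).card) ≤
                16 * l * ((ball G H Z u (j + 1 + 1)).card + s) :=
              Nat.mul_le_mul_left _ (by omega)
            nlinarith
          calc (16 * l + 1) ^ (j + 1) = (16 * l + 1) ^ j * (16 * l + 1) := pow_succ _ _
            _ ≤ (16 * l) ^ j * X.card * (16 * l + 1) := Nat.mul_le_mul_right _ ih
            _ = (16 * l) ^ j * ((16 * l + 1) * X.card) := by ring
            _ ≤ (16 * l) ^ j * (16 * l * (ball G H Z u (j + 1 + 1)).card) :=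
              Nat.mul_le_mul_left _ h8
            _ = (16 * l) ^ (j + 1) * (ball G H Z u (j + 1 + 1)).card := by ring
        · left
          omega
  refine (key (16 * l * l)).resolve_right fun h => ?_
  have h2 := Nat.pow_le_pow_left (two_mul_pow_le (16 * l) (by omega)) l
  rw [mul_pow, ← pow_mul, ← pow_mul] at h2
  have h3 : (ball G H Z u (16 * l * l + 1)).card < 2 ^ l := (card_le_univ _).trans_lt hn
  have h5 : 0 < (16 * l) ^ (16 * l * l) := by positivity
  have h6 := Nat.mul_lt_mul_of_pos_left h3 h5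
  rw [mul_comm (2 ^ l)] at h2
  omega

end ExpBAux

/-- Balls `B 0 = {u}`, `B (i+1) = (B i ∪ (nbr G (B i) ∩ H)) \ Z`; a vertex of `B i` is the end of a
walk from `u` of length at most `i` inside `H` avoiding `Z`.  `16 l s ≤ |B 1|` and `4 s ≤ |H|`.
While `2 |B i| ≤ |H|`: either `4 |B i ∪ N| > 3 |H|` and then `2 |B (i+1)| > |H|`, or
`(16 l + 1) |B i| ≤ 16 l |B (i+1)|`.  As `(1 + 1/(16 l)) ^ (16 l) ≥ 2`, after `16 l ^ 2 + 1` steps the
ball has more than half of `H`.  Two such balls meet; join the walks and take `Walk.bypass`. -/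
theorem lk_of_exp (l s : ℕ) (hl : 1 ≤ l) (hn : Fintype.card V < 2 ^ l) (H : Finset V)
    (hdeg : ∀ v ∈ H, 17 * l * s ≤ dgi G H v)
    (hexp : ∀ X ⊆ H, 4 * (X ∪ (nbr G X ∩ H)).card ≤ 3 * H.card →
      X.card ≤ 8 * l * ((nbr G X ∩ H) \ X).card) : Lk G H s (40 * l ^ 2) := by
  intro u hu v hv Z hs huZ hvZ
  have h1 := ExpBAux.ball_big l s hl hn hdeg hexp hu huZ hs
  have h2 := ExpBAux.ball_big l s hl hn hdeg hexp hv hvZ hs
  have h3 : ¬ Disjoint (ExpBAux.ball G H Z u (16 * l * l + 1))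
      (ExpBAux.ball G H Z v (16 * l * l + 1)) := fun h => by
    have h4 := card_le_card (union_subset (ExpBAux.ball_sub (G := G) hu huZ (16 * l * l + 1))
      (ExpBAux.ball_sub (G := G) hv hvZ (16 * l * l + 1)))
    rw [card_union_of_disjoint h] at h4
    omega
  obtain ⟨x, hx1, hx2⟩ := not_disjoint_iff.1 h3
  obtain ⟨p, hp1, hp2⟩ := ExpBAux.ball_walk hu huZ _ x hx1
  obtain ⟨q, hq1, hq2⟩ := ExpBAux.ball_walk hv hvZ _ x hx2
  refine ⟨(p.append q.reverse).bypass, SimpleGraph.Walk.bypass_isPath _, ?_, fun y hy => ?_⟩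
  · refine (SimpleGraph.Walk.length_bypass_le_length _).trans ?_
    rw [SimpleGraph.Walk.length_append, SimpleGraph.Walk.length_reverse]
    nlinarith
  · have h4 := SimpleGraph.Walk.support_bypass_subset_support _ hy
    rw [SimpleGraph.Walk.mem_support_append_iff, SimpleGraph.Walk.support_reverse,
      List.mem_reverse] at h4
    exact h4.elim (hp2 y) (hq2 y)

end Pool.Agent.Lib.MP_f20cd2_co.HM
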