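import Pool.Agent.Lib.MP_f20cd2_co.HM.Defs

/-!
Moving a port along a path.
-/

set_option autoImplicit false
set_option linter.unusedSectionVars false

namespace Pool.Agent.Lib.MP_f20cd2_co.HM

open Finset
open Pool.Agent.Lib.MP_f20cd2_co.H83 (Conn Cells)
open Pool.Agent.Lib.MP_f20cd2_co.PL
open scoped Classical

variable {V : Type} [Fintype V] [DecidableEq V] {G : SimpleGraph V}

theorem Sw.mono {G' : SimpleGraph V} {Y S : Finset V} {P Q : SimpleGraph V} (h : Sw G Y S P Q)
    (hG : G ≤ G') : Sw G' Y S P Q :=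
  ⟨h.leP.trans hG, h.leQ.trans hG, h.sub, h.card, h.dP, h.dQ, h.rP, h.rQ, h.key⟩

theorem Plug.monoG {G' : SimpleGraph V} {x : V} {X : Finset V} (h : Plug G x X) (hG : G ≤ G') :
    Plug G' x X :=
  let ⟨Y, S, P, Q, h1, h2, h3, h4⟩ := h
  ⟨Y, S, P, Q, h1.mono hG, h2, h3, h4⟩

namespace ExtAux

lemma deg {Y S : Finset V} {P : SimpleGraph V} {x y : V} (hS : S ⊆ Y)
    (hP : ∀ v, dg P v = dS Y S v) (hx : x ∈ S) (hy : y ∉ Y) (v : V) :
    dg (P ⊔ SimpleGraph.edge x y) v = dS (insert y Y) (insert y (S.erase x)) v := by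
  have hne : x ≠ y := fun e => hy (e ▸ hS hx)
  have hd : Disjoint P (SimpleGraph.edge x y) := disj_iff.2 fun u w h1 h2 => by
    rw [SimpleGraph.edge_adj] at h2
    rcases h2.1 with ⟨rfl, rfl⟩ | ⟨rfl, rfl⟩
    · exact hy (dS_pos hS (hP _ ▸ dg_pos h1.symm))
    · exact hy (dS_pos hS (hP _ ▸ dg_pos h1))
  rw [dg_sup hd, hP, dg_edge hne]
  unfold dS
  by_cases h1 : v = x
  · subst h1
    simp [hx, hne, hS hx]
  · by_cases h2 : v = y
    · subst h2
      have h3 : v ∉ S := fun h => hy (hS h)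
      simp [hy, h1, h3]
    · simp [h1, h2]

lemma reach {Y S : Finset V} {P : SimpleGraph V} {x y : V} (hne : x ≠ y)
    (hP : ∀ v ∈ Y, ∃ a ∈ S, P.Reachable v a) :
    ∀ v ∈ insert y Y, ∃ a ∈ insert y (S.erase x), (P ⊔ SimpleGraph.edge x y).Reachable v a := by
  intro v hv
  rcases mem_insert.1 hv with rfl | hv
  · exact ⟨v, mem_insert_self _ _, SimpleGraph.Reachable.refl _⟩
  · obtain ⟨a, ha, h⟩ := hP v hv
    by_cases e : a = x
    · subst e
      exact ⟨y, mem_insert_self _ _, (h.mono le_sup_left).trans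
        ((edge_adj_self hne).reachable.mono le_sup_right)⟩
    · exact ⟨a, mem_insert_of_mem (mem_erase.2 ⟨e, ha⟩), h.mono le_sup_left⟩

lemma all {S : Finset V} {H P : SimpleGraph V} {x y : V} (hne : x ≠ y) (hx : x ∈ S)
    (h : ∀ a ∈ S, ∀ b ∈ S, (H ⊔ SimpleGraph.edge x y ⊔ P).Reachable a b) :
    ∀ a ∈ insert y (S.erase x), ∀ b ∈ insert y (S.erase x),
      (H ⊔ (P ⊔ SimpleGraph.edge x y)).Reachable a b := by
  have e : H ⊔ SimpleGraph.edge x y ⊔ P = H ⊔ (P ⊔ SimpleGraph.edge x y) := by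
    rw [sup_assoc, sup_comm P]
  rw [e] at h
  have k : ∀ a ∈ insert y (S.erase x), (H ⊔ (P ⊔ SimpleGraph.edge x y)).Reachable x a := by
    intro a ha
    rcases mem_insert.1 ha with rfl | ha
    · exact (edge_adj_self hne).reachable.mono (le_sup_right.trans le_sup_right)
    · exact h x hx a (mem_of_mem_erase ha)
  exact fun a ha b hb => (k a ha).symm.trans (k b hb)

end ExtAux

/-- A port moves to a new neighbour.  For `key` apply the old `key` to `H ⊔ edge x y`.  For `rP`: a
vertex that reaches `x` now reaches `y`. -/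
theorem Sw.ext {Y S : Finset V} {P Q : SimpleGraph V} {x y : V} (h : Sw G Y S P Q) (hx : x ∈ S)
    (hy : y ∉ Y) (hxy : G.Adj x y) :
    Sw G (insert y Y) (insert y (S.erase x)) (P ⊔ SimpleGraph.edge x y)
      (Q ⊔ SimpleGraph.edge x y) := by
  have hne : x ≠ y := hxy.ne
  have hyS : y ∉ S := fun h1 => hy (h.sub h1)
  refine ⟨sup_le h.leP (edge_le hxy), sup_le h.leQ (edge_le hxy),
    insert_subset_insert _ ((erase_subset _ _).trans h.sub), ?_, ExtAux.deg h.sub h.dP hx hy,
    ExtAux.deg h.sub h.dQ hx hy, ExtAux.reach hne h.rP, ExtAux.reach hne h.rQ, fun H hH => ?_⟩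
  · rw [card_insert_of_notMem fun h1 => hyS (mem_of_mem_erase h1), card_erase_of_mem hx, h.card]
  · have r : (H ⊔ SimpleGraph.edge x y).Reachable x y :=
      (edge_adj_self hne).reachable.mono le_sup_right
    refine (h.key (H ⊔ SimpleGraph.edge x y) fun a ha => ?_).imp (ExtAux.all hne hx)
      (ExtAux.all hne hx)
    by_cases e : a = x
    · subst e
      obtain ⟨b, hb, h1, h2⟩ := hH y (mem_insert_self _ _)
      have hb' := (mem_insert.1 hb).resolve_left h1
      exact ⟨b, mem_of_mem_erase hb', ne_of_mem_erase hb', r.trans (h2.mono le_sup_left)⟩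
    · obtain ⟨b, hb, h1, h2⟩ := hH a (mem_insert_of_mem (mem_erase.2 ⟨e, ha⟩))
      rcases mem_insert.1 hb with rfl | hb
      · exact ⟨x, hx, Ne.symm e, (h2.mono le_sup_left).trans r.symm⟩
      · exact ⟨b, mem_of_mem_erase hb, h1, h2.mono le_sup_left⟩

/-- Two new ports that are adjacent are old ports different from `x`, adjacent before. -/
theorem Sw.ext_adj {Y S : Finset V} {P Q : SimpleGraph V} {x y : V} (h : Sw G Y S P Q)
    (hx : x ∈ S) (hy : y ∉ Y) {a b : V} (ha : a ∈ insert y (S.erase x))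
    (hb : b ∈ insert y (S.erase x))
    (hab : ((P ⊔ SimpleGraph.edge x y) ⊔ (Q ⊔ SimpleGraph.edge x y)).Adj a b) :
    a ∈ S.erase x ∧ b ∈ S.erase x ∧ (P ⊔ Q).Adj a b := by
  have hxS : x ∉ insert y (S.erase x) := fun h1 =>
    (mem_insert.1 h1).elim (fun e => hy (e ▸ h.sub hx)) (notMem_erase _ _)
  have he : ¬ (SimpleGraph.edge x y).Adj a b := fun h1 => by
    rw [SimpleGraph.edge_adj] at h1
    rcases h1.1 with ⟨rfl, -⟩ | ⟨-, rfl⟩
    exacts [hxS ha, hxS hb]
  have k : (P ⊔ Q).Adj a b := by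
    rcases hab with (h1 | h1) | (h1 | h1)
    exacts [Or.inl h1, absurd h1 he, Or.inr h1, absurd h1 he]
  exact ⟨(mem_insert.1 ha).resolve_left fun e => hy (e ▸ h.mem k),
    (mem_insert.1 hb).resolve_left fun e => hy (e ▸ h.mem k.symm), k⟩

theorem Plug.ext {x y : V} {X : Finset V} (h : Plug G x X) (hy : y ∉ X) (hxy : G.Adj x y) :
    Plug G y (insert y X) := by
  obtain ⟨Y, S, P, Q, h1, h2, h3, h4⟩ := h
  have hy' : y ∉ Y := fun h5 => hy (h4 h5)
  refine ⟨_, _, _, _, h1.ext h3 hy' hxy, fun a ha b hb hab => ?_, mem_insert_self _ _,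
    insert_subset_insert _ h4⟩
  obtain ⟨k1, k2, k3⟩ := h1.ext_adj h3 hy' ha hb hab
  exact h2 a (mem_of_mem_erase k1) b (mem_of_mem_erase k2) k3

theorem Plug.walk {x w : V} (p : G.Walk x w) (hp : p.IsPath) (X : Finset V) (h : Plug G x X)
    (hd : ∀ z ∈ p.support.tail, z ∉ X) : Plug G w (X ∪ p.support.toFinset) := by
  induction p generalizing X with
  | nil => exact h.mono subset_union_left
  | @cons a b c hab q ih =>
    rw [SimpleGraph.Walk.cons_isPath_iff] at hp
    rw [SimpleGraph.Walk.support_cons, List.tail_cons] at hd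
    have hn := hp.1.support_nodup
    rw [← q.cons_tail_support, List.nodup_cons] at hn
    refine (ih hp.1 (insert b X) (h.ext (hd b q.start_mem_support) hab) fun z hz h1 => ?_).mono ?_
    · rcases mem_insert.1 h1 with rfl | h1
      · exact hn.1 hz
      · exact hd z (List.mem_of_mem_tail hz) h1
    · intro z hz
      simp only [mem_union, mem_insert, List.mem_toFinset, SimpleGraph.Walk.support_cons,
        List.mem_cons] at hz ⊢
      rcases hz with (rfl | hz) | hz
      exacts [Or.inr (Or.inr q.start_mem_support), Or.inl hz, Or.inr (Or.inr hz)]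

/-- Extending the ports one after the other to new neighbours in `H` makes them non-adjacent
(induct on the set of ports that can still be in an adjacent pair). -/
theorem Sw.sep {Y S H : Finset V} {P Q : SimpleGraph V} (h : Sw G Y S P Q) (hY : Y ⊆ H)
    (hd : ∀ v ∈ H, Y.card + 4 ≤ dgi G H v) :
    ∃ Y' S' P' Q', Sw G Y' S' P' Q' ∧ NA S' P' Q' ∧ Y' ⊆ H ∧ Y'.card ≤ Y.card + 4 := by
  have key : ∀ T : Finset V, ∀ (Y S : Finset V) (P Q : SimpleGraph V), Sw G Y S P Q → Y ⊆ H →
      (∀ v ∈ H, Y.card + T.card ≤ dgi G H v) → (∀ a ∈ S, ∀ b ∈ S, (P ⊔ Q).Adj a b → a ∈ T) →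
      ∃ Y' S' P' Q', Sw G Y' S' P' Q' ∧ NA S' P' Q' ∧ Y' ⊆ H ∧ Y'.card ≤ Y.card + T.card := by
    intro T
    induction T using Finset.induction_on with
    | empty =>
      exact fun Y S P Q h hY _ hT => ⟨Y, S, P, Q, h,
        fun a ha b hb hab => notMem_empty _ (hT a ha b hb hab), hY, Nat.le_add_right _ _⟩
    | insert x T hxT ih =>
      intro Y S P Q h hY hd hT
      rw [card_insert_of_notMem hxT] at hd ⊢
      by_cases hx : x ∈ S
      · obtain ⟨y, hy, hyY⟩ := exists_mem_notMem_of_card_lt_card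
          (show Y.card < (H.filter fun w => G.Adj x w).card from
            lt_of_lt_of_le (by omega) (hd x (hY (h.sub hx))))
        obtain ⟨hyH, hxy⟩ := mem_filter.1 hy
        obtain ⟨Y', S', P', Q', k1, k2, k3, k4⟩ := ih _ _ _ _ (h.ext hx hyY hxy)
          (insert_subset hyH hY)
          (fun v hv => by rw [card_insert_of_notMem hyY]; have := hd v hv; omega)
          (fun a ha b hb hab => by
            obtain ⟨k1, k2, k3⟩ := h.ext_adj hx hyY ha hb hab
            exact (mem_insert.1 (hT a (mem_of_mem_erase k1) b (mem_of_mem_erase k2)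
              k3)).resolve_left (ne_of_mem_erase k1))
        rw [card_insert_of_notMem hyY] at k4
        exact ⟨Y', S', P', Q', k1, k2, k3, by omega⟩
      · obtain ⟨Y', S', P', Q', k1, k2, k3, k4⟩ := ih Y S P Q h hY
          (fun v hv => by have := hd v hv; omega)
          fun a ha b hb hab => (mem_insert.1 (hT a ha b hb hab)).resolve_left
            fun e => hx (e ▸ ha)
        exact ⟨Y', S', P', Q', k1, k2, k3, by omega⟩
  have := key S Y S P Q h hY (by rw [h.card]; exact hd) fun a ha _ _ _ => ha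
  rwa [h.card] at this

end Pool.Agent.Lib.MP_f20cd2_co.HM
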