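import Pool.Agent.Lib.MP_f20cd2_co.HM.Defs

/-!
Following an injection gives disjoint paths.
-/

set_option autoImplicit false
set_option linter.unusedSectionVars false

namespace Pool.Agent.Lib.MP_f20cd2_co.HM

open Finset
open Pool.Agent.Lib.MP_f20cd2_co.H83 (Conn Cells)
open Pool.Agent.Lib.MP_f20cd2_co.PL
open scoped Classical

variable {V : Type} [Fintype V] [DecidableEq V] {G : SimpleGraph V}

/-- Induct on `|U|`.  If no `u ∈ U` has `φ u = inr i`, then `φ` maps `U` injectively, so onto, the
copy of `U`, every `t ∈ T` has `φ t = inr i`, and `X t = insert t (ob i)`.  Otherwise remove `u`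
from `U`, replace `ob i` by `insert u (ob i)` and send the vertex with `φ y = inl u` (it is not `u`)
to `inr i` (`hext`). -/
theorem follow (Pl : V → Finset V → Prop)
    (hext : ∀ x y X, Pl x X → y ∉ X → G.Adj x y → Pl y (insert y X)) {ι : Type} (T L U : Finset V)
    (ob : ι → Finset V) (φ : V → V ⊕ ι) (hUL : U ⊆ L) (hoL : ∀ i, ob i ⊆ L) (hTL : Disjoint T L)
    (hoU : ∀ i, Disjoint (ob i) U) (hoo : ∀ i j, i ≠ j → Disjoint (ob i) (ob j))
    (hinj : ∀ x ∈ T ∪ U, ∀ y ∈ T ∪ U, φ x = φ y → x = y)
    (h1 : ∀ x ∈ T ∪ U, ∀ u, φ x = Sum.inl u → u ∈ U ∧ (u = x ∨ G.Adj x u))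
    (h2 : ∀ x ∈ T ∪ U, ∀ i, φ x = Sum.inr i → Pl x (insert x (ob i))) :
    ∃ X : V → Finset V, (∀ t ∈ T, X t ⊆ insert t L ∧ Pl t (X t)) ∧
      ∀ t ∈ T, ∀ t' ∈ T, t ≠ t' → Disjoint (X t) (X t') := by
  induction hn : U.card using Nat.strong_induction_on generalizing U ob φ with
  | _ n ih =>
  have hT : ∀ t ∈ T, t ∉ L := fun t ht => disjoint_left.1 hTL ht
  have hxo : ∀ x ∈ T ∪ U, ∀ i, x ∉ ob i := fun x hx i hi => (mem_union.1 hx).elim
    (fun h => hT x h (hoL i hi)) (disjoint_left.1 (hoU i) hi)
  by_cases hA : ∃ u ∈ U, ∃ i, φ u = Sum.inr i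
  · obtain ⟨u, hu, i, hi⟩ := hA
    have hu' : u ∈ T ∪ U := mem_union_right _ hu
    have hx : ∀ x ∈ T ∪ U.erase u, x ∈ T ∪ U ∧ x ≠ u := fun x hx => (mem_union.1 hx).elim
      (fun h => ⟨mem_union_left _ h, fun e => hT x h (e ▸ hUL hu)⟩)
      fun h => ⟨mem_union_right _ (mem_of_mem_erase h), ne_of_mem_erase h⟩
    have hne : ∀ x ∈ T ∪ U.erase u, φ x ≠ Sum.inr i := fun x h e =>
      (hx x h).2 (hinj x (hx x h).1 u hu' (e.trans hi.symm))
    have hob : ∀ j x, x ∈ Function.update ob i (insert u (ob i)) j → x ∈ ob j ∨ (x = u ∧ j = i) := by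
      intro j x h
      by_cases e : j = i
      · subst e
        rw [Function.update_self, mem_insert] at h
        exact h.elim (fun h => Or.inr ⟨h, rfl⟩) Or.inl
      · rw [Function.update_of_ne e] at h
        exact Or.inl h
    refine ih _ (hn ▸ card_erase_lt_of_mem hu) (U.erase u) (Function.update ob i (insert u (ob i)))
      (fun x => if φ x = Sum.inl u then Sum.inr i else φ x) ((erase_subset _ _).trans hUL)
      (fun j x h => (hob j x h).elim (fun h => hoL j h) fun h => h.1 ▸ hUL hu)
      (fun j => disjoint_left.2 fun x h h' => (hob j x h).elim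
        (fun h => disjoint_left.1 (hoU j) h (mem_of_mem_erase h')) fun h => ne_of_mem_erase h' h.1)
      (fun j k hjk => disjoint_left.2 fun x h h' => ?_) (fun x h y h' e => ?_)
      (fun x h v e => ?_) (fun x h j e => ?_) rfl
    · rcases hob j x h with a | a <;> rcases hob k x h' with b | b
      · exact disjoint_left.1 (hoo j k hjk) a b
      · exact hxo u hu' j (b.1 ▸ a)
      · exact hxo u hu' k (a.1 ▸ b)
      · exact hjk (a.2.trans b.2.symm)
    · refine hinj x (hx x h).1 y (hx y h').1 ?_
      split_ifs at e with a b b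
      · exact a.trans b.symm
      · exact absurd e.symm (hne y h')
      · exact absurd e (hne x h)
      · exact e
    · split_ifs at e with a
      obtain ⟨b, c⟩ := h1 x (hx x h).1 v e
      exact ⟨mem_erase.2 ⟨fun d => a (d ▸ e), b⟩, c⟩
    · split_ifs at e with a
      · obtain rfl : i = j := Sum.inr.inj e
        rw [Function.update_self]
        refine hext u x _ (h2 u hu' i hi) (fun b => ?_)
          ((h1 x (hx x h).1 u a).2.resolve_left (hx x h).2.symm).symm
        exact (mem_insert.1 b).elim (hx x h).2 (hxo x (hx x h).1 i)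
      · have hj : j ≠ i := fun b => hne x h (by rw [e, b])
        rw [Function.update_of_ne hj]
        exact h2 x (hx x h).1 j e
  · push Not at hA
    have hl : ∀ u ∈ U, φ u = Sum.inl ((φ u).elim id fun _ => u) := fun u hu => by
      rcases e : φ u with v | i
      · rfl
      · exact absurd e (hA u hu i)
    have him : U.image (fun u => (φ u).elim id fun _ => u) = U := by
      refine eq_of_subset_of_card_le (fun v hv => ?_) (card_image_of_injOn fun x hx y hy e => ?_).ge
      · obtain ⟨u, hu, rfl⟩ := mem_image.1 hv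
        exact (h1 u (mem_union_right _ hu) _ (hl u hu)).1
      · refine hinj x (mem_union_right _ hx) y (mem_union_right _ hy) ?_
        rw [hl x hx, hl y hy]
        exact congrArg _ e
    have hr : ∀ t ∈ T, ∃ i, φ t = Sum.inr i := fun t ht => by
      rcases e : φ t with v | i
      · have hv := (h1 t (mem_union_left _ ht) v e).1
        rw [← him] at hv
        obtain ⟨u, hu, rfl⟩ := mem_image.1 hv
        exact absurd (hinj t (mem_union_left _ ht) u (mem_union_right _ hu)
          (e.trans (hl u hu).symm) ▸ hUL hu) (hT t ht)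
      · exact ⟨i, rfl⟩
    refine ⟨fun t => insert t ((φ t).elim (fun _ => ∅) ob), fun t ht => ?_, fun t ht t' ht' e => ?_⟩
    · obtain ⟨i, hi⟩ := hr t ht
      simp only [hi, Sum.elim_inr]
      exact ⟨insert_subset_insert _ (hoL i), h2 t (mem_union_left _ ht) i hi⟩
    · obtain ⟨i, hi⟩ := hr t ht
      obtain ⟨j, hj⟩ := hr t' ht'
      simp only [hi, hj, Sum.elim_inr]
      refine disjoint_left.2 fun x a b => ?_
      rcases mem_insert.1 a with rfl | a <;> rcases mem_insert.1 b with b | b
      · exact e b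
      · exact hT x ht (hoL j b)
      · exact hT t' ht' (hoL i (b ▸ a))
      · refine disjoint_left.1 (hoo i j fun c => e ?_) a b
        exact hinj t (mem_union_left _ ht) t' (mem_union_left _ ht') (by rw [hi, hj, c])

end Pool.Agent.Lib.MP_f20cd2_co.HM
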