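import Pool.Agent.Lib.MP_f20cd2_co.HM.Follow
import Pool.Agent.Lib.MP_f20cd2_co.PL.Hall

/-!
Every terminal is linked to its own object.
-/

set_option autoImplicit false
set_option linter.unusedSectionVars false

namespace Pool.Agent.Lib.MP_f20cd2_co.HM

open Finset
open Pool.Agent.Lib.MP_f20cd2_co.H83 (Conn Cells)
open Pool.Agent.Lib.MP_f20cd2_co.PL
open scoped Classical

variable {V : Type} [Fintype V] [DecidableEq V] {G : SimpleGraph V}

/-- Greedy independent set: induct on `|D|`, delete a vertex of small degree with its neighbours. -/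
theorem ind_of_degen (d : ℕ) (D : Finset V)
    (h : ∀ U ⊆ D, U.Nonempty → ∃ v ∈ U, dgi G U v < d) :
    ∃ I ⊆ D, Ind G I ∧ D.card ≤ d * I.card := by
  induction D using Finset.strongInduction with
  | H D ih =>
    rcases D.eq_empty_or_nonempty with rfl | hD
    · exact ⟨∅, Subset.refl _, fun u hu => absurd hu (notMem_empty u), by simp⟩
    obtain ⟨v, hv, hd⟩ := h D (Subset.refl _) hD
    have hv' : v ∉ D \ insert v (D.filter fun w => G.Adj v w) :=
      fun h1 => (mem_sdiff.1 h1).2 (mem_insert_self _ _)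
    obtain ⟨I, hI, hind, hc⟩ := ih (D \ insert v (D.filter fun w => G.Adj v w))
      ((ssubset_iff_of_subset sdiff_subset).2 ⟨v, hv, hv'⟩)
      fun U hU => h U (hU.trans sdiff_subset)
    have hn : ∀ w ∈ I, ¬ G.Adj v w := fun w hw h1 =>
      (mem_sdiff.1 (hI hw)).2 (mem_insert_of_mem (mem_filter.2 ⟨(mem_sdiff.1 (hI hw)).1, h1⟩))
    refine ⟨insert v I, insert_subset hv (hI.trans sdiff_subset), fun a ha b hb => ?_, ?_⟩
    · rcases mem_insert.1 ha with rfl | ha'
      · rcases mem_insert.1 hb with rfl | hb'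
        · exact G.irrefl
        · exact hn b hb'
      · rcases mem_insert.1 hb with rfl | hb'
        · exact fun h1 => hn a ha' h1.symm
        · exact hind a ha' b hb'
    · rw [card_insert_of_notMem fun h1 => hv' (hI h1), Nat.mul_succ]
      have h1 := le_card_sdiff (insert v (D.filter fun w => G.Adj v w)) D
      have h2 := card_insert_le v (D.filter fun w => G.Adj v w)
      unfold dgi at hd
      omega

namespace LinkAux

/-- A family of pairwise disjoint sets with a property such that no further one can be added. -/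
lemma packing (ok : Finset V → Prop) (hne : ∀ X, ok X → X.Nonempty) :
    ∃ O : Finset (Finset V), (∀ X ∈ O, ok X) ∧ (∀ X ∈ O, ∀ Y ∈ O, X ≠ Y → Disjoint X Y) ∧
      ∀ X, ok X → ∃ Y ∈ O, ¬ Disjoint X Y := by
  obtain ⟨O, hO, hmax⟩ := exists_max_image (univ.filter fun O : Finset (Finset V) =>
    (∀ X ∈ O, ok X) ∧ ∀ X ∈ O, ∀ Y ∈ O, X ≠ Y → Disjoint X Y) card ⟨∅, by simp⟩
  obtain ⟨h1, h2⟩ := (mem_filter.1 hO).2
  refine ⟨O, h1, h2, fun X hX => ?_⟩
  by_contra hno
  have h3 : ∀ Y ∈ O, Disjoint X Y := fun Y hY => by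
    by_contra h4
    exact hno ⟨Y, hY, h4⟩
  have h4 : X ∉ O := fun h5 => (hne X hX).ne_empty (disjoint_self.1 (h3 X h5))
  have h5 := hmax (insert X O) (mem_filter.2 ⟨mem_univ _, fun Y hY => ?_, fun Y hY Z hZ hYZ => ?_⟩)
  · rw [card_insert_of_notMem h4] at h5
    omega
  · rcases mem_insert.1 hY with rfl | hY
    · exact hX
    · exact h1 Y hY
  · rcases mem_insert.1 hY with rfl | hY'
    · rcases mem_insert.1 hZ with rfl | hZ'
      · exact absurd rfl hYZ
      · exact h3 Z hZ'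
    · rcases mem_insert.1 hZ with rfl | hZ'
      · exact (h3 Y hY').symm
      · exact h2 Y hY' Z hZ' hYZ

lemma arith {s d a b k i : ℕ} (hs : 1 ≤ s) (hk : k < a) (h1 : (2 * s + d) * a ≤ b + s * k)
    (h2 : b ≤ d * i) (h3 : 2 ≤ i → (2 * d + 1) * i ≤ b + s * k) : False := by
  have h4 : s * k ≤ s * a := Nat.mul_le_mul_left s hk.le
  have h5 : s * 1 ≤ s * a := Nat.mul_le_mul_left s (by omega)
  have h6 : d * 1 ≤ d * a := Nat.mul_le_mul_left d (by omega)
  have h7 : s * a + d * a ≤ b := by nlinarith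
  have h8 : 2 ≤ i := by
    by_contra h9
    have : d * i ≤ d * 1 := Nat.mul_le_mul_left d (by omega)
    omega
  have h9 := h3 h8
  nlinarith

/-- The allowed targets of a vertex. -/
def Rel (G : SimpleGraph V) (U : Finset V) {ι : Type} (ob : ι → Finset V) (x : V) : V ⊕ ι → Prop
  | Sum.inl u => u ∈ U ∧ (u = x ∨ G.Adj x u)
  | Sum.inr i => ∃ w ∈ ob i, G.Adj x w

lemma hall {ι : Type} [Fintype ι] (T L U : Finset V) (ob : ι → Finset V) (d s : ℕ) (hs : 1 ≤ s)
    (hUL : U ⊆ L) (hob : ∀ i, (ob i).card ≤ s) (hcov : ∀ w ∈ L, w ∉ U → ∃ i, w ∈ ob i)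
    (hdeg : ∀ W ⊆ U, W.Nonempty → ∃ v ∈ W, dgi G W v < d)
    (hexp : ∀ D ⊆ T, (2 * s + d) * D.card ≤ (nbr G D ∩ L).card)
    (hind : ∀ I ⊆ L, Ind G I → 2 ≤ I.card → (2 * d + 1) * I.card ≤ (nbr G I ∩ L).card)
    (X : Finset V) (hX : X ⊆ T ∪ U) (N : Finset (V ⊕ ι))
    (hN : ∀ x ∈ X, ∀ p, Rel G U ob x p → p ∈ N) : X.card ≤ N.card := by
  by_contra hlt
  have h1 : (X ∩ U).map Function.Embedding.inl ⊆ N := fun p hp => by
    obtain ⟨u, hu, rfl⟩ := mem_map.1 hp
    exact hN u (mem_inter.1 hu).1 _ ⟨(mem_inter.1 hu).2, Or.inl rfl⟩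
  have h2 := card_sdiff_add_card_eq_card h1
  rw [card_map] at h2
  have h3 : X.card ≤ (X ∩ T).card + (X ∩ U).card := by
    refine le_trans (card_le_card ?_) (card_union_le _ _)
    rw [← inter_union_distrib_left]
    exact subset_inter (Subset.refl _) hX
  have key : ∀ E ⊆ X, (nbr G E ∩ L).card ≤
      (X ∩ U).card + s * (N \ (X ∩ U).map Function.Embedding.inl).card := by
    intro E hE
    have h4 : nbr G E ∩ L ⊆ (X ∩ U) ∪ (N \ (X ∩ U).map Function.Embedding.inl).biUnion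
        (Sum.elim (fun u => {u}) ob) := by
      intro w hw
      obtain ⟨hw1, hw2⟩ := mem_inter.1 hw
      obtain ⟨x, hx, hxw⟩ := mem_nbr.1 hw1
      by_cases h5 : w ∈ U
      · by_cases h6 : w ∈ X
        · exact mem_union_left _ (mem_inter.2 ⟨h6, h5⟩)
        · refine mem_union_right _ (mem_biUnion.2 ⟨Sum.inl w, mem_sdiff.2
            ⟨hN x (hE hx) _ ⟨h5, Or.inr hxw⟩, fun h7 => ?_⟩, mem_singleton_self w⟩)
          obtain ⟨u, hu, e⟩ := mem_map.1 h7
          exact h6 (Sum.inl.inj e ▸ (mem_inter.1 hu).1)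
      · obtain ⟨i, hi⟩ := hcov w hw2 h5
        refine mem_union_right _ (mem_biUnion.2 ⟨Sum.inr i, mem_sdiff.2
          ⟨hN x (hE hx) _ ⟨w, hi, hxw⟩, fun h7 => ?_⟩, hi⟩)
        obtain ⟨u, -, e⟩ := mem_map.1 h7
        exact Sum.inl_ne_inr e
    refine (card_le_card h4).trans ((card_union_le _ _).trans (Nat.add_le_add_left ?_ _))
    rw [mul_comm]
    refine card_biUnion_le_card_mul _ _ _ fun p _ => ?_
    rcases p with u | i
    · exact (card_singleton u).le.trans hs
    · exact hob i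
  obtain ⟨I, hI, hi1, hi2⟩ := ind_of_degen (G := G) d (X ∩ U)
    fun W hW => hdeg W (hW.trans inter_subset_right)
  exact arith hs (by omega) ((hexp (X ∩ T) inter_subset_right).trans (key _ inter_subset_left)) hi2
    fun h => (hind I ((hI.trans inter_subset_right).trans hUL) hi1 h).trans
      (key I (hI.trans inter_subset_left))

end LinkAux

/-- Take a family `O` of pairwise disjoint objects in `L` of largest size, `U = L` minus their
union; no object lies in `U`, so `ind_of_degen` applies to every subset of `U`.  Hall's theorem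
(`hall_cap` with capacity one, or `Finset.all_card_le_biUnion_card_iff_exists_injective`) from
`T ∪ U` to `U ⊕ O`: `x` may take `u ∈ U` if `u = x` or `G.Adj x u`, and an object with a vertex
adjacent to `x`.  For `X` put `D = X ∩ T`, `D2 = X ∩ U`, `k` the number of allowed targets other than
the copies of `D2`; suppose `k < |D|`.  For every `E ⊆ X`, `|nbr G E ∩ L| ≤ |D2| + s * k`.  With
`E = D`: `(s + d) |D| ≤ |D2|`.  With `E = I` independent in `D2`, `|D2| ≤ d |I|`, so `2 ≤ |I|` and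
`(2 d + 1) |I| ≤ 2 |D2|`, a contradiction.  Finish with `follow`. -/
theorem link (Pl : V → Finset V → Prop)
    (hext : ∀ x y X, Pl x X → y ∉ X → G.Adj x y → Pl y (insert y X)) (T L : Finset V)
    (hTL : Disjoint T L) (d s : ℕ) (hs : 1 ≤ s)
    (hobj : ∀ U ⊆ L, U.Nonempty → (∀ v ∈ U, d ≤ dgi G U v) →
      ∃ X ⊆ U, X.Nonempty ∧ X.card ≤ s ∧ ∀ w ∈ X, Pl w X)
    (hexp : ∀ D ⊆ T, (2 * s + d) * D.card ≤ (nbr G D ∩ L).card)
    (hind : ∀ I ⊆ L, Ind G I → 2 ≤ I.card → (2 * d + 1) * I.card ≤ (nbr G I ∩ L).card) :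
    ∃ X : V → Finset V, (∀ t ∈ T, X t ⊆ insert t L ∧ Pl t (X t)) ∧
      ∀ t ∈ T, ∀ t' ∈ T, t ≠ t' → Disjoint (X t) (X t') := by
  rcases isEmpty_or_nonempty V with hV | hV
  · exact ⟨fun _ => ∅, fun t _ => (IsEmpty.false t).elim, fun t _ => (IsEmpty.false t).elim⟩
  obtain ⟨O, hO, hdis, hmax⟩ := LinkAux.packing
    (fun X : Finset V => X ⊆ L ∧ X.Nonempty ∧ X.card ≤ s ∧ ∀ w ∈ X, Pl w X) fun X hX => hX.2.1
  have hoU : ∀ Y ∈ O, Disjoint Y (L \ O.biUnion id) := fun Y hY =>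
    disjoint_left.2 fun w hw h => (mem_sdiff.1 h).2 (mem_biUnion.2 ⟨Y, hY, hw⟩)
  have hdeg : ∀ W ⊆ L \ O.biUnion id, W.Nonempty → ∃ v ∈ W, dgi G W v < d := by
    intro W hW hne
    by_contra hno
    obtain ⟨X, hX, h1⟩ := hobj W (hW.trans sdiff_subset) hne fun v hv => by
      by_contra h2
      exact hno ⟨v, hv, not_le.1 h2⟩
    obtain ⟨Y, hY, h2⟩ := hmax X ⟨(hX.trans hW).trans sdiff_subset, h1⟩
    exact h2 ((hoU Y hY).symm.mono_left (hX.trans hW))
  obtain ⟨φ, h1, h2⟩ := hall_cap (T ∪ L \ O.biUnion id) (univ : Finset (V ⊕ {Y // Y ∈ O}))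
    (fun _ => 1) (LinkAux.Rel G (L \ O.biUnion id) Subtype.val) (fun X hX => by
      rw [sum_const, smul_eq_mul, mul_one]
      refine LinkAux.hall T L (L \ O.biUnion id) Subtype.val d s hs sdiff_subset
        (fun i => (hO i.1 i.2).2.2.1) (fun w hw h => ?_) hdeg hexp hind X hX _ fun x hx p hp => ?_
      · by_contra h3
        refine h (mem_sdiff.2 ⟨hw, fun h4 => ?_⟩)
        obtain ⟨Y, hY, h5⟩ := mem_biUnion.1 h4
        exact h3 ⟨⟨Y, hY⟩, h5⟩
      · simp only [mem_filter]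
        exact ⟨mem_univ _, x, hx, hp⟩)
  refine follow Pl hext T L (L \ O.biUnion id) (Subtype.val : {Y // Y ∈ O} → Finset V) φ
    sdiff_subset (fun i => (hO i.1 i.2).1) hTL (fun i => hoU i.1 i.2)
    (fun i j hij => hdis i.1 i.2 j.1 j.2 fun e => hij (Subtype.ext e))
    (fun x hx y hy e => ?_) (fun x hx u e => ?_) fun x hx i e => ?_
  · refine card_le_one.1 (h2 (φ y)) x ?_ y ?_
    · simp only [mem_filter]
      exact ⟨hx, e⟩
    · simp only [mem_filter]
      exact ⟨hy, trivial⟩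
  · have h3 := (h1 x hx).2
    rw [e] at h3
    exact h3
  · have h3 := (h1 x hx).2
    rw [e] at h3
    obtain ⟨w, hw, hxw⟩ := h3
    refine hext w x i.1 ((hO i.1 i.2).2.2.2 w hw) (fun h4 => ?_) hxw.symm
    rcases mem_union.1 hx with h5 | h5
    · exact disjoint_left.1 hTL h5 ((hO i.1 i.2).1 h4)
    · exact disjoint_left.1 (hoU i.1 i.2) h4 h5

end Pool.Agent.Lib.MP_f20cd2_co.HM
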