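import Pool.Agent.Lib.MP_f20cd2_co.HM.ExpA
import Pool.Agent.Lib.MP_f20cd2_co.HM.ExpB
import Pool.Agent.Lib.MP_f20cd2_co.HM.Core
import Pool.Agent.Lib.MP_f20cd2_co.HM.Ext

/-!
Small sets in which every vertex is a port of a switcher.
-/

set_option autoImplicit false
set_option linter.unusedSectionVars false

namespace Pool.Agent.Lib.MP_f20cd2_co.HM

open Finset
open Pool.Agent.Lib.MP_f20cd2_co.H83 (Conn Cells)
open Pool.Agent.Lib.MP_f20cd2_co.PL
open scoped Classical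

variable {V : Type} [Fintype V] [DecidableEq V] {G : SimpleGraph V}

namespace ObjAux

lemma one (κ : V → Bool) (hκ : ∀ u v, G.Adj u v → κ u ≠ κ v) (H : Finset V) (s r : ℕ)
    (hne : H.Nonempty) (hL : Lk G H s r) (hd : ∀ v ∈ H, s ≤ dgi G H v)
    (hs : (r + 2) ^ 2 + 4 ≤ s) :
    ∃ Y S P Q, Sw G Y S P Q ∧ NA S P Q ∧ Y ⊆ H ∧ Y.card ≤ (r + 2) ^ 2 + 4 := by
  obtain ⟨Y, S, P, Q, h1, h2, h3⟩ := core κ hκ H s r hne hL
    (fun v hv => by have := hd v hv; omega) (by omega)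
  obtain ⟨Y', S', P', Q', h4, h5, h6, h7⟩ := h1.sep h2 fun v hv => by have := hd v hv; omega
  exact ⟨Y', S', P', Q', h4, h5, h6, by omega⟩

lemma dgi_sdiff (H Y : Finset V) (v : V) : dgi G H v ≤ dgi G (H \ Y) v + Y.card := by
  unfold dgi
  refine le_trans (card_le_card (t := ((H \ Y).filter fun w => G.Adj v w) ∪ Y) fun w hw => ?_)
    (card_union_le _ _)
  rw [mem_filter] at hw
  by_cases h : w ∈ Y
  · exact mem_union_right _ h
  · exact mem_union_left _ (mem_filter.2 ⟨mem_sdiff.2 ⟨hw.1, h⟩, hw.2⟩)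

lemma lk_sdiff {H Y : Finset V} {s s' r : ℕ} (hL : Lk G H s r) (h : s' + Y.card ≤ s) :
    Lk G (H \ Y) s' r := by
  intro u hu v hv Z hZ huZ hvZ
  rw [mem_sdiff] at hu hv
  obtain ⟨p, h1, h2, h3⟩ := hL u hu.1 v hv.1 (Z ∪ Y) ((card_union_le _ _).trans (by omega))
    (fun e => (mem_union.1 e).elim huZ hu.2) (fun e => (mem_union.1 e).elim hvZ hv.2)
  refine ⟨p, h1, h2, fun x hx => ?_⟩
  have h4 := h3 x hx
  exact ⟨mem_sdiff.2 ⟨h4.1, fun e => h4.2 (mem_union_right _ e)⟩,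
    fun e => h4.2 (mem_union_left _ e)⟩

lemma half {Y1 S1 Y2 W : Finset V} {P1 Q1 : SimpleGraph V} (h1 : Sw G Y1 S1 P1 Q1) {a1 a2 : V}
    (ha1 : a1 ∈ Y1) (h2 : Plug G a2 Y2) (hdis : ∀ x ∈ Y1, x ∉ Y2) (p : G.Walk a2 a1)
    (hW : ∀ x, x ∈ W ↔ x ∈ p.support) (hp : ∀ x ∈ W, x ∈ Y2 → x = a2) {w : V}
    (hw : w ∈ Y1 ∪ W) : Plug G w (Y1 ∪ Y2 ∪ W) := by
  have hq : ∃ q : G.Walk a2 w, ∀ z ∈ q.support, z ∈ Y1 ∪ W := by
    rcases mem_union.1 hw with h | h
    · refine reach_ind (H := P1 ⊔ Q1)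
        (p := fun x => ∃ q : G.Walk a2 x, ∀ z ∈ q.support, z ∈ Y1 ∪ W) ?_ (h1.conn ha1 h)
        ⟨p, fun z hz => mem_union_right _ ((hW z).2 hz)⟩
      rintro u v huv ⟨q, hq⟩
      refine ⟨q.concat (sup_le h1.leP h1.leQ huv), fun z hz => ?_⟩
      rw [SimpleGraph.Walk.support_concat, List.mem_append, List.mem_singleton] at hz
      rcases hz with hz | rfl
      · exact hq z hz
      · exact mem_union_left _ (h1.mem huv.symm)
    · exact ⟨p.takeUntil w ((hW w).1 h), fun z hz =>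
        mem_union_right _ ((hW z).2 (p.support_takeUntil_subset_support _ hz))⟩
  obtain ⟨q, hq⟩ := hq
  have hb := q.bypass_isPath
  have hs : ∀ z ∈ q.bypass.support, z ∈ Y1 ∪ W := fun z hz => hq z (q.support_bypass_subset_support hz)
  refine (Plug.walk q.bypass hb Y2 h2 fun z hz hz2 => ?_).mono fun z hz => ?_
  · have h3 : z = a2 := by
      rcases mem_union.1 (hs z (List.mem_of_mem_tail hz)) with h | h
      · exact absurd hz2 (hdis z h)
      · exact hp z h hz2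
    have h4 := hb.support_nodup
    rw [← SimpleGraph.Walk.cons_tail_support, List.nodup_cons] at h4
    exact h4.1 (h3 ▸ hz)
  · rcases mem_union.1 hz with h | h
    · exact mem_union_left _ (mem_union_right _ h)
    · rcases mem_union.1 (hs z (List.mem_toFinset.1 h)) with h | h
      · exact mem_union_left _ (mem_union_left _ h)
      · exact mem_union_right _ h

end ObjAux

/-- Build `Y1` in `H` (`core`, `Sw.sep`), `Y2` in `H \ Y1` (which has `Lk` with `s - |Y1|` and degrees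
smaller by at most `|Y1|`), and a path `p` from a port `a1` of the first to a port `a2` of the second
that avoids all other vertices of `Y1 ∪ Y2`.  `X = Y1 ∪ Y2 ∪ p`.  A vertex outside `Y2` is reached
from `a2` by a walk whose other vertices avoid `Y2` (along `p`, then inside `Y1` by `Sw.conn`,
`Sw.mem`); take `Walk.bypass` and `Plug.walk`.  Symmetrically for the vertices of `Y2`. -/
theorem obj_of_lk (κ : V → Bool) (hκ : ∀ u v, G.Adj u v → κ u ≠ κ v) (H : Finset V) (s r : ℕ)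
    (hne : H.Nonempty) (hL : Lk G H s r) (hd : ∀ v ∈ H, s ≤ dgi G H v)
    (hs : 3 * ((r + 2) ^ 2 + 4) ≤ s) :
    ∃ X ⊆ H, X.Nonempty ∧ X.card ≤ 3 * ((r + 2) ^ 2 + 4) ∧ ∀ w ∈ X, Plug G w X := by
  obtain ⟨t, ht⟩ : ∃ t, t = (r + 2) ^ 2 + 4 := ⟨_, rfl⟩
  have hrt : r + 1 ≤ t := by rw [ht]; nlinarith
  obtain ⟨Y1, S1, P1, Q1, h1, n1, s1, c1⟩ := ObjAux.one κ hκ H s r hne hL hd (by omega)
  have hd2 : ∀ v ∈ H, s - t ≤ dgi G (H \ Y1) v := fun v hv => by
    have := hd v hv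
    have := ObjAux.dgi_sdiff (G := G) H Y1 v
    omega
  have hne2 : (H \ Y1).Nonempty := by
    obtain ⟨v, hv⟩ := hne
    have h2 : 0 < dgi G (H \ Y1) v := by have := hd2 v hv; omega
    obtain ⟨w, hw⟩ := card_pos.1 h2
    exact ⟨w, (mem_filter.1 hw).1⟩
  obtain ⟨Y2, S2, P2, Q2, h2, n2, s2, c2⟩ := ObjAux.one κ hκ (H \ Y1) (s - t) r hne2
    (ObjAux.lk_sdiff hL (by omega)) (fun v hv => hd2 v (mem_sdiff.1 hv).1) (by omega)
  obtain ⟨a1, ha1⟩ : S1.Nonempty := card_pos.1 (by rw [h1.card]; norm_num)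
  obtain ⟨a2, ha2⟩ : S2.Nonempty := card_pos.1 (by rw [h2.card]; norm_num)
  have hdis : ∀ x ∈ Y1, x ∉ Y2 := fun x hx e => (mem_sdiff.1 (s2 e)).2 hx
  obtain ⟨p, -, hp2, hp3⟩ := hL a1 (s1 (h1.sub ha1)) a2 (mem_sdiff.1 (s2 (h2.sub ha2))).1
    ((Y1 ∪ Y2) \ {a1, a2})
    ((card_le_card sdiff_subset).trans ((card_union_le _ _).trans (by omega))) (by simp) (by simp)
  have hp4 : ∀ x ∈ p.support.toFinset, x ∈ Y1 ∪ Y2 → x = a1 ∨ x = a2 := fun x hx hx' => by
    by_contra hno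
    exact (hp3 x (List.mem_toFinset.1 hx)).2 (mem_sdiff.2 ⟨hx', by simpa using hno⟩)
  refine ⟨Y1 ∪ Y2 ∪ p.support.toFinset, fun x hx => ?_,
    ⟨a1, mem_union_left _ (mem_union_left _ (h1.sub ha1))⟩, ?_, fun w hw => ?_⟩
  · rcases mem_union.1 hx with h | h
    · rcases mem_union.1 h with h | h
      · exact s1 h
      · exact (mem_sdiff.1 (s2 h)).1
    · exact (hp3 x (List.mem_toFinset.1 h)).1
  · have e1 := card_union_le (Y1 ∪ Y2) p.support.toFinset
    have e2 := card_union_le Y1 Y2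
    have e3 := List.toFinset_card_le p.support
    rw [SimpleGraph.Walk.length_support] at e3
    omega
  · by_cases hw2 : w ∈ Y2
    · rw [union_comm Y1 Y2]
      refine ObjAux.half h2 (h2.sub ha2) ⟨Y1, S1, P1, Q1, h1, n1, ha1, Subset.rfl⟩
        (fun x hx e => hdis x e hx) p (fun x => List.mem_toFinset) (fun x hx hx' => ?_)
        (mem_union_left _ hw2)
      rcases hp4 x hx (mem_union_left _ hx') with h | h
      · exact h
      · exact absurd (h ▸ h2.sub ha2) (hdis x hx')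
    · refine ObjAux.half h1 (h1.sub ha1) ⟨Y2, S2, P2, Q2, h2, n2, ha2, Subset.rfl⟩
        hdis p.reverse (fun x => by simp) (fun x hx hx' => ?_) ?_
      · rcases hp4 x hx (mem_union_right _ hx') with h | h
        · exact absurd hx' (hdis x (h ▸ h1.sub ha1))
        · exact h
      · rcases mem_union.1 hw with h | h
        · rcases mem_union.1 h with h | h
          · exact mem_union_left _ h
          · exact absurd h hw2
        · exact mem_union_right _ h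

/-- `bip`, `extremal` for `cut G κ` with `d = 500 * l ^ 7`, `lk_of_exp` with `s = l ^ 6`,
`obj_of_lk`, `Plug.monoG`. -/
theorem object (l : ℕ) (hl : 1000 ≤ l) (hn : Fintype.card V < 2 ^ l) (U : Finset V)
    (hU : U.Nonempty) (hd : ∀ v ∈ U, l ^ 8 ≤ dgi G U v) :
    ∃ X ⊆ U, X.Nonempty ∧ X.card ≤ l ^ 6 ∧ ∀ w ∈ X, Plug G w X := by
  obtain ⟨κ, hκ⟩ := bip G U
  have h1 : l ^ 8 * U.card ≤ ∑ v ∈ U, dgi G U v := by
    rw [mul_comm, ← smul_eq_mul]
    exact card_nsmul_le_sum U _ _ hd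
  have h7 : 0 < l ^ 7 := by positivity
  have h2 : 500 * l ^ 7 * U.card ≤ ∑ v ∈ U, dgi (cut G κ) U v := by
    have e : 1000 * l ^ 7 * U.card ≤ l ^ 8 * U.card :=
      Nat.mul_le_mul_right _ (by rw [pow_succ l 7, mul_comm]; exact Nat.mul_le_mul_left _ hl)
    have e2 : 1000 * l ^ 7 * U.card = 2 * (500 * l ^ 7 * U.card) := by ring
    omega
  obtain ⟨H, hH, hne, hdeg, hexp⟩ := extremal (G := cut G κ) l (by omega) hn U hU (500 * l ^ 7)
    (by omega) h2
  have e7 : l ^ 7 = l * l ^ 6 := by ring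
  have e6 : l ^ 6 ≤ l ^ 7 := Nat.pow_le_pow_right (by omega) (by norm_num)
  have hL := lk_of_exp (G := cut G κ) l (l ^ 6) (by omega) hn H (fun v hv => by
    have := hdeg v hv
    rw [mul_assoc, ← e7]
    omega) hexp
  have hs : 3 * ((40 * l ^ 2 + 2) ^ 2 + 4) ≤ l ^ 6 := by
    have a1 : 1000 ^ 2 ≤ l ^ 2 := Nat.pow_le_pow_left hl 2
    obtain ⟨m, hm⟩ : ∃ m, m = l ^ 2 := ⟨_, rfl⟩
    have a2 : l ^ 6 = m * (m * m) := by rw [hm]; ring
    rw [a2, ← hm]
    rw [← hm] at a1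
    have a3 : 1000 ^ 2 * (m * m) ≤ m * (m * m) := Nat.mul_le_mul_right _ a1
    nlinarith
  obtain ⟨X, hX, h3, h4, h5⟩ := obj_of_lk (G := cut G κ) κ (fun u v h => h.2) H (l ^ 6)
    (40 * l ^ 2) hne hL (fun v hv => by have := hdeg v hv; omega) hs
  exact ⟨X, hX.trans hH, h3, h4.trans hs, fun w hw => (h5 w hw).monoG fun u v h => h.1⟩

end Pool.Agent.Lib.MP_f20cd2_co.HM
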