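import Pool.Agent.Lib.MP_f20cd2_co.HM.Asm
import Pool.Agent.Lib.MP_f20cd2_co.HM.Obj
import Pool.Agent.Lib.MP_f20cd2_co.HM.Link
import Pool.Agent.Lib.MP_f20cd2_co.PL.Sample

/-!
Choice of the colour ranges and the main theorem.
-/

set_option autoImplicit false
set_option linter.unusedSectionVars false

namespace Pool.Agent.Lib.MP_f20cd2_co.HM

open Finset
open Pool.Agent.Lib.MP_f20cd2_co.H83 (Conn Cells)
open Pool.Agent.Lib.MP_f20cd2_co.PL
open scoped Classical

variable {V : Type} [Fintype V] [DecidableEq V] {G : SimpleGraph V}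

namespace MainAux

lemma col_sub (χ : V → ℕ) {a b a' b' : ℕ} (h1 : a' ≤ a) (h2 : b ≤ b') : col χ a b ⊆ col χ a' b' :=
  fun v hv => by
    have := mem_col.1 hv
    exact mem_col.2 ⟨by omega, by omega⟩

lemma col_disj (χ : V → ℕ) {a b a' b' : ℕ} (h : b ≤ a') : Disjoint (col χ a b) (col χ a' b') :=
  disjoint_left.2 fun v h1 h2 => by
    have h3 := mem_col.1 h1
    have h4 := mem_col.1 h2
    omega

lemma blocks (χ : V → ℕ) (B : Finset V) (h w s y : ℕ)
    (hb : ∀ i < y, s ≤ (B ∩ col χ (h + i * w) (h + i * w + w)).card) :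
    y * s ≤ (B ∩ col χ h (h + y * w)).card := by
  induction y with
  | zero => simp
  | succ y ih =>
    have h1 := ih fun i hi => hb i (by omega)
    have h2 := hb y (by omega)
    have h3 : (B ∩ col χ h (h + y * w)) ∪ (B ∩ col χ (h + y * w) (h + y * w + w)) ⊆
        B ∩ col χ h (h + (y + 1) * w) := by
      rw [add_mul, one_mul, ← add_assoc]
      exact union_subset (inter_subset_inter_left (col_sub χ le_rfl (by omega)))
        (inter_subset_inter_left (col_sub χ (by omega) le_rfl))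
    have h4 := card_le_card h3
    rw [card_union_of_disjoint (disjoint_of_subset_left inter_subset_right
      (disjoint_of_subset_right inter_subset_right (col_disj χ le_rfl)))] at h4
    rw [add_mul, one_mul]
    omega

lemma low2 {l : ℕ} {χ : V → ℕ} (hχ : Good G l χ) (a x h y : ℕ) (ha : a + x + l ≤ l ^ 163)
    (hh : h + y * l ^ 91 ≤ l ^ 163) (D : Finset V) (hD : D ⊆ col χ a (a + x)) :
    y * (2 * l ^ 89) * D.card ≤ x * (nbr G D ∩ col χ h (h + y * l ^ 91)).card := by
  have h1 := ContAux.mul_card_le χ D a x (y * (2 * l ^ 89))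
    (nbr G D ∩ col χ h (h + y * l ^ 91)).card fun j hj => by
      rw [mul_assoc]
      refine blocks χ _ h _ _ y fun i hi => ?_
      have h2 : (i + 1) * l ^ 91 ≤ y * l ^ 91 := Nat.mul_le_mul_right _ hi
      rw [add_mul, one_mul] at h2
      refine (hχ.low (a + j) (h + i * l ^ 91) (by omega) (by omega) _
        (inter_subset_right.trans (col_sub χ le_rfl (by omega)))).trans (card_le_card ?_)
      exact inter_subset_inter_right (ContAux.nbr_mono inter_subset_left)
  rwa [inter_eq_left.2 hD] at h1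

lemma rt_ind {W I : Finset V} {t : ℝ} (h : RT G W t) (hI : Ind G I) (h2 : 2 ≤ I.card) :
    t * I.card ≤ ((nbr G I ∩ W).card : ℝ) := by
  have hIB : I ⊆ univ \ nbr G I := fun v hv => mem_sdiff.2 ⟨mem_univ _, fun h' =>
    let ⟨u, hu, huv⟩ := mem_nbr.1 h'; hI u hu v hv huv⟩
  obtain ⟨lab, hlab⟩ : ∃ lab : V → Option V, lab = fun v => if v ∈ I then some v else none :=
    ⟨_, rfl⟩
  have hle : I.card ≤ ((univ \ nbr G I).image lab).card := by
    refine card_le_card_of_injOn lab (fun v hv => mem_coe.2 (mem_image_of_mem _ (hIB hv)))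
      fun v hv w hw e => ?_
    simpa only [hlab, if_pos (mem_coe.1 hv), if_pos (mem_coe.1 hw), Option.some.injEq] using e
  have hc := BasicAux.cells (G := G) (univ \ nbr G I) lab (fun v hv w hw hvw => by
    have h1 : v ∉ I := fun h' => (mem_sdiff.1 hw).2 (mem_nbr.2 ⟨v, h', hvw⟩)
    have h2 : w ∉ I := fun h' => (mem_sdiff.1 hv).2 (mem_nbr.2 ⟨w, h', hvw.symm⟩)
    simp only [hlab, if_neg h1, if_neg h2]) _ hle
  have h3 := h _ _ hc h2
  have e : W \ (univ \ nbr G I) = nbr G I ∩ W := by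
    ext v
    simp [and_comm]
  rwa [e] at h3

lemma rt_card {W : Finset V} {t : ℝ} (h : RT G W t) (hnc : ∃ u v, u ≠ v ∧ ¬ G.Adj u v) :
    t * 2 ≤ (W.card : ℝ) := by
  obtain ⟨u, v, huv, hn⟩ := hnc
  have h1 := rt_ind (I := {u, v}) h (fun a ha b hb hab => by
    simp only [mem_insert, mem_singleton] at ha hb
    rcases ha with rfl | rfl <;> rcases hb with rfl | rfl
    · exact G.irrefl hab
    · exact hn hab
    · exact hn hab.symm
    · exact G.irrefl hab) (card_pair huv).ge
  rw [card_pair huv] at h1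
  exact h1.trans (by exact_mod_cast card_le_card inter_subset_right)

end MainAux

open MainAux

theorem ham_of_good (l : ℕ) (hl : 1000 ≤ l) (hn : Fintype.card V < 2 ^ l) {χ : V → ℕ}
    (hχ : Good G l χ) (hnc : ∃ u v, u ≠ v ∧ ¬ G.Adj u v) : G.IsHamiltonian := by
  have hl1 : 1 ≤ l := by omega
  have pw : ∀ a b : ℕ, a ≤ b → l ^ a ≤ l ^ b := fun a b h => Nat.pow_le_pow_right hl1 h
  have ab : ∀ a : ℕ, 1000 * l ^ a ≤ l ^ (a + 1) := fun a => by
    rw [pow_succ, mul_comm]
    exact Nat.mul_le_mul_left _ hl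
  obtain ⟨a1, ha1⟩ : ∃ a1, a1 = (l + 1) * (l + 1) := ⟨_, rfl⟩
  have q1 : a1 ≤ l ^ 3 := by
    have h1 := ab 2
    have h2 : (l + 1) * (l + 1) ≤ (2 * l) * (2 * l) := Nat.mul_le_mul (by omega) (by omega)
    have h3 : (2 * l) * (2 * l) = 4 * l ^ 2 := by ring
    norm_num at h1
    omega
  have q2 : l ≤ l ^ 3 := by simpa using pw 1 3 (by norm_num)
  have q3 := ab 3
  have q4 := pw 4 91 (by norm_num)
  have q5 := pw 91 103 (by norm_num)
  have q6 := ab 103
  have q7 := pw 104 163 (by norm_num)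
  have q8 : l ^ 12 * l ^ 91 = l ^ 103 := by ring
  norm_num at q3 q6
  have hlR : (1000 : ℝ) ≤ l := by exact_mod_cast hl
  have t2 : (2 : ℝ) ≤ (l : ℝ) ^ 102 :=
    (show (2 : ℝ) ≤ l by linarith).trans (le_self_pow₀ (by linarith) (by norm_num))
  have cls : ∀ g, g + l < l ^ 163 → RT G (col χ g (g + l + 1)) 2 ∧ 4 ≤ (col χ g (g + l + 1)).card :=
    fun g hg => by
      have h1 := (hχ.rt g hg).mono Subset.rfl t2
      have h2 := rt_card h1 hnc
      have h3 : (4 : ℝ) ≤ (col χ g (g + l + 1)).card := by linarith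
      exact ⟨h1, by exact_mod_cast h3⟩
  obtain ⟨a2, ha2⟩ : ∃ a2, a2 = a1 + l ^ 91 := ⟨_, rfl⟩
  obtain ⟨a3, ha3⟩ : ∃ a3, a3 = a2 + l + 1 := ⟨_, rfl⟩
  obtain ⟨a4, ha4⟩ : ∃ a4, a4 = a3 + l + 1 := ⟨_, rfl⟩
  obtain ⟨T, hT0, hT4, hTe⟩ : ∃ T : Finset V, col χ a1 a3 ⊆ T ∧ T ⊆ col χ a1 a4 ∧ Even T.card := by
    by_cases h : Even (col χ a1 a3).card
    · exact ⟨_, Subset.rfl, col_sub χ le_rfl (by omega), h⟩
    · obtain ⟨x, hx⟩ := card_pos.1 (show 0 < (col χ a3 (a3 + l + 1)).card by
        have := (cls a3 (by omega)).2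
        omega)
      have h1 := mem_col.1 hx
      refine ⟨insert x (col χ a1 a3), subset_insert _ _,
        insert_subset (mem_col.2 ⟨by omega, by omega⟩) (col_sub χ le_rfl (by omega)), ?_⟩
      rw [card_insert_of_notMem fun h2 => by
        have := mem_col.1 h2
        omega]
      exact Nat.even_add_one.2 h
  have hTL : Disjoint T (col χ a4 (a4 + l ^ 12 * l ^ 91)) :=
    disjoint_of_subset_left hT4 (col_disj χ le_rfl)
  obtain ⟨X, hX, hXd⟩ := link (G := G) (Plug G) (fun x y X h1 h2 h3 => h1.ext h2 h3) T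
    (col χ a4 (a4 + l ^ 12 * l ^ 91)) hTL (l ^ 8) (l ^ 6) (Nat.one_le_pow _ _ hl1)
    (fun U _ hU hd => object l hl hn U hU hd)
    (fun D hD => by
      have h1 := low2 hχ a1 (l ^ 91 + 2 * l + 2) a4 (l ^ 12) (by omega) (by omega) D
        (hD.trans (hT4.trans (col_sub χ le_rfl (by omega))))
      have h2 : l ^ 91 + 2 * l + 2 ≤ 2 * l ^ 91 := by omega
      have h3 := h1.trans (Nat.mul_le_mul_right _ h2)
      have h4 : l ^ 12 * (2 * l ^ 89) * D.card = 2 * l ^ 91 * (l ^ 10 * D.card) := by ring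
      rw [h4] at h3
      refine le_trans (Nat.mul_le_mul_right _ ?_) (Nat.le_of_mul_le_mul_left h3 (by positivity))
      have h5 := pw 6 8 (by norm_num)
      have h6 := ab 8
      have h7 := pw 9 10 (by norm_num)
      norm_num at h6
      omega)
    (fun I _ hI h2 => by
      have h1 := rt_ind (hχ.rt a4 (by omega)) hI h2
      have h3 : l ^ 102 * I.card ≤ (nbr G I ∩ col χ a4 (a4 + l + 1)).card := by exact_mod_cast h1
      refine le_trans (Nat.mul_le_mul_right _ ?_) (h3.trans (card_le_card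
        (inter_subset_inter_left (col_sub χ le_rfl (by omega)))))
      have h5 := Nat.one_le_pow 8 _ hl1
      have h6 := ab 8
      have h7 := pw 9 102 (by norm_num)
      norm_num at h6
      omega)
  have hi : ∀ i ≤ l, i * (l + 1) + l + 1 ≤ a1 := fun i h => by
    have h1 : (i + 1) * (l + 1) ≤ (l + 1) * (l + 1) := Nat.mul_le_mul_right _ (by omega)
    rw [add_mul, one_mul] at h1
    omega
  have hRs : (range (l + 1)).biUnion (fun i => col χ (i * (l + 1)) (i * (l + 1) + l + 1)) ⊆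
      col χ 0 (0 + a1) := biUnion_subset.2 fun i h =>
    col_sub χ (Nat.zero_le _) (by
      have := hi i (by have := mem_range.1 h; omega)
      omega)
  refine assemble l hn.le (fun i => col χ (i * (l + 1)) (i * (l + 1) + l + 1)) T
    (col χ a1 (a1 + 1 * l ^ 91)) (col χ a2 (a2 + l + 1)) _
    (fun i h => ?_) (fun i _ j _ hij => ?_)
    (disjoint_of_subset_left hT4 (disjoint_of_subset_right hRs (col_disj χ (by omega)).symm))
    (disjoint_of_subset_right hRs (col_disj χ (by omega)).symm) hTL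
    ((col_sub χ le_rfl (by omega)).trans hT0) ((col_sub χ (by omega) (by omega)).trans hT0)
    (col_disj χ (by omega)) (cls a2 (by omega)).1 hTe ?_ (fun D hD => ?_) X hX hXd
  · have h1 := hi i h
    have h2 := cls (i * (l + 1)) (by omega)
    exact ⟨h2.1, by have := h2.2; omega⟩
  · have key : ∀ a b : ℕ, a < b → a * (l + 1) + l + 1 ≤ b * (l + 1) := fun a b h => by
      have h1 : (a + 1) * (l + 1) ≤ b * (l + 1) := Nat.mul_le_mul_right _ h
      rw [add_mul, one_mul] at h1
      omega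
    rcases lt_or_gt_of_ne hij with h | h
    · exact col_disj χ (key i j h)
    · exact (col_disj χ (key j i h)).symm
  · have h1 := (cls a2 (by omega)).2
    have h2 := card_le_card ((col_sub χ (show a1 ≤ a2 by omega)
      (show a2 + l + 1 ≤ a3 by omega)).trans hT0)
    omega
  · have h1 := low2 hχ 0 a1 a1 1 (by omega) (by omega) D (hD.trans hRs)
    have h2 := h1.trans (Nat.mul_le_mul_right _ (q1.trans (pw 3 89 (by norm_num))))
    have h3 : 1 * (2 * l ^ 89) * D.card = l ^ 89 * (2 * D.card) := by ring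
    rw [h3] at h2
    exact Nat.le_of_mul_le_mul_left h2 (by positivity)

theorem ham_main (l : ℕ) (hl : 1000 ≤ l) (hn : Fintype.card V < 2 ^ l) (h3 : 3 ≤ Fintype.card V)
    (hT : RT G univ ((l : ℝ) ^ 760)) : G.IsHamiltonian := by
  by_cases hnc : ∃ u v, u ≠ v ∧ ¬ G.Adj u v
  · obtain ⟨χ, hχ⟩ := sample l hl hn hT hnc
    exact ham_of_good l hl hn hχ hnc
  · push Not at hnc
    exact ham_top h3 hnc

/-- The main theorem with the toughness written through the natural logarithm. -/
theorem ham_log (h3 : 3 ≤ Fintype.card V)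
    (hG : ∀ S : Set V, 1 < Nat.card (G.induce Sᶜ).ConnectedComponent →
      2000 ^ 760 * Real.log (Fintype.card V) ^ 760 * Nat.card (G.induce Sᶜ).ConnectedComponent ≤
        S.ncard) : G.IsHamiltonian := by
  have hn : Fintype.card V < 2 ^ (Nat.log 2 (Fintype.card V) + 1000) :=
    (Nat.lt_pow_succ_log_self (by norm_num) _).trans_le
      (Nat.pow_le_pow_right (by norm_num) (by omega))
  have hR : (2 : ℝ) ≤ Fintype.card V := by exact_mod_cast (show 2 ≤ Fintype.card V by omega)
  have hl2 := Real.log_two_gt_d9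
  have h3' : Real.log 2 ≤ Real.log (Fintype.card V) := Real.log_le_log (by norm_num) hR
  have h4 : (Nat.log 2 (Fintype.card V) : ℝ) * Real.log 2 ≤ Real.log (Fintype.card V) := by
    rw [← Real.log_pow]
    refine Real.log_le_log (by positivity) ?_
    exact_mod_cast Nat.pow_log_le_self 2 (by omega)
  have h5 : ((Nat.log 2 (Fintype.card V) + 1000 : ℕ) : ℝ) ≤ 2000 * Real.log (Fintype.card V) := by
    have h6 : (0 : ℝ) ≤ Nat.log 2 (Fintype.card V) := Nat.cast_nonneg _
    have h7 : (Nat.log 2 (Fintype.card V) : ℝ) * (1 / 2) ≤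
        (Nat.log 2 (Fintype.card V) : ℝ) * Real.log 2 :=
      mul_le_mul_of_nonneg_left (by linarith) h6
    rw [Nat.cast_add, Nat.cast_ofNat]
    clear hG hn
    linarith
  refine ham_main _ (by omega) hn h3 ((rt_of_tough (mul_nonneg (pow_nonneg (by norm_num) _)
    (pow_nonneg (Real.log_natCast_nonneg _) _)) hG).mono Finset.Subset.rfl ?_)
  rw [← mul_pow]
  exact pow_le_pow_left₀ (Nat.cast_nonneg _) h5 _

end Pool.Agent.Lib.MP_f20cd2_co.HM
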