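import Pool.Agent.Lib.MP_f20cd2_co.HM.Round

/-!
All components are merged and all capacity is used.
-/

set_option autoImplicit false
set_option linter.unusedSectionVars false

namespace Pool.Agent.Lib.MP_f20cd2_co.HM

open Finset
open Pool.Agent.Lib.MP_f20cd2_co.H83 (Conn Cells)
open Pool.Agent.Lib.MP_f20cd2_co.PL
open scoped Classical

variable {V : Type} [Fintype V] [DecidableEq V] {G : SimpleGraph V}

namespace MergeAux

lemma sum_ite {A B : Finset V} (h : A ⊆ B) {p q : V → Prop} {_ : DecidablePred p}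
    {_ : DecidablePred q} (hpq : ∀ w, p w ↔ q w) {f g : V → ℕ} (h1 : ∀ w ∈ A, g w = f w)
    (h2 : ∀ w ∈ B, w ∉ A → g w = 0) : ∑ w ∈ B.filter p, g w = ∑ w ∈ A.filter q, f w := by
  symm
  refine sum_subset_zero_on_sdiff (fun w hw => ?_) (fun w hw => ?_) fun w hw => ?_
  · exact mem_filter.2 ⟨h (mem_filter.1 hw).1, (hpq w).2 (mem_filter.1 hw).2⟩
  · obtain ⟨h3, h4⟩ := mem_sdiff.1 hw
    exact h2 w (mem_filter.1 h3).1 fun h5 => h4 (mem_filter.2 ⟨h5, (hpq w).1 (mem_filter.1 h3).2⟩)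
  · exact (h1 w (mem_filter.1 hw).1).symm

lemma disj_R {l i : ℕ} {Rs : ℕ → Finset V} {A B : Finset V} (hi : i ≤ l) (hA : Disjoint A (Rs i))
    (hRd : ∀ i ≤ l, ∀ j ≤ l, i ≠ j → Disjoint (Rs i) (Rs j))
    (hB : B ⊆ A ∪ (range i).biUnion Rs) : Disjoint B (Rs i) := by
  rw [disjoint_left]
  intro v hv hv'
  rcases mem_union.1 (hB hv) with h1 | h1
  · exact disjoint_left.1 hA h1 hv'
  · obtain ⟨j, hj, h2⟩ := mem_biUnion.1 h1
    have h3 := mem_range.1 hj
    exact disjoint_left.1 (hRd j (by omega) i hi (by omega)) h2 hv'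

lemma sub_succ {i : ℕ} {Rs : ℕ → Finset V} {A B B' : Finset V}
    (hB : B ⊆ A ∪ (range i).biUnion Rs) (hB' : B' ⊆ B ∪ Rs i) :
    B' ⊆ A ∪ (range (i + 1)).biUnion Rs := by
  intro v hv
  rcases mem_union.1 (hB' hv) with h1 | h1
  · rcases mem_union.1 (hB h1) with h2 | h2
    · exact mem_union_left _ h2
    · obtain ⟨j, hj, h3⟩ := mem_biUnion.1 h2
      exact mem_union_right _ (mem_biUnion.2 ⟨j, mem_range.2 (by have := mem_range.1 hj; omega), h3⟩)
  · exact mem_union_right _ (mem_biUnion.2 ⟨i, self_mem_range_succ i, h1⟩)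

lemma mem_of_adj {A B : Finset V} {J : SimpleGraph V} (hAB : A ⊆ B)
    (h : ∀ v, v ∉ A → dg J v = if v ∈ B then 2 else 0) {u v : V} (huv : J.Adj u v) : u ∈ B := by
  by_contra hu
  have h1 := h u fun h2 => hu (hAB h2)
  have h2 := dg_pos huv
  rw [if_neg hu] at h1
  omega

lemma iter (l : ℕ) (Rs : ℕ → Finset V) (A : Finset V) (K : SimpleGraph V) (cap : V → ℕ)
    (hR : ∀ i ≤ l, RT G (Rs i) 2 ∧ 2 ≤ (Rs i).card ∧ Disjoint A (Rs i))
    (hRd : ∀ i ≤ l, ∀ j ≤ l, i ≠ j → Disjoint (Rs i) (Rs j)) (hK : ∀ u v, K.Adj u v → u ∈ A)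
    (hfree : ∀ v ∈ A, 2 ≤ ∑ w ∈ A.filter (fun w => K.Reachable v w), cap w) (i : ℕ) (hi : i ≤ l) :
    ∃ J ≤ G, ∃ B, A ⊆ B ∧ B ⊆ A ∪ (range i).biUnion Rs ∧ Disjoint J K ∧
      (∀ v ∈ A, dg J v ≤ cap v) ∧ (∀ v, v ∉ A → dg J v = if v ∈ B then 2 else 0) ∧
      (∀ v ∈ B, 2 ≤ ∑ w ∈ A.filter (fun w => (K ⊔ J).Reachable v w), (cap w - dg J w)) ∧
      2 ^ i * nc (K ⊔ J) B + 1 ≤ nc K A + 2 ^ i := by
  induction i with
  | zero =>
    refine ⟨⊥, bot_le, A, Subset.rfl, subset_union_left, disjoint_bot_left,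
      fun v _ => by rw [dg_bot]; omega, fun v hv => by rw [dg_bot, if_neg hv], fun v hv => ?_, ?_⟩
    · exact (hfree v hv).trans_eq (sum_ite Subset.rfl (fun w => by rw [sup_bot_eq])
        (fun w _ => by rw [dg_bot, Nat.sub_zero]) fun w h5 h6 => absurd h5 h6)
    · rw [sup_bot_eq, pow_zero, one_mul]
  | succ i ih =>
    obtain ⟨J, hJ, B, hAB, hB, hJK, h1, h2, h3, h4⟩ := ih (by omega)
    obtain ⟨r1, r2, r3⟩ := hR i (by omega)
    obtain ⟨J1, hJ1, B1, hB1, hB2, hd, k1, k2, k3, k4⟩ := round (K := K ⊔ J)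
      (cap := fun w => if w ∈ A then cap w - dg J w else 0) r1 r2
      (disj_R (l := l) (by omega) r3 hRd hB)
      (fun u v huv => huv.elim (fun h5 => hAB (hK u v h5)) fun h5 => mem_of_adj hAB h2 h5)
      (fun v hv => (h3 v hv).trans_eq (sum_ite hAB (fun _ => Iff.rfl) (fun w hw => if_pos hw)
        fun w _ hw => if_neg hw).symm)
    have hdJ : Disjoint J J1 := (disjoint_sup_right.1 hd).2.symm
    refine ⟨J ⊔ J1, sup_le hJ hJ1, B1, hAB.trans hB1, sub_succ hB hB2,
      disjoint_sup_left.2 ⟨hJK, (disjoint_sup_right.1 hd).1⟩, fun v hv => ?_, fun v hv => ?_,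
      fun v hv => ?_, ?_⟩
    · have h5 := k1 v (hAB hv)
      have h6 := h1 v hv
      rw [if_pos hv] at h5
      rw [dg_sup hdJ]
      omega
    · rw [dg_sup hdJ, h2 v hv]
      by_cases h5 : v ∈ B
      · have h6 := k1 v h5
        rw [if_neg hv] at h6
        rw [if_pos h5, if_pos (hB1 h5)]
        omega
      · rw [if_neg h5, k2 v h5, zero_add]
    · refine (k3 v hv).trans_eq (sum_ite hAB (fun w => by rw [sup_assoc]) (fun w hw => ?_)
        fun w _ hw => ?_)
      · rw [dg_sup hdJ, if_pos hw, Nat.sub_sub]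
      · rw [if_neg hw, Nat.zero_sub]
    · rw [← sup_assoc, pow_succ, mul_assoc]
      have h5 := Nat.mul_le_mul_left (2 ^ i) k4
      rw [mul_add] at h5
      omega

end MergeAux

/-- Induct on `i ≤ l` with `round` (class `Rs i`, graph `K ⊔ J`, capacity
`if w ∈ A then cap w - dg J w else 0`), keeping `2 ^ i * (nc - 1) ≤ nc K A - 1 < 2 ^ l`.  After `l`
rounds there is one component.  The remaining capacity is at most one everywhere (a vertex with two
is isolated in `K ⊔ J`), two vertices with remaining capacity are not adjacent in `K ⊔ J` (by `hna`,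
or both have `cap = 2` and `dg J = 1`, and then the pair is closed under adjacency, `reach_ind`,
against `3 ≤ |A|`), and their number is even (`even_sum_dg`).  Apply `tjoin` with `Rs l`. -/
theorem merge (l : ℕ) (Rs : ℕ → Finset V) (A : Finset V) (K : SimpleGraph V) (cap : V → ℕ)
    (hR : ∀ i ≤ l, RT G (Rs i) 2 ∧ 2 ≤ (Rs i).card ∧ Disjoint A (Rs i))
    (hRd : ∀ i ≤ l, ∀ j ≤ l, i ≠ j → Disjoint (Rs i) (Rs j))
    (hA : A.card ≤ 2 ^ l) (hA3 : 3 ≤ A.card) (hK : ∀ u v, K.Adj u v → u ∈ A)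
    (hcap : ∀ v, cap v ≤ 2) (hiso : ∀ v w, cap v = 2 → ¬ K.Adj v w)
    (hna : ∀ v w, 0 < cap v → 0 < cap w → ¬ K.Adj v w)
    (hfree : ∀ v ∈ A, 2 ≤ ∑ w ∈ A.filter (fun w => K.Reachable v w), cap w)
    (hev : Even (∑ v ∈ A, cap v)) :
    ∃ J ≤ G, ∃ A', A ⊆ A' ∧ A' ⊆ A ∪ (range (l + 1)).biUnion Rs ∧ Disjoint J K ∧
      (∀ v, dg J v = if v ∈ A then cap v else if v ∈ A' then 2 else 0) ∧
      ∀ u ∈ A', ∀ v ∈ A', (K ⊔ J).Reachable u v := by
  obtain ⟨J, hJ, B, hAB, hB, hJK, h1, h2, h3, h4⟩ :=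
    MergeAux.iter l Rs A K cap hR hRd hK hfree l le_rfl
  obtain ⟨r1, r2, r3⟩ := hR l le_rfl
  have hBR : Disjoint B (Rs l) := MergeAux.disj_R le_rfl r3 hRd hB
  have hn : nc (K ⊔ J) B ≤ 1 := by
    have h5 : nc K A ≤ 2 ^ l := card_image_le.trans hA
    by_contra h6
    have h7 := Nat.mul_le_mul_left (2 ^ l) (show 2 ≤ nc (K ⊔ J) B by omega)
    omega
  have hc : ∀ u ∈ B, ∀ v ∈ B, (K ⊔ J).Reachable u v := fun u hu v hv => by
    have h5 := card_le_one.1 hn _ (mem_image_of_mem _ hu) _ (mem_image_of_mem _ hv)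
    have h6 := Finset.ext_iff.1 h5 v
    simp only [mem_filter] at h6
    exact (h6.2 ⟨hv, SimpleGraph.Reachable.refl v⟩).2
  have hcl : ∀ u ∈ A, ∀ v, (∀ x y, (K ⊔ J).Adj x y → x = u ∨ x = v → y = u ∨ y = v) → False :=
    fun u hu v h5 => by
      have h6 : A ⊆ {u, v} := fun x hx => by
        rw [mem_insert, mem_singleton]
        exact reach_ind (p := fun x => x = u ∨ x = v) h5 (hc u (hAB hu) x (hAB hx)) (Or.inl rfl)
      have h7 := (card_le_card h6).trans card_le_two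
      omega
  set T := A.filter fun v => dg J v < cap v with hT
  have hTA : T ⊆ A := filter_subset _ _
  have hone : ∀ v ∈ T, dg J v + 1 = cap v := fun v hv => by
    obtain ⟨h5, h6⟩ := mem_filter.1 hv
    by_contra h7
    have h8 := hcap v
    refine hcl v h5 v fun x y hxy hx => ?_
    have h9 : x = v := hx.elim id id
    subst h9
    exact hxy.elim (fun h => absurd h (hiso x y (by omega)))
      fun h => absurd h (dg_eq_zero.1 (by omega) y)
  have hout : ∀ v ∈ A, v ∉ T → dg J v = cap v := fun v hv h5 => by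
    have h6 := h1 v hv
    have h7 : ¬ dg J v < cap v := fun h => h5 (mem_filter.2 ⟨hv, h⟩)
    omega
  have hTe : Even T.card := by
    have h5 := even_sum_dg (H := J) B fun u _ w huw => MergeAux.mem_of_adj hAB h2 huw.symm
    rw [← sum_sdiff hAB] at h5
    have h6 : Even (∑ v ∈ B \ A, dg J v) := even_sum _ fun v hv => by
      rw [h2 v (mem_sdiff.1 hv).2, if_pos (mem_sdiff.1 hv).1]
      exact even_two
    have h7 : ∑ v ∈ A, cap v = ∑ v ∈ A, dg J v + T.card := by
      rw [hT, card_filter, ← sum_add_distrib]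
      refine sum_congr rfl fun v hv => ?_
      by_cases h8 : dg J v < cap v
      · rw [if_pos h8, hone v (mem_filter.2 ⟨hv, h8⟩)]
      · rw [if_neg h8, hout v hv fun h => h8 (mem_filter.1 h).2, add_zero]
    rw [h7] at hev
    exact (Nat.even_add.1 hev).1 ((Nat.even_add.1 h5).1 h6)
  obtain ⟨J2, hJ2, R', hR', k1, k2⟩ := tjoin r1 r2 (r3.mono_left hTA) hTe
  have hnR : ∀ v ∈ B, v ∉ R' := fun v hv h5 => disjoint_left.1 hBR hv (hR' h5)
  have hmT : ∀ u v, J2.Adj u v → (K ⊔ J).Adj u v → u ∈ T := fun u v h5 h6 => by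
    have h7 : u ∈ B := h6.elim (fun h => hAB (hK u v h)) fun h => MergeAux.mem_of_adj hAB h2 h
    by_contra h8
    have h9 := dg_pos h5
    rw [k1, dS, if_neg h8, if_neg (hnR u h7)] at h9
    omega
  have hd : Disjoint J2 (K ⊔ J) := disj_iff.2 fun u v h5 h6 => by
    have hu := hmT u v h5 h6
    have hv := hmT v u h5.symm h6.symm
    have e1 := hone u hu
    have e2 := hone v hv
    rcases h6 with h6 | h6
    · exact hna u v (by omega) (by omega) h6
    · have key : ∀ x y z, x ∈ T → J.Adj x y → (K ⊔ J).Adj x z → z = y := fun x y z hx h7 h8 => by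
        have e3 := hone x hx
        have e4 := dg_pos h7
        have e5 := hcap x
        rcases h8 with h8 | h8
        · exact absurd h8 (hiso x z (by omega))
        · exact card_le_one.1 (show dg J x ≤ 1 by omega) z (mem_filter.2 ⟨mem_univ _, h8⟩) y
            (mem_filter.2 ⟨mem_univ _, h7⟩)
      refine hcl u (hTA hu) v fun x y hxy hx => ?_
      rcases hx with rfl | rfl
      · exact Or.inr (key x v y hu h6 hxy)
      · exact Or.inl (key x u y hv h6.symm hxy)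
  have hdJ : Disjoint J J2 := (disjoint_sup_right.1 hd).2.symm
  refine ⟨J ⊔ J2, sup_le hJ hJ2, B ∪ R', hAB.trans subset_union_left,
    MergeAux.sub_succ hB (union_subset_union_right hR'),
    disjoint_sup_left.2 ⟨hJK, (disjoint_sup_right.1 hd).1⟩, fun v => ?_, ?_⟩
  · rw [dg_sup hdJ, k1, dS]
    by_cases h5 : v ∈ A
    · rw [if_pos h5]
      by_cases h6 : v ∈ T
      · rw [if_pos h6, hone v h6]
      · rw [if_neg h6, if_neg (hnR v (hAB h5)), hout v h5 h6, add_zero]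
    · rw [if_neg h5, if_neg fun h => h5 (hTA h), h2 v h5]
      by_cases h6 : v ∈ B
      · rw [if_pos h6, if_neg (hnR v h6), if_pos (mem_union_left _ h6)]
      · rw [if_neg h6, zero_add]
        simp only [mem_union, h6, false_or]
  · have h5 : ∀ x ∈ B ∪ R', ∃ y ∈ B, (K ⊔ (J ⊔ J2)).Reachable x y := fun x hx => by
      rcases mem_union.1 hx with h6 | h6
      · exact ⟨x, h6, SimpleGraph.Reachable.refl x⟩
      · obtain ⟨t, ht, h7⟩ := k2 x h6
        exact ⟨t, hAB (hTA ht), h7.mono (le_sup_right.trans le_sup_right)⟩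
    intro u hu v hv
    obtain ⟨a, ha, h6⟩ := h5 u hu
    obtain ⟨b, hb, h7⟩ := h5 v hv
    exact (h6.trans ((hc a ha b hb).mono (sup_le_sup_left le_sup_left K))).trans h7.symm

end Pool.Agent.Lib.MP_f20cd2_co.HM
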