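import Pool.Agent.Lib.MP_f20cd2_co.HM.RPDef
import Pool.Agent.Lib.MP_f20cd2_co.HM.Main

/-!
Graphs with a Hamilton path are recursively partitionable.
-/

set_option autoImplicit false
set_option linter.unusedSectionVars false

namespace Pool.Agent.Lib.MP_f20cd2_co.HM

open Finset
open Pool.Agent.Lib.MP_f20cd2_co.H83 (Conn Cells)
open Pool.Agent.Lib.MP_f20cd2_co.PL

variable {V : Type} [Fintype V] [DecidableEq V] {G : SimpleGraph V}

lemma conn_of_chain : ∀ L : List V, L ≠ [] → L.IsChain G.Adj → Conn G L.toFinset
  | [], h, _ => absurd rfl h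
  | [a], _, _ => by simpa using Conn.single (G := G) a
  | a :: b :: L, _, h => by
    rw [List.isChain_cons_cons] at h
    rw [List.toFinset_cons]
    exact (conn_of_chain (b :: L) (List.cons_ne_nil _ _) h.2).insert (v := b) (by simp) h.1

lemma rp_of_chain (n : ℕ) : ∀ L : List V, L.length ≤ n → L ≠ [] → L.Nodup → L.IsChain G.Adj →
    RP G (L.toFinset : Set V) := by
  induction n with
  | zero => exact fun L h1 h2 _ _ => absurd (List.length_eq_zero_iff.1 (by omega)) h2
  | succ n ih =>
    intro L h1 h2 h3 h4
    have hc : (L.toFinset : Set V).ncard = L.length := by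
      rw [Set.ncard_coe_finset, List.toFinset_card_of_nodup h3]
    refine RP.split _ (fun k => ((L.take k).toFinset : Set V)) (conn_of_chain L h2 h4).connected
      (fun k _ hk => ⟨fun x hx => ?_, ?_⟩) (fun k hk1 hk => ?_) fun k hk1 hk => ?_
    · exact mem_coe.2 (List.mem_toFinset.2
        (List.mem_of_mem_take (List.mem_toFinset.1 (mem_coe.1 hx))))
    · rw [hc] at hk
      rw [Set.ncard_coe_finset, List.toFinset_card_of_nodup (h3.sublist (List.take_sublist _ _)),
        List.length_take]
      omega
    · rw [hc] at hk
      refine ih _ (by rw [List.length_take]; omega) (fun e => ?_)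
        (h3.sublist (List.take_sublist _ _)) (h4.take k)
      have := congrArg List.length e
      rw [List.length_take, List.length_nil] at this
      omega
    · rw [hc] at hk
      have e : (L.toFinset : Set V) \ ((L.take k).toFinset : Set V) =
          ((L.drop k).toFinset : Set V) := by
        have h5 : (L.take k ++ L.drop k).Nodup := by rwa [List.take_append_drop]
        ext x
        simp only [Set.mem_sdiff, mem_coe, List.mem_toFinset]
        constructor
        · rintro ⟨h6, h7⟩
          rw [← List.take_append_drop k L, List.mem_append] at h6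
          exact h6.resolve_left h7
        · exact fun h6 => ⟨List.mem_of_mem_drop h6,
            fun h7 => List.disjoint_of_nodup_append h5 h7 h6⟩
      rw [e]
      refine ih _ (by rw [List.length_drop]; omega) (fun e => ?_)
        (h3.sublist (List.drop_sublist _ _)) (h4.drop k)
      have := congrArg List.length e
      rw [List.length_drop, List.length_nil] at this
      omega

lemma rp_of_ham (h3 : 3 ≤ Fintype.card V) (h : G.IsHamiltonian) : RP G Set.univ := by
  obtain ⟨a, p, hp⟩ := h (by omega)
  have h1 := hp.isHamiltonian_tail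
  have h2 := rp_of_chain _ p.tail.support le_rfl p.tail.support_ne_nil h1.isPath.support_nodup
    p.tail.isChain_adj_support
  rwa [h1.toFinset_support, coe_univ] at h2

lemma rp_of_top [Nonempty V] (h : ∀ u v, u ≠ v → G.Adj u v) : RP G Set.univ := by
  have h1 := nodup_toList (univ : Finset V)
  have h2 := rp_of_chain (G := G) _ (univ : Finset V).toList le_rfl
    (fun e => univ_nonempty.ne_empty (toList_eq_nil.1 e)) h1
    (List.Pairwise.isChain (List.Pairwise.imp (fun hne => h _ _ hne) h1))
  rwa [toList_toFinset, coe_univ] at h2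

theorem rp_log [Nonempty V]
    (hG : ∀ S : Set V, 1 < Nat.card (G.induce Sᶜ).ConnectedComponent →
      2000 ^ 760 * Real.log (Fintype.card V) ^ 760 * Nat.card (G.induce Sᶜ).ConnectedComponent ≤
        S.ncard) : RP G Set.univ := by
  by_cases h3 : 3 ≤ Fintype.card V
  · exact rp_of_ham h3 (ham_log h3 hG)
  · refine rp_of_top fun u v huv => by_contra fun hn => ?_
    have h1 := (rt_of_tough (mul_nonneg (pow_nonneg (by norm_num) _)
      (pow_nonneg (Real.log_natCast_nonneg _) _)) hG).card_ge ⟨u, v, huv, hn⟩
    have h2 : 1 < Fintype.card V := Fintype.one_lt_card_iff.2 ⟨u, v, huv⟩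
    have h4 : (0 : ℝ) < Real.log (Fintype.card V) := Real.log_pos (by exact_mod_cast h2)
    have h5 : (0 : ℝ) < 2000 ^ 760 * Real.log (Fintype.card V) ^ 760 :=
      mul_pos (pow_pos (by norm_num) _) (pow_pos h4 _)
    have h6 : (Fintype.card V : ℝ) ≤ 2 := by exact_mod_cast (show Fintype.card V ≤ 2 by omega)
    generalize (2000 : ℝ) ^ 760 * Real.log (Fintype.card V) ^ 760 = t at h1 h5
    linarith

end Pool.Agent.Lib.MP_f20cd2_co.HM
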