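import Mathlib

set_option autoImplicit false

namespace Pool.Agent.Lib.MP_f20cd2_co.HM

/-- `RP G A`: the subgraph of `G` induced on `A` is recursively partitionable.  Either `A` is a
single vertex, or `G[A]` is connected and for every `k` with `1 ≤ k < |A|` there is a subset
`f k` of `A` with `k` elements such that `G[f k]` and `G[A \ f k]` are recursively partitionable. -/
inductive RP {V : Type} (G : SimpleGraph V) : Set V → Prop
  | single (v : V) : RP G {v}
  | split (A : Set V) (f : ℕ → Set V) (conn : (G.induce A).Connected)
      (part : ∀ k, 1 ≤ k → k < A.ncard → f k ⊆ A ∧ (f k).ncard = k)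
      (left : ∀ k, 1 ≤ k → k < A.ncard → RP G (f k))
      (right : ∀ k, 1 ≤ k → k < A.ncard → RP G (A \ f k)) : RP G A

end Pool.Agent.Lib.MP_f20cd2_co.HM
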