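import Pool.Agent.Lib.MP_f20cd2_co.HM.TJoin

/-!
One merging round halves the number of components.
-/

set_option autoImplicit false
set_option linter.unusedSectionVars false

namespace Pool.Agent.Lib.MP_f20cd2_co.HM

open Finset
open Pool.Agent.Lib.MP_f20cd2_co.H83 (Conn Cells)
open Pool.Agent.Lib.MP_f20cd2_co.PL
open scoped Classical

variable {V : Type} [Fintype V] [DecidableEq V] {G : SimpleGraph V}

/-- The number of components of `K` on `A`. -/
noncomputable def nc (K : SimpleGraph V) (A : Finset V) : ℕ :=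
  (A.image fun v => A.filter fun w => K.Reachable v w).card

namespace RoundAux

lemma filter_reach (A : Finset V) {K : SimpleGraph V} {u v : V} (huv : K.Reachable u v) :
    (A.filter fun w => K.Reachable u w) = A.filter fun w => K.Reachable v w := by
  ext w
  simp only [mem_filter]
  exact ⟨fun h => ⟨h.1, huv.symm.trans h.2⟩, fun h => ⟨h.1, huv.trans h.2⟩⟩

/-- A transversal of the components consisting of vertices of positive capacity. -/
lemma exists_transversal {A : Finset V} {K : SimpleGraph V} {cap : V → ℕ}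
    (hfree : ∀ v ∈ A, 2 ≤ ∑ w ∈ A.filter (fun w => K.Reachable v w), cap w) :
    ∃ T0 : Finset V, T0 ⊆ A ∧ (∀ t ∈ T0, 1 ≤ cap t) ∧
      (∀ s ∈ T0, ∀ t ∈ T0, K.Reachable s t → s = t) ∧ (∀ v ∈ A, ∃ t ∈ T0, K.Reachable v t) ∧
      T0.card ≤ nc K A := by
  rcases A.eq_empty_or_nonempty with rfl | ⟨a, -⟩
  · exact ⟨∅, by simp, by simp, by simp, by simp, by simp⟩
  have : Nonempty V := ⟨a⟩
  have h1 : ∀ C ∈ A.image (fun v => A.filter fun w => K.Reachable v w),
      ∃ t, t ∈ C ∧ 1 ≤ cap t := by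
    intro C hC
    obtain ⟨v, hv, rfl⟩ := mem_image.1 hC
    have h2 := hfree v hv
    by_contra hno
    push Not at hno
    have h4 : ∑ w ∈ A.filter (fun w => K.Reachable v w), cap w = 0 :=
      sum_eq_zero fun w hw => by have := hno w hw; omega
    omega
  choose! f hf using h1
  have h2 : ∀ v ∈ A, f (A.filter fun w => K.Reachable v w) ∈ A ∧
      K.Reachable v (f (A.filter fun w => K.Reachable v w)) := fun v hv =>
    mem_filter.1 (hf _ (mem_image_of_mem _ hv)).1
  refine ⟨(A.image fun v => A.filter fun w => K.Reachable v w).image f, ?_, ?_, ?_, ?_, ?_⟩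
  · intro t ht
    obtain ⟨C, hC, rfl⟩ := mem_image.1 ht
    obtain ⟨v, hv, rfl⟩ := mem_image.1 hC
    exact (h2 v hv).1
  · intro t ht
    obtain ⟨C, hC, rfl⟩ := mem_image.1 ht
    exact (hf C hC).2
  · intro s hs t ht hst
    obtain ⟨C, hC, rfl⟩ := mem_image.1 hs
    obtain ⟨u, hu, rfl⟩ := mem_image.1 hC
    obtain ⟨C', hC', rfl⟩ := mem_image.1 ht
    obtain ⟨v, hv, rfl⟩ := mem_image.1 hC'
    have h3 : K.Reachable u v := ((h2 u hu).2.trans hst).trans (h2 v hv).2.symm
    rw [filter_reach A h3]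
  · intro v hv
    exact ⟨_, mem_image_of_mem _ (mem_image_of_mem _ hv), (h2 v hv).2⟩
  · exact card_image_le

/-- Drop one element if the number is odd. -/
lemma exists_even (T0 : Finset V) : ∃ T ⊆ T0, Even T.card ∧ T0.card ≤ T.card + 1 := by
  rcases Nat.even_or_odd T0.card with h | h
  · exact ⟨T0, Subset.rfl, h, Nat.le_succ _⟩
  · obtain ⟨t, ht⟩ : T0.Nonempty := card_pos.1 h.pos
    refine ⟨T0.erase t, erase_subset _ _, ?_, ?_⟩
    · rw [card_erase_of_mem ht]
      exact Nat.Odd.sub_odd h odd_one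
    · rw [card_erase_of_mem ht]
      omega

/-- A component with exactly one vertex of degree one keeps capacity one. -/
lemma keep {C : Finset V} {cap d : V → ℕ} {t : V} (ht : t ∈ C) (h1 : d t = 1)
    (h0 : ∀ w ∈ C, w ≠ t → d w = 0) (h2 : 2 ≤ ∑ w ∈ C, cap w) :
    1 ≤ ∑ w ∈ C, (cap w - d w) := by
  rw [← add_sum_erase _ _ ht] at h2 ⊢
  have h3 : ∑ w ∈ C.erase t, (cap w - d w) = ∑ w ∈ C.erase t, cap w :=
    sum_congr rfl fun w hw => by
      rw [h0 w (mem_of_mem_erase hw) (ne_of_mem_erase hw), Nat.sub_zero]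
  rw [h3, h1]
  omega

/-- Counting an image all of whose fibres but one have two elements. -/
lemma count {β : Type} [DecidableEq β] {T0 T : Finset V} (f : V → β) (hT : T ⊆ T0)
    (hc : T0.card ≤ T.card + 1) (h2 : ∀ t ∈ T, ∃ s ∈ T, s ≠ t ∧ f s = f t) :
    2 * (T0.image f).card ≤ T0.card + 1 := by
  have h1 : 2 * (T.image f).card ≤ T.card := by
    refine mul_card_image_le_card T 2 fun b hb => ?_
    obtain ⟨t, ht, rfl⟩ := mem_image.1 hb
    obtain ⟨s, hs, hst, hf⟩ := h2 t ht
    refine one_lt_card.2 ⟨s, mem_filter.2 ⟨hs, hf⟩, t, mem_filter.2 ⟨ht, rfl⟩, hst⟩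
  have h3 : (T0.image f).card ≤ (T.image f).card + (T0 \ T).card := by
    calc (T0.image f).card = ((T ∪ T0 \ T).image f).card := by rw [union_sdiff_of_subset hT]
      _ = (T.image f ∪ (T0 \ T).image f).card := by rw [image_union]
      _ ≤ (T.image f).card + ((T0 \ T).image f).card := card_union_le _ _
      _ ≤ _ := Nat.add_le_add_left card_image_le _
  have h4 := card_sdiff_add_card_eq_card hT
  omega

/-- The number of new components. -/
lemma count_nc {L : SimpleGraph V} {A1 T0 T : Finset V} (hT : T ⊆ T0)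
    (hc : T0.card ≤ T.card + 1) (h1 : ∀ v ∈ A1, ∃ t ∈ T0, L.Reachable v t)
    (h2 : ∀ t ∈ T, ∃ s ∈ T, s ≠ t ∧ L.Reachable t s) : 2 * nc L A1 ≤ T0.card + 1 := by
  have h3 : nc L A1 ≤ (T0.image fun v => A1.filter fun w => L.Reachable v w).card := by
    refine card_le_card fun C hC => ?_
    obtain ⟨v, hv, rfl⟩ := mem_image.1 hC
    obtain ⟨t, ht, h3⟩ := h1 v hv
    exact mem_image.2 ⟨t, ht, (filter_reach _ h3).symm⟩
  have h4 := count (fun v => A1.filter fun w => L.Reachable v w) hT hc fun t ht => by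
    obtain ⟨s, hs, hst, hts⟩ := h2 t ht
    exact ⟨s, hs, hst, (filter_reach _ hts).symm⟩
  omega

end RoundAux

/-- Choose one vertex of positive capacity in every component, drop one of them if their number is
odd, and apply `tjoin`; `A1 = A ∪ R'`.  Terminals lie in different components of `K`, so `J` and `K`
are disjoint.  By `parity` every terminal reaches another terminal in `J`.  A new component either is
an old component without terminal or contains two old components, each of which keeps capacity at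
least one.  Counting: map old components onto new ones; all fibres but at most one have two
elements. -/
theorem round {R A : Finset V} {K : SimpleGraph V} {cap : V → ℕ} (hR : RT G R 2)
    (hc : 2 ≤ R.card) (hd : Disjoint A R) (hK : ∀ u v, K.Adj u v → u ∈ A)
    (hfree : ∀ v ∈ A, 2 ≤ ∑ w ∈ A.filter (fun w => K.Reachable v w), cap w) :
    ∃ J ≤ G, ∃ A1, A ⊆ A1 ∧ A1 ⊆ A ∪ R ∧ Disjoint J K ∧ (∀ v ∈ A, dg J v ≤ cap v) ∧
      (∀ v, v ∉ A → dg J v = if v ∈ A1 then 2 else 0) ∧
      (∀ v ∈ A1, 2 ≤ ∑ w ∈ A.filter (fun w => (K ⊔ J).Reachable v w), (cap w - dg J w)) ∧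
      2 * nc (K ⊔ J) A1 ≤ nc K A + 1 := by
  obtain ⟨T0, hT0A, hcap, hsep, hcov, hcard⟩ := RoundAux.exists_transversal hfree
  obtain ⟨T, hTT0, hev, hle⟩ := RoundAux.exists_even T0
  have hTA : T ⊆ A := hTT0.trans hT0A
  obtain ⟨J, hJG, R', hR', hdg, hreach⟩ := tjoin hR hc (hd.mono_left hTA) hev
  have hAR' : ∀ v ∈ A, v ∉ R' := fun v hv h => disjoint_left.1 hd hv (hR' h)
  have hd1 : ∀ v ∈ T, dg J v = 1 := fun v hv => by
    rw [hdg]
    unfold dS
    rw [if_pos hv]
  have hd0 : ∀ v ∈ A, v ∉ T → dg J v = 0 := fun v hv h => by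
    rw [hdg]
    unfold dS
    rw [if_neg h, if_neg (hAR' v hv)]
  have hpar : ∀ t ∈ T, ∃ s ∈ T, s ≠ t ∧ J.Reachable t s := fun t ht => by
    obtain ⟨s, h1, h2, h3⟩ := parity (H := J) (v := t) (by rw [hd1 t ht]; exact odd_one)
    exact ⟨s, odd_dS.1 (hdg s ▸ h3), h1, h2⟩
  have hkeep : ∀ t ∈ T,
      1 ≤ ∑ w ∈ A.filter (fun w => K.Reachable t w), (cap w - dg J w) := fun t ht => by
    refine RoundAux.keep (t := t) (mem_filter.2 ⟨hTA ht, SimpleGraph.Reachable.refl t⟩)
      (hd1 t ht) (fun w hw hwt => ?_) (hfree t (hTA ht))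
    obtain ⟨h1, h2⟩ := mem_filter.1 hw
    exact hd0 w h1 fun h3 => hwt (hsep t (hTT0 ht) w (hTT0 h3) h2).symm
  refine ⟨J, hJG, A ∪ R', subset_union_left, union_subset_union Subset.rfl hR', ?_, ?_, ?_, ?_, ?_⟩
  · refine disj_iff.2 fun u v h1 h2 => ?_
    have hu : u ∈ T := by
      by_contra h
      have h3 := dg_pos h1
      rw [hd0 u (hK u v h2) h] at h3
      omega
    have hv : v ∈ T := by
      by_contra h
      have h3 := dg_pos h1.symm
      rw [hd0 v (hK v u h2.symm) h] at h3
      omega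
    exact h1.ne (hsep u (hTT0 hu) v (hTT0 hv) h2.reachable)
  · intro v hv
    by_cases h : v ∈ T
    · rw [hd1 v h]
      exact hcap v (hTT0 h)
    · rw [hd0 v hv h]
      exact Nat.zero_le _
  · intro v hv
    rw [hdg]
    unfold dS
    rw [if_neg fun h => hv (hTA h)]
    by_cases h : v ∈ R'
    · rw [if_pos h, if_pos (mem_union_right _ h)]
    · rw [if_neg h, if_neg fun h1 => (mem_union.1 h1).elim hv h]
  · intro v hv
    by_cases hex : ∃ t ∈ T, (K ⊔ J).Reachable v t
    · obtain ⟨t, ht, hvt⟩ := hex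
      obtain ⟨s, hs, hst, hts⟩ := hpar t ht
      have hvs : (K ⊔ J).Reachable v s := hvt.trans (hts.mono le_sup_right)
      have hdis : Disjoint (A.filter fun w => K.Reachable t w)
          (A.filter fun w => K.Reachable s w) := disjoint_left.2 fun w h1 h2 =>
        hst (hsep s (hTT0 hs) t (hTT0 ht) ((mem_filter.1 h2).2.trans (mem_filter.1 h1).2.symm))
      have hsub : (A.filter fun w => K.Reachable t w) ∪ (A.filter fun w => K.Reachable s w) ⊆
          A.filter fun w => (K ⊔ J).Reachable v w := fun w hw => by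
        rcases mem_union.1 hw with h | h
        · exact mem_filter.2 ⟨(mem_filter.1 h).1, hvt.trans ((mem_filter.1 h).2.mono le_sup_left)⟩
        · exact mem_filter.2 ⟨(mem_filter.1 h).1, hvs.trans ((mem_filter.1 h).2.mono le_sup_left)⟩
      have h1 := sum_le_sum_of_subset (f := fun w => cap w - dg J w) hsub
      rw [sum_union hdis] at h1
      have h2 := hkeep t ht
      have h3 := hkeep s hs
      omega
    · have hvA : v ∈ A := by
        rcases mem_union.1 hv with h | h
        · exact h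
        · obtain ⟨t, ht, h1⟩ := hreach v h
          exact absurd ⟨t, ht, h1.mono le_sup_right⟩ hex
      have h1 : ∑ w ∈ A.filter (fun w => (K ⊔ J).Reachable v w), (cap w - dg J w) =
          ∑ w ∈ A.filter (fun w => (K ⊔ J).Reachable v w), cap w :=
        sum_congr rfl fun w hw => by
          rw [hd0 w (mem_filter.1 hw).1 fun h => hex ⟨w, h, (mem_filter.1 hw).2⟩, Nat.sub_zero]
      rw [h1]
      refine (hfree v hvA).trans (sum_le_sum_of_subset fun w hw => ?_)
      exact mem_filter.2 ⟨(mem_filter.1 hw).1, (mem_filter.1 hw).2.mono le_sup_left⟩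
  · refine (RoundAux.count_nc hTT0 hle (fun v hv => ?_) fun t ht => ?_).trans
      (Nat.add_le_add_right hcard 1)
    · rcases mem_union.1 hv with h | h
      · obtain ⟨t, ht, h3⟩ := hcov v h
        exact ⟨t, ht, h3.mono le_sup_left⟩
      · obtain ⟨t, ht, h3⟩ := hreach v h
        exact ⟨t, hTT0 ht, h3.mono le_sup_right⟩
    · obtain ⟨s, hs, hst, hts⟩ := hpar t ht
      exact ⟨s, hs, hst, hts.mono le_sup_right⟩

end Pool.Agent.Lib.MP_f20cd2_co.HM
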