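import Pool.Agent.Lib.MP_f20cd2_co.HM.Defs

/-!
Perfect matchings from toughness.
-/

set_option autoImplicit false
set_option linter.unusedSectionVars false

namespace Pool.Agent.Lib.MP_f20cd2_co.HM

open Finset
open Pool.Agent.Lib.MP_f20cd2_co.H83 (Conn Cells)
open Pool.Agent.Lib.MP_f20cd2_co.PL
open scoped Classical

variable {V : Type} [Fintype V] [DecidableEq V] {G : SimpleGraph V}

/-- Tutte's theorem on a finite set.  Apply `SimpleGraph.tutte` to the graph induced on `A`.  For a
set `u` let `B` be the rest and `c` the number of components of the rest (`cells_of_lab` with the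
component as label).  If `2 ≤ c` the odd components are at most `c ≤ |u|`.  If `c ≤ 1` a violator
has `u = ∅` and one odd component, so `A` would be odd (`odd_ncard_oddComponents`). -/
theorem tutte_fin {β : Type} [Fintype β] [DecidableEq β] (Γ : SimpleGraph β) (A : Finset β)
    (hA : Even A.card) (h : ∀ B ⊆ A, ∀ c, Cells Γ B c → 2 ≤ c → c ≤ (A \ B).card) :
    ∃ m : β → β, ∀ x ∈ A, m x ∈ A ∧ m (m x) = x ∧ Γ.Adj x (m x) := by
  obtain ⟨M, hM⟩ := (SimpleGraph.tutte (G := Γ.induce (A : Set β))).2 fun u hu => by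
    rw [SimpleGraph.IsTutteViolator] at hu
    set D := ((⊤ : (Γ.induce (A : Set β)).Subgraph).deleteVerts u).coe with hD
    by_cases hk : 2 ≤ D.oddComponents.ncard
    · let B : Finset β := A.filter fun x => ∀ hx : x ∈ A, (⟨x, hx⟩ : (A : Set β)) ∉ u
      let lab : β → Option D.ConnectedComponent := fun x =>
        if hx : x ∈ B then some (D.connectedComponentMk
          ⟨⟨x, (mem_filter.1 hx).1⟩, trivial, (mem_filter.1 hx).2 _⟩) else none
      have h1 := h B (filter_subset _ _) _ (BasicAux.cells (G := Γ) B lab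
        (fun v hv w hw hvw => by
          simp only [lab, dif_pos hv, dif_pos hw, Option.some.injEq]
          exact SimpleGraph.ConnectedComponent.connectedComponentMk_eq_of_adj
            ⟨⟨trivial, (mem_filter.1 hv).2 (mem_filter.1 hv).1⟩,
              ⟨trivial, (mem_filter.1 hw).2 (mem_filter.1 hw).1⟩, hvw⟩)
        D.oddComponents.ncard (by
          rw [← Set.ncard_coe_finset]
          refine Set.ncard_le_ncard_of_injOn some (fun c _ => ?_)
            (fun _ _ _ _ e => Option.some.inj e) (Finset.finite_toSet _)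
          obtain ⟨x, rfl⟩ := c.exists_rep
          have hx : x.1.1 ∈ B := mem_filter.2 ⟨x.1.2, fun _ => x.2.2⟩
          exact mem_coe.2 (mem_image.2 ⟨x.1.1, hx, dif_pos hx⟩))) hk
      have h2 : (A \ B).card ≤ u.ncard := by
        rw [← Set.ncard_coe_finset, ← Set.ncard_image_of_injective u Subtype.val_injective]
        refine Set.ncard_le_ncard (fun x hx => ?_) (Set.toFinite _)
        obtain ⟨h3, h4⟩ := mem_sdiff.1 (mem_coe.1 hx)
        by_contra h5
        exact h4 (mem_filter.2 ⟨h3, fun hx' h6 => h5 ⟨_, h6, rfl⟩⟩)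
      omega
    · have h1 : u = ∅ := (Set.ncard_eq_zero (Set.toFinite u)).1 (by omega)
      have h2 : Odd D.oddComponents.ncard := by
        rw [show D.oddComponents.ncard = 1 by omega]
        exact odd_one
      have h3 := D.odd_ncard_oddComponents.1 h2
      subst h1
      simp only [SimpleGraph.Subgraph.deleteVerts_verts, SimpleGraph.Subgraph.verts_top,
        Set.sdiff_empty, Nat.card_coe_set_eq, Set.ncard_univ, Set.ncard_coe_finset] at h3
      exact Nat.not_odd_iff_even.2 hA h3
  choose f hf using SimpleGraph.Subgraph.isPerfectMatching_iff.1 hM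
  refine ⟨fun x => if hx : x ∈ A then (f ⟨x, hx⟩).1 else x, fun x hx => ?_⟩
  have h1 : (f ⟨x, hx⟩).1 ∈ A := (f ⟨x, hx⟩).2
  simp only [dif_pos hx, dif_pos h1]
  exact ⟨h1, congrArg Subtype.val ((hf _).2 _ (hf ⟨x, hx⟩).1.symm).symm,
    M.adj_sub (hf ⟨x, hx⟩).1⟩

/-- A perfect matching of an even set that contains a tough class. -/
theorem pm {R A : Finset V} (hR : RT G R 2) (hRA : R ⊆ A) (hA : Even A.card) :
    ∃ J ≤ G, ∀ v, dg J v = if v ∈ A then 1 else 0 := by
  obtain ⟨m, hm⟩ := tutte_fin G A hA fun B _ c h1 h2 => by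
    have h3 : 2 * c ≤ (R \ B).card := by exact_mod_cast hR B c h1 h2
    have h4 := card_le_card (sdiff_subset_sdiff hRA (Subset.refl B))
    omega
  refine ⟨{ Adj := fun u v => u ∈ A ∧ v = m u
            symm := ⟨fun u v h => ⟨h.2 ▸ (hm u h.1).1, h.2 ▸ (hm u h.1).2.1.symm⟩⟩
            loopless := ⟨fun u h => (hm u h.1).2.2.ne h.2⟩ },
    fun u v h => h.2 ▸ (hm u h.1).2.2, fun v => ?_⟩
  split_ifs with hv
  · exact dg_eq_one (w := m v) fun x => ⟨fun h => h.2, fun h => ⟨hv, h⟩⟩
  · exact dg_eq_zero.2 fun w h => hv h.1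

end Pool.Agent.Lib.MP_f20cd2_co.HM
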